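import Pool.Agent.P.MP_c862d8_co.Defs

namespace Pool.Agent.P.MP_c862d8_co

/-- The columns of `B` are a basis of a lattice in `ℝ^m` all of whose nonzero points have
`l1` norm at least one. -/
def Admissible {m : ℕ} (B : Matrix (Fin m) (Fin m) ℝ) : Prop :=
  B.det ≠ 0 ∧ ∀ z : Fin m → ℤ, z ≠ 0 → 1 ≤ ∑ i, |∑ j, B i j * (z j : ℝ)|

/-- The critical determinant of the unit ball of the `l1` norm in `ℝ^m`. -/
noncomputable def critDet (m : ℕ) : ℝ :=
  sInf {t : ℝ | ∃ B : Matrix (Fin m) (Fin m) ℝ, Admissible B ∧ t = |B.det|}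

end Pool.Agent.P.MP_c862d8_co
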