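import Mathlib

namespace Pool.Agent.P.MP_c862d8_co

/-- The `h`-fold signed sumset of a finite subset `A` of `ZMod n`. -/
def signedSumset {n : ℕ} (h : ℕ) (A : Finset (ZMod n)) : Set (ZMod n) :=
  {x | ∃ l : ZMod n → ℤ, ∑ a ∈ A, (l a).natAbs = h ∧ ∑ a ∈ A, l a • a = x}

/-- The largest size of an `h`-fold signed sumset of an `m`-element subset of `ZMod n`. -/
noncomputable def nu (n m h : ℕ) : ℕ :=
  sSup {k : ℕ | ∃ A : Finset (ZMod n), A.card = m ∧ (signedSumset h A).ncard = k}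

/-- The number `c(h,m)`. -/
def c (h m : ℕ) : ℕ :=
  ∑ i ∈ Finset.Icc 1 (min m h), 2 ^ i * m.choose i * (h - 1).choose (i - 1)

end Pool.Agent.P.MP_c862d8_co
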