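import Pool.Agent.P.MP_c862d8_co.Sphere

namespace Pool.Agent.P.MP_c862d8_co

open Finset

/-- the linear form attached to a tuple -/
def lin {n m : ℕ} (a : Fin m → ZMod n) (l : Fin m → ℤ) : ZMod n := ∑ i, l i • a i

lemma lin_sub {n m : ℕ} (a : Fin m → ZMod n) (l l' : Fin m → ℤ) :
    lin a (l - l') = lin a l - lin a l' := by
  simp [lin, sub_smul, sum_sub_distrib]

lemma lin_neg {n m : ℕ} (a : Fin m → ZMod n) (l : Fin m → ℤ) : lin a (-l) = -lin a l := by
  simp [lin]

lemma signedSumset_image {n m : ℕ} (h : ℕ) (a : Fin m → ZMod n) (ha : Function.Injective a) :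
    signedSumset h (univ.image a) = ((sphere m h).image (lin a) : Finset (ZMod n)) := by
  classical
  ext x
  simp only [signedSumset, Set.mem_ofPred_eq, coe_image, Set.mem_image, mem_coe, mem_sphere]
  constructor
  · rintro ⟨l, h1, h2⟩
    rw [sum_image (fun i _ j _ hij => ha hij)] at h1 h2
    exact ⟨fun i => l (a i), h1, h2⟩
  · rintro ⟨l, h1, h2⟩
    refine ⟨Function.extend a l 0, ?_, ?_⟩
    · rw [sum_image (fun i _ j _ hij => ha hij)]
      simpa only [ha.extend_apply] using h1
    · rw [sum_image (fun i _ j _ hij => ha hij)]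
      simpa only [ha.extend_apply, lin] using h2

lemma exists_enum {n m : ℕ} (A : Finset (ZMod n)) (hA : A.card = m) :
    ∃ a : Fin m → ZMod n, Function.Injective a ∧ univ.image a = A := by
  classical
  let e := (Finset.equivFinOfCardEq hA).symm
  refine ⟨fun i => (e i : ZMod n), fun i j hij => e.injective (Subtype.ext hij), ?_⟩
  ext x
  simp only [mem_image, mem_univ, true_and]
  constructor
  · rintro ⟨i, rfl⟩; exact (e i).2
  · intro hx; exact ⟨e.symm ⟨x, hx⟩, by simp⟩

/-- `nu n m h < K` iff every injective tuple has a small image. -/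
lemma nu_lt_iff {n m h K : ℕ} [NeZero n] (hmn : m ≤ n) :
    nu n m h < K ↔ ∀ a : Fin m → ZMod n, Function.Injective a →
      ((sphere m h).image (lin a)).card < K := by
  classical
  have hb : BddAbove {k : ℕ | ∃ A : Finset (ZMod n), A.card = m ∧ (signedSumset h A).ncard = k} := by
    refine ⟨Nat.card (ZMod n), ?_⟩
    rintro k ⟨A, -, rfl⟩
    exact Set.ncard_le_card _
  have hne : {k : ℕ | ∃ A : Finset (ZMod n), A.card = m ∧ (signedSumset h A).ncard = k}.Nonempty := by
    obtain ⟨A, -, hA⟩ := exists_subset_card_eq (s := (univ : Finset (ZMod n))) (n := m)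
      (by simpa using hmn)
    exact ⟨_, A, hA, rfl⟩
  constructor
  · intro H a ha
    refine lt_of_le_of_lt (le_csSup hb ⟨univ.image a, ?_, ?_⟩) H
    · rw [card_image_of_injective _ ha]; simp
    · rw [signedSumset_image h a ha, Set.ncard_coe_finset]
  · intro H
    obtain ⟨A, hA, hk⟩ := Nat.sSup_mem hne hb
    obtain ⟨a, ha, rfl⟩ := exists_enum A hA
    unfold nu
    rw [← hk, signedSumset_image h a ha, Set.ncard_coe_finset]
    exact H a ha

lemma exists_subvector {m : ℕ} (w : Fin m → ℤ) (s : Finset (Fin m)) (k : ℕ)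
    (hk : k ≤ ∑ j ∈ s, (w j).natAbs) :
    ∃ α : Fin m → ℤ, (∀ j, (α j).natAbs + (α j - w j).natAbs = (w j).natAbs) ∧
      (∀ j, j ∉ s → α j = 0) ∧ ∑ j ∈ s, (α j).natAbs = k := by
  classical
  induction s using Finset.induction_on generalizing k with
  | empty => exact ⟨0, by simp, by simp, by simp at hk ⊢; omega⟩
  | insert j s hj ih =>
    rw [sum_insert hj] at hk
    obtain ⟨α, h1, h2, h3⟩ := ih (k - min k (w j).natAbs) (by omega)
    refine ⟨Function.update α j (if 0 ≤ w j then (min k (w j).natAbs : ℕ) else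
      -((min k (w j).natAbs : ℕ) : ℤ)), ?_, ?_, ?_⟩
    · intro i
      by_cases hi : i = j
      · subst hi
        rw [Function.update_self]
        split_ifs <;> omega
      · rw [Function.update_of_ne hi]; exact h1 i
    · intro i hi
      rw [mem_insert, not_or] at hi
      rw [Function.update_of_ne hi.1]; exact h2 i hi.2
    · rw [sum_insert hj, Function.update_self]
      have : ∑ x ∈ s, (Function.update α j (if 0 ≤ w j then (min k (w j).natAbs : ℕ) else
          -((min k (w j).natAbs : ℕ) : ℤ)) x).natAbs = ∑ x ∈ s, (α x).natAbs :=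
        sum_congr rfl fun x hx => by rw [Function.update_of_ne (ne_of_mem_of_not_mem hx hj)]
      rw [this, h3]
      split_ifs <;> omega

/-- every vector of even norm at most `2h` is a difference of two points of the sphere -/
lemma exists_diff {m : ℕ} (hm : 2 ≤ m) (h r : ℕ) (hr : r ≤ h) (w : Fin m → ℤ)
    (hw : ∑ j, (w j).natAbs = 2 * r) :
    ∃ l ∈ sphere m h, l - w ∈ sphere m h := by
  classical
  obtain ⟨i, hi⟩ : ∃ i, (w i).natAbs ≤ r := by
    let i0 : Fin m := ⟨0, by omega⟩
    let i1 : Fin m := ⟨1, by omega⟩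
    have hne : i0 ≠ i1 := by simp [i0, i1]
    have : ∑ j ∈ {i0, i1}, (w j).natAbs ≤ ∑ j, (w j).natAbs :=
      sum_le_sum_of_subset (subset_univ _)
    rw [sum_pair hne] at this
    by_cases h0 : (w i0).natAbs ≤ r
    · exact ⟨i0, h0⟩
    · exact ⟨i1, by omega⟩
  have hsplit : ∀ f : Fin m → ℕ, ∑ j, f j = f i + ∑ j ∈ univ.erase i, f j :=
    fun f => (add_sum_erase _ f (mem_univ i)).symm
  rw [hsplit] at hw
  obtain ⟨α, h1, h2, h3⟩ := exists_subvector w (univ.erase i) (r - (w i).natAbs) (by omega)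
  have h4 : ∑ j ∈ univ.erase i, (α j).natAbs + ∑ j ∈ univ.erase i, (α j - w j).natAbs =
      ∑ j ∈ univ.erase i, (w j).natAbs := by
    rw [← sum_add_distrib]; exact sum_congr rfl fun j _ => h1 j
  let v : ℤ := if 0 ≤ w i then w i + (h - r : ℕ) else w i - (h - r : ℕ)
  have e1 : ∑ j ∈ univ.erase i, (Function.update α i v j).natAbs =
      ∑ j ∈ univ.erase i, (α j).natAbs :=
    sum_congr rfl fun x hx => by rw [Function.update_of_ne (ne_of_mem_erase hx)]
  have e2 : ∑ j ∈ univ.erase i, ((Function.update α i v - w) j).natAbs =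
      ∑ j ∈ univ.erase i, (α j - w j).natAbs :=
    sum_congr rfl fun x hx => by rw [Pi.sub_apply, Function.update_of_ne (ne_of_mem_erase hx)]
  refine ⟨Function.update α i v, ?_, ?_⟩
  · rw [mem_sphere, hsplit, e1, Function.update_self]
    simp only [v]; split_ifs <;> omega
  · rw [mem_sphere, hsplit, e2, Pi.sub_apply, Function.update_self]
    simp only [v]; split_ifs <;> omega

lemma natAbs_sum_parity {m : ℕ} (l l' : Fin m → ℤ) :
    (∑ j, ((l - l') j).natAbs) % 2 = (∑ j, (l j).natAbs + ∑ j, (l' j).natAbs) % 2 := by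
  rw [← sum_add_distrib, sum_nat_mod, sum_nat_mod (f := fun j => (l j).natAbs + (l' j).natAbs)]
  congr 1
  refine sum_congr rfl fun j _ => ?_
  rw [Pi.sub_apply]; omega

lemma natAbs_sum_le {m : ℕ} (l l' : Fin m → ℤ) :
    ∑ j, ((l - l') j).natAbs ≤ ∑ j, (l j).natAbs + ∑ j, (l' j).natAbs := by
  rw [← sum_add_distrib]
  refine sum_le_sum fun j _ => ?_
  rw [Pi.sub_apply]; omega

/-- injectivity on the sphere kills all short even vectors -/
lemma eq_zero_of_injOn {n m h : ℕ} (hm : 2 ≤ m) (a : Fin m → ZMod n)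
    (H : Set.InjOn (lin a) (sphere m h)) (w : Fin m → ℤ) (r : ℕ) (hr : r ≤ h)
    (hw : ∑ j, (w j).natAbs = 2 * r) (h0 : lin a w = 0) : w = 0 := by
  obtain ⟨l, h1, h2⟩ := exists_diff hm h r hr w hw
  have := H (mem_coe.2 h1) (mem_coe.2 h2) (by rw [lin_sub, h0, sub_zero])
  simpa using this.symm

lemma packing_bound {n m h : ℕ} [NeZero n] (hm : 2 ≤ m) (a : Fin m → ZMod n)
    (H : Set.InjOn (lin a) (sphere m h)) :
    ∑ j ∈ (Icc 1 h).filter (fun j => j % 2 = h % 2), c j m < n := by
  classical
  set J := (Icc 1 h).filter (fun j => j % 2 = h % 2) with hJ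
  have hT : (J.biUnion (sphere m)).card = ∑ j ∈ J, c j m := by
    rw [card_biUnion]
    · refine sum_congr rfl fun j hj => card_sphere m j ?_
      rw [hJ, mem_filter, mem_Icc] at hj; exact hj.1.1
    · intro j _ j' _ hne
      rw [Function.onFun, disjoint_left]
      intro l h1 h2
      rw [mem_sphere] at h1 h2
      exact hne (h1.symm.trans h2)
  have key : ∀ l ∈ J.biUnion (sphere m), ∀ l' ∈ J.biUnion (sphere m), lin a l = lin a l' → l = l' := by
    intro l hl l' hl' he
    rw [mem_biUnion] at hl hl'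
    obtain ⟨j, hj, hl⟩ := hl
    obtain ⟨j', hj', hl'⟩ := hl'
    rw [hJ, mem_filter, mem_Icc] at hj hj'
    rw [mem_sphere] at hl hl'
    have p1 := natAbs_sum_parity l l'
    have p2 := natAbs_sum_le l l'
    have := eq_zero_of_injOn hm a H (l - l') ((∑ j, ((l - l') j).natAbs) / 2) (by omega) (by omega)
      (by rw [lin_sub, he, sub_self])
    exact sub_eq_zero.1 this
  have hmap : ∀ l ∈ J.biUnion (sphere m), lin a l ∈ (univ : Finset (ZMod n)).erase 0 := by
    intro l hl
    rw [mem_erase]
    refine ⟨fun h0 => ?_, mem_univ _⟩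
    have hl' : -l ∈ J.biUnion (sphere m) := by
      rw [mem_biUnion] at hl ⊢
      obtain ⟨j, hj, hl⟩ := hl
      exact ⟨j, hj, by simpa [mem_sphere] using hl⟩
    have e := key l hl (-l) hl' (by rw [lin_neg, h0, neg_zero])
    have l0 : l = 0 := by
      funext i
      have := congrFun e i
      simp only [Pi.neg_apply, Pi.zero_apply] at this ⊢
      omega
    rw [mem_biUnion] at hl
    obtain ⟨j, hj, hl⟩ := hl
    rw [hJ, mem_filter, mem_Icc] at hj
    rw [mem_sphere, l0] at hl
    simp at hl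
    omega
  have := card_le_card_of_injOn (lin a) hmap key
  rw [hT, card_erase_of_mem (mem_univ _), card_univ, ZMod.card] at this
  have := NeZero.pos n
  omega

lemma image_card_lt {n m h : ℕ} (hh : 1 ≤ h) (a : Fin m → ZMod n)
    (H : ¬ Set.InjOn (lin a) (sphere m h)) : ((sphere m h).image (lin a)).card < c h m := by
  rw [← card_sphere m h hh]
  exact lt_of_le_of_ne card_image_le (fun e => H (card_image_iff.1 e))

lemma two_mul_le_c {m h : ℕ} (hm : 1 ≤ m) (hh : 1 ≤ h) : 2 * m ≤ c h m := by
  unfold c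
  have := single_le_sum (f := fun i => 2 ^ i * m.choose i * (h - 1).choose (i - 1))
    (s := Icc 1 (min m h)) (fun _ _ => Nat.zero_le _) (a := 1) (by simp; omega)
  simpa using this

theorem interval (n m h : ℕ) (hm : 2 ≤ m) (hh : 2 ≤ h) (h1 : c h m ≤ n)
    (h2 : n ≤ ∑ j ∈ (Icc 1 h).filter (fun j => j % 2 = h % 2), c j m) :
    m ≤ n ∧ nu n m h < min n (c h m) := by
  have h3 := two_mul_le_c (m := m) (h := h) (by omega) (by omega)
  have : NeZero n := ⟨by omega⟩
  refine ⟨by omega, ?_⟩
  rw [min_eq_right h1, nu_lt_iff (by omega)]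
  intro a _
  refine image_card_lt (by omega) a fun H => ?_
  have := packing_bound hm a H
  omega

end Pool.Agent.P.MP_c862d8_co
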