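import Mathlib

/-! Cyclic quotients of `ℤ^(k+2)` of any prescribed order `n` whose kernel is close to a multiple
of a given diagonal lattice. -/

namespace Pool.Agent.P.MP_c862d8_co

open Finset

/-- mixed radix weights -/
def radix (d : ℕ → ℕ) (τ i : ℕ) : ℕ := ∏ j ∈ range i, (d j * τ)

lemma radix_succ (d : ℕ → ℕ) (τ i : ℕ) : radix d τ (i + 1) = radix d τ i * (d i * τ) :=
  prod_range_succ _ _

lemma radix_pos {d : ℕ → ℕ} (hd : ∀ i, 0 < d i) {τ : ℕ} (hτ : 0 < τ) (i : ℕ) : 0 < radix d τ i :=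
  prod_pos fun j _ => Nat.mul_pos (hd j) hτ

/-- greedy expansion with half steps -/
lemma digits {d : ℕ → ℕ} (hd : ∀ i, 0 < d i) {τ x e S : ℕ} (hτ : 0 < τ) (hx : 0 < x) (he : 0 < e)
    (h1 : τ ≤ x * x) (h2 : x ≤ S) (i : ℕ) (h3 : ∀ j < i, e * d j * x ≤ S) (R : ℕ)
    (hR : R ≤ S * radix d τ i) :
    ∃ u c : ℕ → ℕ, (∀ j, u j ≤ S) ∧ (∀ j, c j ≤ S) ∧
      R = ∑ j ∈ range (i + 1), u j * radix d τ j +
        ∑ j ∈ range i, c j * (e * d j * x * radix d τ j) := by
  induction i generalizing R with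
  | zero =>
    refine ⟨fun _ => R, fun _ => 0, fun _ => by simpa [radix] using hR, fun _ => Nat.zero_le _, ?_⟩
    simp [radix]
  | succ i ih =>
    have p1 := radix_pos hd hτ (i + 1)
    have p2 := radix_pos hd hτ i
    have p3 : 0 < e * d i * x * radix d τ i := by have := hd i; positivity
    obtain ⟨u, c, g1, g2, g3⟩ := ih (fun j hj => h3 j (by omega))
      (R % radix d τ (i + 1) % (e * d i * x * radix d τ i))
      ((Nat.mod_lt _ p3).le.trans (Nat.mul_le_mul_right _ (h3 i (by omega))))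
    refine ⟨fun j => if j = i + 1 then R / radix d τ (i + 1) else u j,
      fun j => if j = i then R % radix d τ (i + 1) / (e * d i * x * radix d τ i) else c j,
      fun j => ?_, fun j => ?_, ?_⟩
    · beta_reduce
      split_ifs
      · exact Nat.div_le_of_le_mul (by rw [mul_comm]; exact hR)
      · exact g1 j
    · beta_reduce
      split_ifs
      · refine Nat.div_le_of_le_mul ((Nat.mod_lt _ p1).le.trans ?_)
        rw [radix_succ]
        calc radix d τ i * (d i * τ) ≤ radix d τ i * (d i * (x * x)) := by gcongr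
          _ = 1 * d i * x * radix d τ i * x := by ring
          _ ≤ e * d i * x * radix d τ i * S := by gcongr; omega
      · exact g2 j
    · beta_reduce
      have b1 : ∑ j ∈ range (i + 1), (if j = i + 1 then R / radix d τ (i + 1) else u j) *
          radix d τ j = ∑ j ∈ range (i + 1), u j * radix d τ j :=
        sum_congr rfl fun j hj => by rw [if_neg (by have := mem_range.1 hj; omega)]
      have b2 : ∑ j ∈ range i, (if j = i then R % radix d τ (i + 1) / (e * d i * x * radix d τ i)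
          else c j) * (e * d j * x * radix d τ j) =
          ∑ j ∈ range i, c j * (e * d j * x * radix d τ j) :=
        sum_congr rfl fun j hj => by rw [if_neg (by have := mem_range.1 hj; omega)]
      rw [sum_range_succ, b1, sum_range_succ (n := i) (f := fun j => (if j = i then _ else c j) * _),
        b2, if_pos rfl, if_pos rfl]
      have a1 := Nat.div_add_mod R (radix d τ (i + 1))
      have a2 := Nat.div_add_mod (R % radix d τ (i + 1)) (e * d i * x * radix d τ i)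
      rw [mul_comm] at a1 a2
      omega

lemma chain (d : ℕ → ℕ) (τ k : ℕ) (w : ℕ → ℤ)
    (h : ∑ i ∈ range (k + 1), (radix d τ i : ℤ) * w i = 0) :
    ∃ y : ℕ → ℤ, y 0 = 0 ∧ (∀ i < k, w i = d i * τ * y (i + 1) - y i) ∧ w k = - y k := by
  induction k generalizing w with
  | zero => exact ⟨fun _ => 0, rfl, by simp, by simpa [radix] using h⟩
  | succ k ih =>
    obtain ⟨y, y0, y1, y2⟩ := ih (fun i => if i = k then w k + d k * τ * w (k + 1) else w i) (by
      rw [sum_range_succ, sum_range_succ, radix_succ] at h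
      rw [sum_range_succ, if_pos rfl,
        sum_congr rfl fun j hj => by rw [if_neg (by have := mem_range.1 hj; omega)]]
      push_cast at h
      linear_combination h)
    refine ⟨fun i => if i = k + 1 then - w (k + 1) else y i, by simpa using y0, fun i hi => ?_,
      by simp⟩
    rcases (Nat.lt_succ_iff.1 hi).eq_or_lt with rfl | hi'
    · simp only [if_true] at y2
      simp only [if_true, if_neg (show i ≠ i + 1 by omega)]
      linear_combination y2
    · have := y1 i hi'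
      simp only [if_neg hi'.ne] at this
      simp only [if_neg (show i + 1 ≠ k + 1 by omega), if_neg (show i ≠ k + 1 by omega)]
      exact this

/-- the top level: `n` lies just above `F x` for some `x` of order `√τ` -/
lemma top_level (k Δ e β n : ℕ) (hΔ : 0 < Δ) (he : e ≤ Δ) (hβ : β ≤ 1) (hn : 0 < n) :
    ∃ τ s x : ℕ, 0 < τ ∧ s * s ≤ τ ∧ τ ≤ x * x ∧ 0 < x ∧ x ≤ (2 * k + 6) * (s + 1) ∧
      n ≤ Δ * τ ^ (k + 2) ∧
      (Δ : ℤ) * τ ^ k * (τ ^ 2 - x ^ 2) + e * β * (τ + x) ≤ n ∧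
      (n : ℤ) ≤ Δ * τ ^ k * (τ ^ 2 - x ^ 2) + e * β * (τ + x) + 2 * x * (Δ * τ ^ k) := by
  have ex : ∃ t : ℕ, n ≤ Δ * t ^ (k + 2) :=
    ⟨n, (Nat.le_self_pow (by omega) n).trans (Nat.le_mul_of_pos_left _ hΔ)⟩
  have f1 := Nat.find_spec ex
  obtain ⟨ρ, hρ⟩ : ∃ ρ, Nat.find ex = ρ + 1 := Nat.exists_eq_succ_of_ne_zero fun h0 => by
    rw [h0] at f1; simp at f1; omega
  have f2 : Δ * ρ ^ (k + 2) < n := not_le.1 (Nat.find_min ex (by omega))
  rw [hρ] at f1
  obtain ⟨τ, hτ⟩ : ∃ τ, τ = ρ + 2 := ⟨_, rfl⟩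
  obtain ⟨s, s1, s2⟩ : ∃ s, s * s ≤ τ ∧ τ < (s + 1) * (s + 1) :=
    ⟨τ.sqrt, Nat.sqrt_le τ, Nat.lt_succ_sqrt τ⟩
  let F : ℕ → ℤ := fun x => (Δ : ℤ) * τ ^ k * (τ ^ 2 - x ^ 2) + e * β * (τ + x)
  have P0 : (0 : ℤ) < Δ * τ ^ k := by have : 0 < τ := by omega
                                      positivity
  have F0 : (n : ℤ) < F s := by
    have a1 : (n : ℤ) ≤ Δ * (ρ + 1) ^ (k + 2) := by exact_mod_cast f1
    have a2 : ((ρ : ℤ) + 1) ^ k ≤ τ ^ k := by
      rw [hτ]; push_cast; gcongr; omega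
    have a3 : ((ρ : ℤ) + 1) ^ 2 < τ ^ 2 - s ^ 2 := by
      have : (s : ℤ) * s ≤ τ := by exact_mod_cast s1
      rw [hτ] at this ⊢; push_cast at this ⊢; nlinarith
    have a4 : (Δ : ℤ) * (ρ + 1) ^ (k + 2) ≤ Δ * τ ^ k * (ρ + 1) ^ 2 := by
      rw [pow_add, ← mul_assoc]; gcongr
    have a5 := mul_lt_mul_of_pos_left a3 P0
    have a6 : (0 : ℤ) ≤ e * β * (τ + s) := by positivity
    simp only [F]
    linarith
  have F1 : F ((2 * k + 6) * (s + 1)) ≤ n := by
    obtain ⟨x, hx⟩ : ∃ x : ℕ, x = (2 * k + 6) * (s + 1) := ⟨_, rfl⟩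
    rw [← hx]
    have a1 : (Δ : ℤ) * ρ ^ (k + 2) ≤ n := by exact_mod_cast f2.le
    have a2 : (τ : ℤ) ^ (k + 2) - (k + 2) * τ ^ (k + 1) * 2 ≤ ρ ^ (k + 2) := by
      have := pow_add_mul_le_add_pow (a := (τ : ℤ)) (b := -2) (by positivity) (by omega) (k + 2)
      rw [show (τ : ℤ) + -2 = ρ by omega, show k + 2 - 1 = k + 1 from rfl] at this
      push_cast at this
      linarith
    have a3 : (e : ℤ) * β * (τ + x) ≤ Δ * τ ^ k * (τ + x) := by
      have b1 : (e : ℤ) * β ≤ Δ * 1 := by gcongr; exact_mod_cast ‹_›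
      have b2 : (1 : ℤ) ≤ τ ^ k := one_le_pow₀ (by omega)
      have b3 : (Δ : ℤ) * 1 ≤ Δ * τ ^ k := by gcongr
      gcongr
      linarith
    have a4 : (2 * k + 5) * (τ : ℤ) + x ≤ x ^ 2 := by
      have b1 : (τ : ℤ) ≤ (s + 1) * (s + 1) := by exact_mod_cast s2.le
      have b2 : (x : ℤ) = (2 * k + 6) * (s + 1) := by exact_mod_cast hx
      have b3 : (s : ℤ) + 1 ≤ x - 1 := by nlinarith
      have b4 : (x : ℤ) * (s + 1) ≤ x * (x - 1) := by gcongr
      nlinarith
    have a5 := mul_le_mul_of_nonneg_left a4 P0.le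
    have a6 := mul_le_mul_of_nonneg_left a2 (show (0 : ℤ) ≤ Δ by positivity)
    simp only [F]
    rw [pow_succ, pow_succ] at a6
    nlinarith
  have ex2 : ∃ y : ℕ, F (s + y) ≤ n := ⟨(2 * k + 6) * (s + 1) - s, by
    rw [Nat.add_sub_cancel' (by nlinarith)]; exact F1⟩
  have g1 := Nat.find_spec ex2
  have g2 : Nat.find ex2 ≤ (2 * k + 6) * (s + 1) - s := Nat.find_le (by
    rw [Nat.add_sub_cancel' (by nlinarith)]; exact F1)
  obtain ⟨y, hy⟩ : ∃ y, Nat.find ex2 = y + 1 := Nat.exists_eq_succ_of_ne_zero fun h0 => by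
    rw [h0] at g1; exact absurd g1 (not_le.2 F0)
  have g3 : (n : ℤ) < F (s + y) := not_le.1 (Nat.find_min ex2 (by omega))
  rw [hy] at g1 g2
  refine ⟨τ, s, s + (y + 1), by omega, s1, by nlinarith, by omega, ?_, ?_, g1, ?_⟩
  · have : s ≤ (2 * k + 6) * (s + 1) := by nlinarith
    omega
  · refine f1.trans ?_
    gcongr; omega
  · simp only [F] at g3
    have a6 : (0 : ℤ) ≤ e * β := by positivity
    push_cast at g3 ⊢
    nlinarith

lemma abs_le_sum {z : ℕ → ℤ} {N j : ℕ} (hj : j < N) : |z j| ≤ ∑ i ∈ range N, |z i| :=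
  single_le_sum (f := fun i => |z i|) (fun _ _ => abs_nonneg _) (mem_range.2 hj)

lemma three_terms {a b c p q r S Z : ℤ} (ha : |a| ≤ S) (hb : |b| ≤ S) (hc : |c| ≤ S)
    (hp : |p| ≤ Z) (hq : |q| ≤ Z) (hr : |r| ≤ Z) : |a * p + b * q + c * r| ≤ 3 * S * Z := by
  have h0 : 0 ≤ S := (abs_nonneg _).trans ha
  have e : ∀ {u v : ℤ}, |u| ≤ S → |v| ≤ Z → |u * v| ≤ S * Z := fun hu hv => by
    rw [abs_mul]; exact mul_le_mul hu hv (abs_nonneg _) h0
  have h1 := abs_add_three (a * p) (b * q) (c * r)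
  have := e ha hp
  have := e hb hq
  have := e hc hr
  linarith

theorem core (k : ℕ) (d : ℕ → ℕ) (hd : ∀ i, 0 < d i) (hev : ∀ i, Even (d i)) (β : ℕ)
    (hβ : β ≤ 1) : ∃ C : ℕ, ∀ n : ℕ, 0 < n → ∃ (τ s : ℕ) (a : ℕ → ℤ), s * s ≤ τ ∧
      n ≤ (∏ i ∈ range (k + 2), d i) * τ ^ (k + 2) ∧ a 0 = 1 ∧ (∀ i, 0 < i → i ≤ k → Even (a i)) ∧
      Even (a (k + 1) - β) ∧ ∀ w : ℕ → ℤ, (n : ℤ) ∣ ∑ i ∈ range (k + 2), a i * w i →
        ∃ z : ℕ → ℤ, ∀ i < k + 2,
          |w i - τ * (d i * z i)| ≤ C * (s + 1) * ∑ j ∈ range (k + 2), |z j| := by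
  obtain ⟨Δ, hΔ⟩ : ∃ Δ, Δ = ∏ i ∈ range (k + 2), d i := ⟨_, rfl⟩
  have Δ0 : 0 < Δ := by rw [hΔ]; exact prod_pos fun i _ => hd i
  have dΔ : ∀ i < k + 2, d i ≤ Δ := fun i hi => by
    rw [hΔ]; exact single_le_prod' (fun j _ => hd j) (mem_range.2 hi)
  refine ⟨3 * (3 * Δ * (2 * Δ * Δ * (2 * k + 6))), fun n hn => ?_⟩
  obtain ⟨τ, s, x, t0, t1, t2, t3, t4, t5, t6, t7⟩ :=
    top_level k Δ (d (k + 1)) β n Δ0 (dΔ _ (by omega)) hβ hn
  have hA : (Δ : ℤ) * τ ^ k = d (k + 1) * d k * radix d τ k := by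
    rw [hΔ, radix, prod_range_succ, prod_range_succ, prod_mul_distrib, prod_const, card_range]
    push_cast; ring
  obtain ⟨S, hS⟩ : ∃ S, S = 2 * Δ * Δ * x := ⟨_, rfl⟩
  have S1 : ∀ i < k + 2, ∀ j < k + 2, 2 * (d i * d j * x) ≤ S := fun i hi j hj => by
    have := dΔ i hi
    have := dΔ j hj
    rw [hS, show 2 * Δ * Δ * x = 2 * (Δ * Δ * x) by ring]
    gcongr
  have S2 : ∀ i < k + 2, d i * x ≤ S := fun i hi => by
    have := S1 i hi i hi
    have := Nat.mul_le_mul_left (d i * x) (hd i)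
    nlinarith
  have S3 : x ≤ S := (Nat.le_mul_of_pos_left _ (hd 0)).trans (S2 0 (by omega))
  obtain ⟨R, hR⟩ := Int.eq_ofNat_of_zero_le (sub_nonneg.2 t6)
  obtain ⟨u, c, u1, c1, e1⟩ := digits hd t0 t3 (hd (k + 1)) t2 S3 k
    (fun j hj => by have := S1 (k + 1) (by omega) j (by omega); omega) R (by
      have b1 : (R : ℤ) ≤ 2 * x * (d (k + 1) * d k * radix d τ k) := by rw [← hA]; linarith
      have b2 : R ≤ 2 * (d (k + 1) * d k * x) * radix d τ k := by
        have : R ≤ 2 * x * (d (k + 1) * d k * radix d τ k) := by exact_mod_cast b1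
        linarith
      exact b2.trans (Nat.mul_le_mul_right _ (S1 _ (by omega) _ (by omega))))
  let Y : ℤ := d k * (τ - x) * radix d τ k + ∑ j ∈ range k, (d j : ℤ) * c j * radix d τ j + β
  let U : ℕ → ℤ := fun j => u j - if j = 0 then (0 : ℤ) else (d (k + 1) : ℤ) * c (j - 1)
  let V : ℕ → ℤ := fun j => (if j = k then (d k : ℤ) * (τ - x) else (d j : ℤ) * c j) +
    if j = 0 then (β : ℤ) else 0
  have r0 : (radix d τ 0 : ℤ) = 1 := by simp [radix]
  have hU : ∑ j ∈ range (k + 1), (radix d τ j : ℤ) * U j + Y * (d (k + 1) * (τ + x)) = n := by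
    have b1 : ∑ j ∈ range (k + 1), (radix d τ j : ℤ) * U j =
        ∑ j ∈ range (k + 1), (u j : ℤ) * radix d τ j -
          ∑ j ∈ range k, (d (k + 1) * τ) * (d j * c j * radix d τ j : ℤ) := by
      simp only [U, mul_sub, sum_sub_distrib]
      congr 1
      · exact sum_congr rfl fun j _ => mul_comm _ _
      · rw [sum_range_succ', if_pos rfl, mul_zero, add_zero]
        refine sum_congr rfl fun j _ => ?_
        rw [if_neg (by omega), radix_succ, Nat.add_sub_cancel]
        push_cast; ring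
    have b2 : (R : ℤ) = ∑ j ∈ range (k + 1), (u j : ℤ) * radix d τ j +
        ∑ j ∈ range k, (d (k + 1) * x) * (d j * c j * radix d τ j : ℤ) := by
      rw [e1]; push_cast
      congr 1
      exact sum_congr rfl fun j _ => by ring
    rw [← mul_sum] at b1 b2
    rw [b1]
    simp only [Y]
    rw [hA] at hR
    linear_combination -b2 - hR
  have hV : ∑ j ∈ range (k + 1), (radix d τ j : ℤ) * V j = Y := by
    simp only [V, mul_add, sum_add_distrib, Y]
    congr 1
    · rw [sum_range_succ, if_pos rfl, add_comm]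
      congr 1
      · ring
      · exact sum_congr rfl fun j hj => by rw [if_neg (mem_range.1 hj).ne]; ring
    · rw [sum_range_succ', if_pos rfl, r0, one_mul, sum_eq_zero fun j _ => by simp, zero_add]
  refine ⟨τ, s, fun i => if i ≤ k then radix d τ i else Y, t1, by rw [← hΔ]; exact t5,
    by simp [r0], fun i i0 ik => ?_, ?_, fun w hw => ?_⟩
  · obtain ⟨j, rfl⟩ : ∃ j, i = j + 1 := ⟨i - 1, by omega⟩
    simp only [if_pos ik, radix_succ]
    push_cast
    exact (((Int.even_coe_nat _).2 (hev j)).mul_right _).mul_left _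
  · simp only [if_neg (show ¬ k + 1 ≤ k by omega), Y, add_sub_cancel_right]
    refine ((((Int.even_coe_nat _).2 (hev k)).mul_right _).mul_right _).add
      (Finset.even_sum _ fun j _ => ?_)
    exact (((Int.even_coe_nat _).2 (hev j)).mul_right _).mul_right _
  obtain ⟨q, hq⟩ := hw
  beta_reduce at hq
  rw [sum_range_succ, if_neg (show ¬ k + 1 ≤ k by omega),
    sum_congr rfl fun j hj => by rw [if_pos (Nat.lt_succ_iff.1 (mem_range.1 hj))]] at hq
  obtain ⟨p, hp⟩ : ∃ p, p = q * (d (k + 1) * (τ + x)) - w (k + 1) := ⟨_, rfl⟩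
  obtain ⟨y, y0, y1, y2⟩ := chain d τ k (fun i => w i - q * U i - p * V i) (by
    simp only [mul_sub, sum_sub_distrib, mul_left_comm _ q, mul_left_comm _ p, ← mul_sum]
    rw [hV, hp]
    linear_combination hq - q * hU)
  let z : ℕ → ℤ := fun j => if j < k then y (j + 1) else if j = k then p else q
  have z1 : |p| ≤ ∑ j ∈ range (k + 2), |z j| := by
    simpa [z] using abs_le_sum (z := z) (show k < k + 2 by omega)
  have z2 : |q| ≤ ∑ j ∈ range (k + 2), |z j| := by
    simpa [z] using abs_le_sum (z := z) (show k + 1 < k + 2 by omega)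
  have z3 : ∀ i ≤ k, |y i| ≤ ∑ j ∈ range (k + 2), |z j| := fun i hi => by
    cases i with
    | zero => rw [y0, abs_zero]; positivity
    | succ i =>
      simpa [z, show i < k by omega] using abs_le_sum (z := z) (show i < k + 2 by omega)
  have S0 : (1 : ℤ) ≤ S := by omega
  have D0 : (1 : ℤ) ≤ Δ := by omega
  have dc : ∀ i < k + 2, ∀ j, (0 : ℤ) ≤ d i * c j ∧ (d i : ℤ) * c j ≤ Δ * S := fun i hi j =>
    ⟨by positivity, by exact_mod_cast Nat.mul_le_mul (dΔ i hi) (c1 j)⟩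
  have dx : ∀ i < k + 2, (0 : ℤ) ≤ d i * x ∧ (d i : ℤ) * x ≤ S := fun i hi =>
    ⟨by positivity, by exact_mod_cast S2 i hi⟩
  have ΔS : (S : ℤ) ≤ Δ * S := by nlinarith
  have hβ' : (β : ℤ) ≤ 1 := by omega
  have bU : ∀ j, |U j| ≤ 3 * Δ * S := fun j => by
    have a1 : (u j : ℤ) ≤ S := by exact_mod_cast u1 j
    have a2 := dc (k + 1) (by omega) (j - 1)
    have a3 : (0 : ℤ) ≤ u j := by positivity
    simp only [U]
    rw [abs_le]
    split_ifs <;> constructor <;> linarith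
  have b1 : |(-1 : ℤ)| ≤ 3 * Δ * S := by rw [abs_neg, abs_one]; linarith
  refine ⟨z, fun i hi => ?_⟩
  have fin : 3 * (3 * (Δ : ℤ) * S) * ∑ j ∈ range (k + 2), |z j| ≤
      ((3 * (3 * Δ * (2 * Δ * Δ * (2 * k + 6))) : ℕ) : ℤ) * (s + 1) *
        ∑ j ∈ range (k + 2), |z j| := by
    have : (x : ℤ) ≤ (2 * k + 6) * (s + 1) := by exact_mod_cast t4
    rw [hS]
    push_cast
    refine mul_le_mul_of_nonneg_right ?_ (by positivity)
    calc 3 * (3 * (Δ : ℤ) * (2 * Δ * Δ * x)) ≤ 3 * (3 * Δ * (2 * Δ * Δ * ((2 * k + 6) * (s + 1)))) := by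
          gcongr
      _ = _ := by ring
  refine le_trans ?_ fin
  rcases lt_trichotomy i k with h | h | h
  · have e : w i - τ * (d i * z i) = U i * q + V i * p + (-1) * y i := by
      have := y1 i h
      simp only [z, if_pos h]
      linear_combination this
    rw [e]
    refine three_terms (bU i) ?_ b1 z2 z1 (z3 i h.le)
    have := dc i hi i
    have : (0 : ℤ) ≤ β := by positivity
    simp only [V, if_neg h.ne]
    rw [abs_le]
    split_ifs <;> constructor <;> linarith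
  · subst h
    have e : w i - τ * (d i * z i) = U i * q + (V i - τ * d i) * p + (-1) * y i := by
      simp only [z, lt_irrefl, if_false, if_true]
      linear_combination y2
    rw [e]
    refine three_terms (bU i) ?_ b1 z2 z1 (z3 i le_rfl)
    have := dx i hi
    have : (0 : ℤ) ≤ β := by positivity
    simp only [V, if_true]
    rw [abs_le]
    split_ifs <;> constructor <;> linarith
  · obtain rfl : i = k + 1 := by omega
    have e : w (k + 1) - τ * (d (k + 1) * z (k + 1)) =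
        (d (k + 1) * x) * q + (-1) * p + (-1) * y 0 := by
      simp only [z, if_neg (show ¬ k + 1 < k by omega), if_neg (show k + 1 ≠ k by omega)]
      rw [hp, y0]; ring
    rw [e]
    refine three_terms ?_ b1 b1 z2 z1 (z3 0 (by omega))
    have := dx (k + 1) hi
    rw [abs_le]
    constructor <;> linarith

end Pool.Agent.P.MP_c862d8_co
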