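import Pool.Agent.P.MP_c862d8_co.LatCore

/-! From a diagonal lattice to an arbitrary integer lattice inside the even sublattice. -/

namespace Pool.Agent.P.MP_c862d8_co

open Finset Matrix Module

/-- `l1` norm -/
def nrm {m : ℕ} (w : Fin m → ℤ) : ℤ := ∑ i, |w i|

lemma nrm_nonneg {m : ℕ} (w : Fin m → ℤ) : 0 ≤ nrm w := sum_nonneg fun _ _ => abs_nonneg _

lemma le_nrm {m : ℕ} (w : Fin m → ℤ) (i : Fin m) : |w i| ≤ nrm w :=
  single_le_sum (f := fun i => |w i|) (fun _ _ => abs_nonneg _) (mem_univ i)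

lemma nrm_smul {m : ℕ} (c : ℕ) (w : Fin m → ℤ) : nrm ((c : ℤ) • w) = c * nrm w := by
  simp [nrm, abs_mul, mul_sum]

lemma nrm_sub_le {m : ℕ} (v w : Fin m → ℤ) : nrm (v - w) ≤ nrm v + nrm w := by
  unfold nrm
  rw [← sum_add_distrib]
  exact sum_le_sum fun i _ => abs_sub _ _

lemma lin_bound {m : ℕ} (f : (Fin m → ℤ) →ₗ[ℤ] (Fin m → ℤ)) :
    ∃ C : ℕ, ∀ x, nrm (f x) ≤ C * nrm x := by
  obtain ⟨C, hC⟩ := Int.eq_ofNat_of_zero_le
    (sum_nonneg fun j (_ : j ∈ univ) => nrm_nonneg (f (Pi.single j 1)))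
  refine ⟨C, fun x => ?_⟩
  have e : f x = ∑ j, x j • f (Pi.single j 1) := by
    conv_lhs => rw [pi_eq_sum_univ' x]
    simp only [map_sum, map_smul]
  rw [← hC, sum_mul, e]
  unfold nrm
  simp only [Finset.sum_apply, Pi.smul_apply, smul_eq_mul]
  refine (sum_le_sum fun i _ => abs_sum_le_sum_abs _ _).trans ?_
  rw [sum_comm]
  refine sum_le_sum fun j _ => ?_
  simp only [abs_mul, ← mul_sum]
  rw [mul_comm]
  exact mul_le_mul_of_nonneg_left (le_nrm x j) (by positivity)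

/-- twice the coordinates in a basis of the even sublattice -/
def Gp (k : ℕ) : Matrix (Fin (k + 1)) (Fin (k + 1)) ℤ :=
  Matrix.of fun i j => if i = 0 then 1 else if i = j then 2 else 0

/-- a basis of the even sublattice -/
def Gm (k : ℕ) : Matrix (Fin (k + 1)) (Fin (k + 1)) ℤ :=
  Matrix.of fun i j => if i = 0 then (if j = 0 then 2 else -1) else if i = j then 1 else 0

lemma Gp_zero {k : ℕ} (w : Fin (k + 1) → ℤ) : (Gp k *ᵥ w) 0 = ∑ j, w j := by
  simp [Gp, mulVec, dotProduct]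

lemma Gp_succ {k : ℕ} (w : Fin (k + 1) → ℤ) (i : Fin k) : (Gp k *ᵥ w) i.succ = 2 * w i.succ := by
  simp [Gp, mulVec, dotProduct]

lemma Gm_zero {k : ℕ} (w : Fin (k + 1) → ℤ) :
    (Gm k *ᵥ w) 0 = 2 * w 0 - ∑ j : Fin k, w j.succ := by
  simp [Gm, mulVec, dotProduct, Fin.sum_univ_succ, sub_eq_add_neg]

lemma Gm_succ {k : ℕ} (w : Fin (k + 1) → ℤ) (i : Fin k) : (Gm k *ᵥ w) i.succ = w i.succ := by
  simp [Gm, mulVec, dotProduct]

lemma Gp_Gm {k : ℕ} (w : Fin (k + 1) → ℤ) : Gp k *ᵥ (Gm k *ᵥ w) = (2 : ℤ) • w := by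
  funext i
  refine Fin.cases ?_ (fun i => ?_) i
  · rw [Gp_zero, Fin.sum_univ_succ, Gm_zero]
    simp only [Gm_succ]
    simp
  · rw [Gp_succ, Gm_succ]; rfl

lemma Gm_Gp {k : ℕ} (w : Fin (k + 1) → ℤ) : Gm k *ᵥ (Gp k *ᵥ w) = (2 : ℤ) • w := by
  funext i
  refine Fin.cases ?_ (fun i => ?_) i
  · rw [Gm_zero, Gp_zero, Fin.sum_univ_succ]
    simp only [Gp_succ, ← mul_sum, Pi.smul_apply, smul_eq_mul]
    ring
  · rw [Gm_succ, Gp_succ]; rfl

lemma det_Gp (k : ℕ) : (Gp k).det = 2 ^ k := by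
  rw [Matrix.det_of_isUpperTriangular]
  · simp [Gp, Fin.prod_univ_succ]
  · intro i j h
    have h' : j < i := h
    simp [Gp, h'.ne', (Fin.pos_iff_ne_zero.1 ((Fin.zero_le j).trans_lt h'))]

/-- Smith normal form with a parity condition on the coordinates of a given vector -/
lemma smith {k : ℕ} (B : Matrix (Fin (k + 2)) (Fin (k + 2)) ℤ) (hB : B.det ≠ 0)
    (g : Fin (k + 2) → ℤ) :
    ∃ (b : Basis (Fin (k + 2)) ℤ (Fin (k + 2) → ℤ)) (a : Fin (k + 2) → ℕ), (∀ i, 0 < a i) ∧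
      ∏ i, a i = B.det.natAbs ∧ (∀ i, ∃ z, (a i : ℤ) • b i = B *ᵥ z) ∧
      (Even (b.equivFun g 0) ∨ Odd (b.equivFun g (Fin.last _))) := by
  have hinj : Function.Injective B.mulVecLin := by
    rw [← LinearMap.ker_eq_bot, LinearMap.ker_eq_bot']
    exact fun v hv => eq_zero_of_mulVec_eq_zero hB hv
  obtain ⟨b, a, ab, h⟩ := Submodule.exists_smith_normal_form_of_rank_eq
    (Pi.basisFun ℤ (Fin (k + 2))) (LinearMap.finrank_range_of_inj hinj)
  have h1 := Submodule.natAbs_det_basis_change b _ ab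
  have h2 := Submodule.natAbs_det_equiv _ (LinearEquiv.ofInjective _ hinj)
  have h3 : ((↑) ∘ ab : Fin (k + 2) → Fin (k + 2) → ℤ) = fun i => a i • b i := funext h
  rw [h3, AlternatingMap.map_smul_univ, Basis.det_self, smul_eq_mul, mul_one, ← h2] at h1
  have h4 : ∏ i, (a i).natAbs = B.det.natAbs := by
    rw [← LinearMap.det_toLin' B]
    exact (map_prod Int.natAbsHom a univ).symm.trans h1
  have h5 : ∀ i, 0 < (a i).natAbs := fun i => Int.natAbs_pos.2 fun h0 =>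
    ab.ne_zero i (Subtype.ext (by rw [h i, h0, zero_smul]; rfl))
  have h6 : ∀ i, ∃ z, ((a i).natAbs : ℤ) • b i = B *ᵥ z := fun i => by
    obtain ⟨z, hz⟩ := (ab i).2
    rw [h i] at hz
    rcases Int.natAbs_eq (a i) with e | e
    · exact ⟨z, by rw [← e]; exact hz.symm⟩
    · refine ⟨-z, ?_⟩
      rw [mulVec_neg, show B *ᵥ z = a i • b i from hz, ← neg_smul]
      congr 1
      omega
  by_cases hc : Even (b.equivFun g 0) ∨ Odd (b.equivFun g (Fin.last _))
  · exact ⟨b, _, h5, h4, h6, hc⟩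
  · refine ⟨b.reindex (Equiv.swap 0 (Fin.last _)),
      fun i => (a ((Equiv.swap 0 (Fin.last _)).symm i)).natAbs, fun i => h5 _, ?_, fun i => ?_,
      Or.inl ?_⟩
    · rw [← h4]
      exact Equiv.prod_comp (Equiv.swap 0 (Fin.last _)).symm fun i => (a i).natAbs
    · rw [Basis.reindex_apply]
      exact h6 _
    · simpa using Int.not_odd_iff_even.1 (not_or.1 hc).2

theorem int_lattice {k : ℕ} (B : Matrix (Fin (k + 2)) (Fin (k + 2)) ℤ) (hB : B.det ≠ 0) :
    ∃ C : ℕ, ∀ n : ℕ, 0 < n → ∃ (τ s : ℕ) (a : Fin (k + 2) → ℤ), s * s ≤ τ ∧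
      n ≤ 2 ^ (k + 2) * (2 ^ (k + 1) * B.det.natAbs) * τ ^ (k + 2) ∧
      ∀ w : Fin (k + 2) → ℤ, w ≠ 0 → Even (∑ i, w i) → (n : ℤ) ∣ ∑ i, a i * w i →
        ∃ z, z ≠ 0 ∧ 4 * nrm (B *ᵥ z) * (τ - C * (s + 1)) ≤ nrm w := by
  obtain ⟨b, α, α0, α1, α2, α3⟩ := smith (Gp (k + 1) * B)
    (by rw [det_mul, det_Gp]; positivity) (Pi.single 0 1)
  let d : ℕ → ℕ := fun i => if h : i < k + 2 then 2 * α ⟨i, h⟩ else 2
  have hd : ∀ i : Fin (k + 2), d i = 2 * α i := fun i => dif_pos i.2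
  obtain ⟨β, hβ, hβ'⟩ : ∃ β : ℕ, β ≤ 1 ∧ Even (b.equivFun (Pi.single 0 1) 0 +
      β * b.equivFun (Pi.single 0 1) (Fin.last _)) := by
    by_cases h : Even (b.equivFun (Pi.single 0 1) 0)
    · exact ⟨0, by omega, by simpa using h⟩
    · exact ⟨1, le_rfl, by
        rw [Nat.cast_one, one_mul]
        exact (Int.not_even_iff_odd.1 h).add_odd (α3.resolve_left h)⟩
  obtain ⟨C, hC⟩ := core k d (fun i => by
      simp only [d]; split_ifs
      · have := α0 ⟨i, ‹_›⟩; omega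
      · omega)
    (fun i => by simp only [d]; split_ifs <;> simp) β hβ
  let Ψ : (Fin (k + 2) → ℤ) →ₗ[ℤ] (Fin (k + 2) → ℤ) :=
    (Gm (k + 1)).mulVecLin ∘ₗ b.equivFun.symm.toLinearMap
  let H : (Fin (k + 2) → ℤ) →ₗ[ℤ] (Fin (k + 2) → ℤ) :=
    b.equivFun.toLinearMap ∘ₗ (Gp (k + 1)).mulVecLin
  have HΨ : ∀ t, H (Ψ t) = (2 : ℤ) • t := fun t => by
    change b.equivFun (Gp _ *ᵥ (Gm _ *ᵥ b.equivFun.symm t)) = _
    rw [Gp_Gm, map_smul, LinearEquiv.apply_symm_apply]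
  obtain ⟨C1, h1⟩ := lin_bound Ψ
  obtain ⟨C2, h2⟩ := lin_bound H
  refine ⟨C1 * ((k + 2) * C) * C2, fun n hn => ?_⟩
  obtain ⟨τ, s, a, t1, t2, a0, a1, a2, a3⟩ := hC n hn
  have hev : ∀ j, Even (∑ i : Fin (k + 2), a i * H (Pi.single j 1) i) := fun j => by
    have e0 : Even (∑ i : Fin (k + 2), a i * b.equivFun (Pi.single 0 1) i) := by
      rw [Fin.sum_univ_succ, Fin.sum_univ_castSucc]
      have b1 : Even (∑ i : Fin k, a (i.castSucc.succ : Fin (k + 2)) *
          b.equivFun (Pi.single 0 1) i.castSucc.succ) :=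
        Finset.even_sum _ fun i _ => (a1 _ (by simp) (by simp)).mul_right _
      have b2 := a2.mul_right (b.equivFun (Pi.single 0 1) (Fin.last _))
      have b3 := (hβ'.add b1).add b2
      have e : a ((0 : Fin (k + 2)) : ℕ) = 1 := a0
      have e' : a (((Fin.last k).succ : Fin (k + 2)) : ℕ) = a (k + 1) := rfl
      rw [e, e', Fin.succ_last]
      obtain ⟨r, hr⟩ := b3
      exact ⟨r, by linear_combination hr⟩
    obtain ⟨v, hv⟩ : ∃ v, Gp (k + 1) *ᵥ Pi.single j 1 = Pi.single 0 1 + (2 : ℤ) • v := by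
      refine ⟨fun i => if i = 0 then 0 else (Pi.single j 1 : Fin (k + 2) → ℤ) i, funext fun i => ?_⟩
      refine Fin.cases ?_ (fun i => ?_) i
      · rw [Gp_zero]; simp
      · rw [Gp_succ]; simp
    have : H (Pi.single j 1) = b.equivFun (Pi.single 0 1) + (2 : ℤ) • b.equivFun v := by
      change b.equivFun (Gp _ *ᵥ _) = _
      rw [hv, map_add, map_smul]
    rw [this]
    simp only [Pi.add_apply, Pi.smul_apply, smul_eq_mul, mul_add, sum_add_distrib]
    exact e0.add (Finset.even_sum _ fun i _ => (even_two_mul _).mul_left _)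
  choose a' ha' using hev
  refine ⟨τ, s, a', t1, ?_, fun w w0 hw hdvd => ?_⟩
  · rw [← Fin.prod_univ_eq_prod_range] at t2
    simp only [hd, prod_mul_distrib, prod_const, card_univ, Fintype.card_fin, α1, det_mul, det_Gp,
      Int.natAbs_mul, Int.natAbs_pow] at t2
    exact t2
  obtain ⟨r, hr⟩ := hw
  obtain ⟨y, hy⟩ : ∃ y, Gp (k + 1) *ᵥ w = (2 : ℤ) • y := by
    refine ⟨Fin.cons r fun i => w i.succ, funext fun i => ?_⟩
    refine Fin.cases ?_ (fun i => ?_) i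
    · rw [Gp_zero, hr]; simp [two_mul]
    · rw [Gp_succ]; simp
  have hH : H w = (2 : ℤ) • b.equivFun y := by
    change b.equivFun (Gp _ *ᵥ _) = _
    rw [hy, map_smul]
  have hΨ : Ψ (b.equivFun y) = w := by
    change Gm _ *ᵥ b.equivFun.symm (b.equivFun y) = _
    have := Gm_Gp w
    rw [hy, mulVec_smul] at this
    rw [LinearEquiv.symm_apply_apply]
    exact smul_right_injective _ two_ne_zero this
  have hs : ∑ i : Fin (k + 2), a i * b.equivFun y i = ∑ j, a' j * w j := by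
    have e : H w = ∑ j, w j • H (Pi.single j 1) := by
      conv_lhs => rw [pi_eq_sum_univ' w]
      simp only [map_sum, map_smul]
    have e1 : ∑ i : Fin (k + 2), a i * H w i = 2 * ∑ j, a' j * w j := by
      rw [e]
      simp only [Finset.sum_apply, Pi.smul_apply, smul_eq_mul, mul_sum]
      rw [sum_comm]
      refine sum_congr rfl fun j _ => ?_
      simp only [mul_left_comm _ (w j), ← mul_sum, ha']
      ring
    rw [hH] at e1
    simp only [Pi.smul_apply, smul_eq_mul, mul_left_comm _ (2 : ℤ), ← mul_sum] at e1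
    omega
  obtain ⟨z, hz⟩ := a3 (fun i => if h : i < k + 2 then b.equivFun y ⟨i, h⟩ else 0) (by
    rw [← Fin.sum_univ_eq_sum_range (fun i => a i * if h : i < k + 2 then b.equivFun y ⟨i, h⟩ else 0)]
    simp only [Fin.is_lt, dif_pos, Fin.eta]
    rw [hs]; exact hdvd)
  let z' : Fin (k + 2) → ℤ := fun i => z i
  let P : Fin (k + 2) → ℤ := fun i => α i * z' i
  have hz' : ∀ i : Fin (k + 2), |((τ : ℤ) • ((2 : ℤ) • P) - b.equivFun y) i| ≤
      C * (s + 1) * nrm z' := fun i => by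
    have := hz i i.2
    rw [← Fin.sum_univ_eq_sum_range (fun j => |z j|), dif_pos i.2, hd, abs_sub_comm] at this
    simpa [P, z', nrm, mul_assoc] using this
  have hE : nrm ((τ : ℤ) • ((2 : ℤ) • P) - b.equivFun y) ≤ (k + 2) * (C * (s + 1) * nrm z') := by
    have := sum_le_card_nsmul univ _ _ fun i _ => hz' i
    simpa [nrm] using this
  obtain ⟨ζ, hζ⟩ : ∃ ζ, b.equivFun.symm P = (Gp (k + 1) * B) *ᵥ ζ := by
    choose f hf using α2
    refine ⟨∑ i, z' i • f i, ?_⟩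
    rw [Basis.equivFun_symm_apply, mulVec_sum]
    refine sum_congr rfl fun i _ => ?_
    rw [mulVec_smul, ← hf, smul_smul, mul_comm]
  have hP : Ψ P = (2 : ℤ) • (B *ᵥ ζ) := by
    change Gm _ *ᵥ b.equivFun.symm P = _
    rw [hζ, ← mulVec_mulVec, Gm_Gp]
  have hN : nrm z' ≤ C2 * nrm (B *ᵥ ζ) := by
    have b1 := h2 (Ψ P)
    rw [HΨ, hP] at b1
    have b2 := nrm_smul 2 P
    have b3 := nrm_smul 2 (B *ᵥ ζ)
    have b4 : nrm z' ≤ nrm P := sum_le_sum fun i _ => by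
      have : (1 : ℤ) ≤ α i := by exact_mod_cast α0 i
      simp only [P, abs_mul, Nat.abs_cast]
      nlinarith [abs_nonneg (z' i)]
    push_cast at b2 b3
    rw [b2, b3] at b1
    linarith
  have key : 4 * τ * nrm (B *ᵥ ζ) ≤ nrm w + C1 * ((k + 2) * (C * (s + 1) * nrm z')) := by
    have b1 : ((4 * τ : ℕ) : ℤ) • (B *ᵥ ζ) =
        w - -Ψ ((τ : ℤ) • ((2 : ℤ) • P) - b.equivFun y) := by
      rw [map_sub, map_smul, map_smul, hP, hΨ]
      push_cast
      module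
    have b2 := nrm_smul (4 * τ) (B *ᵥ ζ)
    have b3 := nrm_sub_le w (-Ψ ((τ : ℤ) • ((2 : ℤ) • P) - b.equivFun y))
    have b4 := h1 ((τ : ℤ) • ((2 : ℤ) • P) - b.equivFun y)
    have b5 : ∀ v : Fin (k + 2) → ℤ, nrm (-v) = nrm v := fun v => by simp [nrm]
    rw [← b1, b2, b5] at b3
    have b6 := mul_le_mul_of_nonneg_left hE (show (0 : ℤ) ≤ C1 by positivity)
    push_cast at b3
    linarith
  refine ⟨ζ, fun h0 => w0 ?_, ?_⟩
  · have b1 : nrm z' = 0 := le_antisymm (by simpa [h0, nrm] using hN) (nrm_nonneg _)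
    have b2 : (τ : ℤ) • ((2 : ℤ) • P) - b.equivFun y = 0 := funext fun i => by
      have := hz' i
      rw [b1, mul_zero] at this
      exact abs_nonpos_iff.1 this
    rw [← hΨ, ← sub_eq_zero.1 b2, map_smul, map_smul, hP, h0]
    simp
  · have b1 := mul_le_mul_of_nonneg_left hN
      (show (0 : ℤ) ≤ C1 * ((k + 2) * (C * (s + 1))) by positivity)
    have b2 : (0 : ℤ) ≤ C1 * ((k + 2) * (C * (s + 1))) * (C2 * nrm (B *ᵥ ζ)) := by
      have := nrm_nonneg (B *ᵥ ζ)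
      positivity
    push_cast
    linarith

end Pool.Agent.P.MP_c862d8_co
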