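import Pool.Agent.P.MP_c862d8_co.LatInt
import Pool.Agent.P.MP_c862d8_co.LatDefs
import Pool.Agent.P.MP_c862d8_co.General

/-! The threshold `2^(m-1) * critDet m * h^m`. -/

namespace Pool.Agent.P.MP_c862d8_co

open Finset Matrix Module Filter Topology

lemma crit_bdd (m : ℕ) :
    BddBelow {t : ℝ | ∃ B : Matrix (Fin m) (Fin m) ℝ, Admissible B ∧ t = |B.det|} :=
  ⟨0, by rintro t ⟨B, -, rfl⟩; exact abs_nonneg _⟩

lemma critDet_le {m : ℕ} {B : Matrix (Fin m) (Fin m) ℝ} (h : Admissible B) :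
    critDet m ≤ |B.det| := csInf_le (crit_bdd m) ⟨B, h, rfl⟩

lemma critDet_nonneg (m : ℕ) : 0 ≤ critDet m :=
  Real.sInf_nonneg (by rintro t ⟨B, -, rfl⟩; exact abs_nonneg _)

lemma nrm_natAbs {m : ℕ} (w : Fin m → ℤ) : nrm w = (∑ i, (w i).natAbs : ℕ) := by
  simp [nrm]

lemma one_le_nrm {m : ℕ} {w : Fin m → ℤ} (h : w ≠ 0) : 1 ≤ nrm w := by
  obtain ⟨i, hi⟩ := Function.ne_iff.1 h
  exact (Int.one_le_abs hi).trans (le_nrm w i)

lemma nrm_cast {m : ℕ} (B : Matrix (Fin m) (Fin m) ℤ) (z : Fin m → ℤ) :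
    (nrm (B *ᵥ z) : ℝ) = ∑ i, |∑ j, (B i j : ℝ) * z j| := by
  simp [nrm, mulVec, dotProduct]

lemma exists_admissible {m : ℕ} {t : ℝ} (ht : critDet m < t) :
    ∃ B : Matrix (Fin m) (Fin m) ℝ, Admissible B ∧ |B.det| < t := by
  obtain ⟨_, ⟨B, hB, rfl⟩, h⟩ := exists_lt_of_csInf_lt (s := {t : ℝ |
      ∃ B : Matrix (Fin m) (Fin m) ℝ, Admissible B ∧ t = |B.det|}) ⟨_, 1, ⟨by simp, fun z hz => by
    have : (1 : ℝ) ≤ (nrm z : ℝ) := by exact_mod_cast one_le_nrm hz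
    simpa [nrm, one_apply] using this⟩, rfl⟩ ht
  exact ⟨B, hB, h⟩

lemma even_nrm_sub {m : ℕ} (w : Fin m → ℤ) : Even (nrm w - ∑ i, w i) := by
  rw [nrm, ← sum_sub_distrib]
  refine Finset.even_sum _ fun i _ => ?_
  rcases abs_choice (w i) with h | h <;> rw [h]
  · simp
  · exact ⟨-w i, by ring⟩

/-- lower bound: a set whose signed sums are distinct gives an admissible lattice -/
theorem crit_le {n m h : ℕ} [NeZero n] (hm : 2 ≤ m) (a : Fin m → ZMod n)
    (H : Set.InjOn (lin a) (sphere m h)) : 2 ^ (m - 1) * critDet m * (h + 1) ^ m ≤ n := by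
  let f : (Fin m → ℤ) →ₗ[ℤ] ZMod n × ZMod 2 :=
    (Fintype.linearCombination ℤ a).prod (Fintype.linearCombination ℤ fun _ => (1 : ZMod 2))
  have hc := Nat.card_congr f.quotKerEquivRange.toEquiv
  have hfin : Finite ((Fin m → ℤ) ⧸ LinearMap.ker f) :=
    Finite.of_equiv _ f.quotKerEquivRange.toEquiv.symm
  have h1 : Nat.card ((Fin m → ℤ) ⧸ LinearMap.ker f) ≤ n * 2 := by
    rw [hc]
    refine (Nat.card_le_card_of_injective _ Subtype.val_injective).trans ?_
    simp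
  have h2 : 0 < Nat.card ((Fin m → ℤ) ⧸ LinearMap.ker f) := Nat.card_pos
  have hr : finrank ℤ (LinearMap.ker f) = m := by
    rw [(Submodule.finiteQuotient_iff _).1 hfin, finrank_fin_fun]
  let b := finBasisOfFinrankEq ℤ (LinearMap.ker f) hr
  let M : Matrix (Fin m) (Fin m) ℤ := Matrix.of fun i j => (b j : Fin m → ℤ) i
  have h3 : M.det.natAbs = Nat.card ((Fin m → ℤ) ⧸ LinearMap.ker f) := by
    rw [← Submodule.natAbs_det_basis_change (Pi.basisFun ℤ (Fin m)) _ b, Basis.det_apply]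
    congr 2
  have h4 : ∀ z : Fin m → ℤ, z ≠ 0 → 2 * (h + 1 : ℤ) ≤ nrm (M *ᵥ z) := fun z hz => by
    have e : M *ᵥ z = (b.equivFun.symm z : LinearMap.ker f) := by
      funext i
      simp [M, mulVec, dotProduct, mul_comm]
    have w0 : M *ᵥ z ≠ 0 := fun h0 => hz (by
      rw [e] at h0
      exact b.equivFun.symm.map_eq_zero_iff.1 (Subtype.ext h0))
    have hk : f (M *ᵥ z) = 0 := by rw [e]; exact (b.equivFun.symm z).2
    have k1 : lin a (M *ᵥ z) = 0 := congrArg Prod.fst hk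
    have k2 : Even (∑ i, (M *ᵥ z) i) := by
      have := congrArg Prod.snd hk
      rw [← ZMod.intCast_eq_zero_iff_even]
      simpa [f, Fintype.linearCombination_apply] using this
    obtain ⟨r, hr⟩ := (even_nrm_sub (M *ᵥ z)).add k2
    have k3 := nrm_natAbs (M *ᵥ z)
    by_contra hlt
    exact w0 (eq_zero_of_injOn hm a H _ r.toNat (by omega) (by omega) k1)
  have hpos : (0 : ℝ) < 2 * (h + 1) := by positivity
  have hdet : (((2 * (h + 1) : ℝ))⁻¹ • M.map (Int.cast : ℤ → ℝ)).det =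
      ((2 * (h + 1) : ℝ))⁻¹ ^ m * M.det := by
    rw [det_smul, Fintype.card_fin, Int.cast_det]
  have hM : (M.det : ℝ) ≠ 0 := by
    have : M.det ≠ 0 := Int.natAbs_pos.1 (by omega)
    exact_mod_cast this
  have h5 := critDet_le (B := ((2 * (h + 1) : ℝ))⁻¹ • M.map (Int.cast : ℤ → ℝ))
    ⟨by rw [hdet]; positivity, fun z hz => by
      have b1 : (2 * (h + 1) : ℝ) ≤ nrm (M *ᵥ z) := by exact_mod_cast h4 z hz
      rw [nrm_cast] at b1
      simp only [Matrix.smul_apply, Matrix.map_apply, smul_eq_mul, mul_assoc, ← mul_sum, abs_mul,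
        abs_of_pos (inv_pos.2 hpos)]
      rwa [← div_eq_inv_mul, le_div_iff₀ hpos, one_mul]⟩
  have h6 : |(M.det : ℝ)| ≤ n * 2 := by
    rw [← Int.cast_abs, ← Nat.cast_natAbs, h3]
    exact_mod_cast h1
  rw [hdet, abs_mul, abs_of_pos (by positivity), inv_pow, ← div_eq_inv_mul,
    le_div_iff₀ (by positivity), mul_pow] at h5
  obtain ⟨k, rfl⟩ : ∃ k, m = k + 1 := ⟨m - 1, by omega⟩
  rw [Nat.add_sub_cancel]
  rw [pow_succ (2 : ℝ)] at h5
  linarith

/-- integer approximation of an admissible lattice -/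
lemma approx {m : ℕ} {B : Matrix (Fin m) (Fin m) ℝ} (hB : Admissible B) {t : ℝ}
    (ht : |B.det| < t) : ∃ (M : Matrix (Fin m) (Fin m) ℤ) (μ : ℝ), 0 < μ ∧ M.det ≠ 0 ∧
      (∀ z, z ≠ 0 → μ ≤ nrm (M *ᵥ z)) ∧ |(M.det : ℝ)| < t * μ ^ m := by
  obtain ⟨C, C0, hC⟩ : ∃ C : ℝ, 0 ≤ C ∧ ∀ z : Fin m → ℝ, ∀ j,
      |z j| ≤ C * ∑ i, |∑ j, B i j * z j| := by
    refine ⟨∑ j, ∑ i, |B⁻¹ j i|, by positivity, fun z j => ?_⟩
    have e : z = B⁻¹ *ᵥ (B *ᵥ z) := by
      rw [mulVec_mulVec, nonsing_inv_mul _ (Ne.isUnit hB.1), one_mulVec]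
    have b1 : |z j| ≤ ∑ i, |B⁻¹ j i| * ∑ i, |∑ j, B i j * z j| := by
      rw [show z j = ∑ i, B⁻¹ j i * ∑ j, B i j * z j from congrFun e j]
      refine (abs_sum_le_sum_abs _ _).trans (sum_le_sum fun i _ => ?_)
      rw [abs_mul]
      exact mul_le_mul_of_nonneg_left
        (single_le_sum (f := fun i => |∑ j, B i j * z j|) (fun _ _ => abs_nonneg _) (mem_univ i))
        (abs_nonneg _)
    rw [← sum_mul] at b1
    exact b1.trans (mul_le_mul_of_nonneg_right
      (single_le_sum (f := fun j => ∑ i, |B⁻¹ j i|) (fun _ _ => by positivity) (mem_univ j))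
      (by positivity))
  let M : ℕ → Matrix (Fin m) (Fin m) ℤ := fun L => Matrix.of fun i j => round (L * B i j)
  have hmin : ∀ (L : ℕ) (z : Fin m → ℤ), z ≠ 0 → m * m * C ≤ L → L - m * m * C ≤ nrm (M L *ᵥ z) :=
    fun L z hz hL => by
    have b1 : ∀ i, L * |∑ j, B i j * z j| ≤ |∑ j, (M L i j : ℝ) * z j| +
        m * (C * ∑ i, |∑ j, B i j * (z j : ℝ)|) := fun i => by
      have e : (L : ℝ) * ∑ j, B i j * z j =
          ∑ j, (M L i j : ℝ) * z j + ∑ j, (L * B i j - M L i j) * z j := by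
        rw [mul_sum, ← sum_add_distrib]
        exact sum_congr rfl fun j _ => by ring
      rw [← Nat.abs_cast (R := ℝ) L, ← abs_mul, e]
      refine (abs_add_le _ _).trans (add_le_add le_rfl ((abs_sum_le_sum_abs _ _).trans ?_))
      have := sum_le_card_nsmul univ (fun j => |(L * B i j - M L i j) * (z j : ℝ)|)
        (C * ∑ i, |∑ j, B i j * (z j : ℝ)|) fun j _ => by
          rw [abs_mul]
          have c1 := abs_sub_round ((L : ℝ) * B i j)
          have c2 := hC (fun j => z j) j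
          have c3 := abs_nonneg (z j : ℝ)
          change |(L : ℝ) * B i j - round ((L : ℝ) * B i j)| * _ ≤ _
          nlinarith
      simpa using this
    have b2 := sum_le_sum fun i (_ : i ∈ univ) => b1 i
    rw [← mul_sum, sum_add_distrib, ← nrm_cast, sum_const, card_univ, Fintype.card_fin,
      nsmul_eq_mul] at b2
    have b3 := hB.2 z hz
    nlinarith
  have inv0 : Tendsto (fun L : ℕ => (L : ℝ)⁻¹) atTop (𝓝 0) := tendsto_inv_atTop_nhds_zero_nat
  have t1 : Tendsto (fun L : ℕ => (L : ℝ)⁻¹ • (M L).map (Int.cast : ℤ → ℝ)) atTop (𝓝 B) := by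
    refine tendsto_pi_nhds.2 fun i => tendsto_pi_nhds.2 fun j => ?_
    rw [tendsto_iff_dist_tendsto_zero]
    refine squeeze_zero' (Eventually.of_forall fun _ => dist_nonneg) ?_ inv0
    filter_upwards [eventually_gt_atTop 0] with L hL
    have L0 : (0 : ℝ) < L := by exact_mod_cast hL
    have c1 := abs_sub_round ((L : ℝ) * B i j)
    change |(L : ℝ)⁻¹ * round ((L : ℝ) * B i j) - B i j| ≤ _
    rw [show (L : ℝ)⁻¹ * round ((L : ℝ) * B i j) - B i j =
      (L : ℝ)⁻¹ * -(L * B i j - round ((L : ℝ) * B i j)) by field_simp; ring, abs_mul, abs_neg,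
      abs_of_pos (inv_pos.2 L0)]
    have := inv_pos.2 L0
    nlinarith
  have t2 := ((continuous_id.matrix_det).tendsto B).comp t1
  have t3 : Tendsto (fun L : ℕ => t * (1 - m * m * C * (L : ℝ)⁻¹) ^ m) atTop
      (𝓝 (t * (1 - m * m * C * 0) ^ m)) := (((inv0.const_mul _).const_sub 1).pow m).const_mul t
  simp only [mul_zero, sub_zero, one_pow, mul_one] at t3
  obtain ⟨L, ⟨l1, l2⟩, l3⟩ := (((t2.abs.eventually_lt t3 ht).and (t2.eventually_ne hB.1)).and
    (tendsto_natCast_atTop_atTop.eventually_gt_atTop (m * m * C : ℝ))).exists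
  have L0 : (0 : ℝ) < L := lt_of_le_of_lt (by positivity) l3
  simp only [Function.comp, id, det_smul, Fintype.card_fin, ← Int.cast_det] at l1 l2
  refine ⟨M L, L - m * m * C, by linarith, fun h0 => l2 (by simp [h0]),
    fun z hz => hmin L z hz l3.le, ?_⟩
  rw [abs_mul, abs_of_pos (by positivity), inv_pow, ← div_eq_inv_mul,
    div_lt_iff₀ (by positivity), mul_assoc, ← mul_pow] at l1
  rwa [show (1 - m * m * C * (L : ℝ)⁻¹) * L = L - m * m * C by field_simp] at l1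

/-- upper bound: no short even vector in the kernel -/
theorem exists_good {k : ℕ} {ε : ℝ} (hε : 0 < ε) : ∃ h0 : ℕ, ∀ h ≥ h0, ∀ n : ℕ,
    (2 ^ (k + 1) * critDet (k + 2) + ε) * (h : ℝ) ^ (k + 2) ≤ n → 0 < n ∧
      ∃ a : Fin (k + 2) → ℤ, ∀ w : Fin (k + 2) → ℤ, w ≠ 0 → Even (∑ i, w i) →
        (n : ℤ) ∣ ∑ i, a i * w i → 2 * h < nrm w := by
  obtain ⟨κ, hκ⟩ : ∃ κ, κ = 2 ^ (k + 1) * critDet (k + 2) + ε := ⟨_, rfl⟩
  have κ0 : 0 < κ := by have := critDet_nonneg (k + 2); rw [hκ]; positivity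
  rw [← hκ]
  obtain ⟨B, hB, b1⟩ := exists_admissible (m := k + 2) (t := κ / 2 ^ (k + 1)) (by
    rw [lt_div_iff₀ (by positivity)]; linarith)
  obtain ⟨M, μ, μ0, M0, M1, M2⟩ := approx hB b1
  obtain ⟨C, hC⟩ := int_lattice M M0
  obtain ⟨η, η0, η1, η2⟩ : ∃ η : ℝ, 0 < η ∧ η < 1 ∧
      |(M.det : ℝ)| < κ / 2 ^ (k + 1) * (μ * η) ^ (k + 2) := by
    have c1 : Continuous fun η : ℝ => κ / 2 ^ (k + 1) * (μ * η) ^ (k + 2) := by fun_prop
    have c2 := (c1.tendsto 1).eventually_const_lt (u := |(M.det : ℝ)|) (by simpa using M2)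
    obtain ⟨η, a1, a2⟩ := ((c2.filter_mono nhdsWithin_le_nhds).and
      (Ioo_mem_nhdsLT (show (0 : ℝ) < 1 by norm_num))).exists
    exact ⟨η, a2.1, a2.2, a1⟩
  obtain ⟨h0, hh0⟩ := exists_nat_gt
    (2 * μ * η * ((2 * C + C ^ 2 / (1 - η)) / (1 - η)))
  refine ⟨h0 + 1, fun h hh n hn => ?_⟩
  have h1 : (h0 : ℝ) + 1 ≤ h := by exact_mod_cast hh
  have hpos : (0 : ℝ) < h := by have : (0 : ℝ) ≤ h0 := by positivity
                                linarith
  have n0 : 0 < n := by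
    have : (0 : ℝ) < n := lt_of_lt_of_le (by positivity) hn
    exact_mod_cast this
  obtain ⟨τ, s, a, t1, t2, t3⟩ := hC n n0
  refine ⟨n0, a, fun w w0 w1 w2 => ?_⟩
  obtain ⟨z, z0, z1⟩ := t3 w w0 w1 w2
  have u1 : (s : ℝ) * s ≤ τ := by exact_mod_cast t1
  have u2 : (n : ℝ) ≤ 2 ^ (k + 2) * (2 ^ (k + 1) * |(M.det : ℝ)|) * τ ^ (k + 2) := by
    rw [← Int.cast_abs, ← Nat.cast_natAbs]
    exact_mod_cast t2
  have u3 : (h : ℝ) ≤ 2 * μ * η * τ := by
    refine le_of_pow_le_pow_left₀ (n := k + 2) (by omega) (by positivity)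
      (le_of_mul_le_mul_left (hn.trans (u2.trans ?_)) κ0)
    rw [div_mul_eq_mul_div, lt_div_iff₀ (by positivity), mul_comm] at η2
    calc _ ≤ 2 ^ (k + 2) * (κ * (μ * η) ^ (k + 2)) * (τ : ℝ) ^ (k + 2) := by gcongr
      _ = _ := by rw [mul_pow, mul_pow, mul_pow, mul_pow]; ring
  have u4 : (2 * C + C ^ 2 / (1 - η)) / (1 - η) < τ :=
    lt_of_mul_lt_mul_left (a := 2 * μ * η) (by linarith) (by positivity)
  have e0 : 0 < 1 - η := by linarith
  rw [div_lt_iff₀ e0] at u4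
  have u5 : (C : ℝ) * (s + 1) < (1 - η) * τ := by
    have v1 : 2 * C * (s : ℝ) ≤ (1 - η) * (s * s) + C ^ 2 / (1 - η) := by
      have : (1 - η) * (s * s) + C ^ 2 / (1 - η) - 2 * C * (s : ℝ) =
          ((1 - η) * s - C) ^ 2 / (1 - η) := by field_simp; ring
      have : 0 ≤ ((1 - η) * s - C) ^ 2 / (1 - η) := by positivity
      linarith
    have v2 := mul_le_mul_of_nonneg_left u1 e0.le
    linarith
  have u6 : 4 * (nrm (M *ᵥ z) : ℝ) * (τ - C * (s + 1)) ≤ nrm w := by exact_mod_cast z1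
  have u7 := M1 z z0
  have u8 : η * τ < τ - C * (s + 1) := by linarith
  have u9 : 4 * μ * (η * τ) < 4 * (nrm (M *ᵥ z) : ℝ) * (τ - C * (s + 1)) :=
    mul_lt_mul' (by linarith) u8 (by positivity) (by linarith)
  have : (2 * h : ℝ) < nrm w := by linarith
  exact_mod_cast this

theorem below (n m h : ℕ) (hm : 2 ≤ m) (hh : 1 ≤ h) (h1 : c h m ≤ n)
    (h2 : (n : ℝ) < 2 ^ (m - 1) * critDet m * (h + 1) ^ m) :
    m ≤ n ∧ nu n m h < min n (c h m) := by
  have h3 := two_mul_le_c (m := m) (h := h) (by omega) hh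
  have : NeZero n := ⟨by omega⟩
  refine ⟨by omega, ?_⟩
  rw [min_eq_right h1, nu_lt_iff (by omega)]
  exact fun a _ => image_card_lt hh a fun H => absurd (crit_le hm a H) (not_le.2 h2)

theorem above (m : ℕ) (hm : 2 ≤ m) (ε : ℝ) (hε : 0 < ε) : ∃ h0 : ℕ, ∀ h ≥ h0, ∀ n : ℕ,
    (2 ^ (m - 1) * critDet m + ε) * (h : ℝ) ^ m ≤ n → ¬ nu n m h < min n (c h m) := by
  obtain ⟨k, rfl⟩ : ∃ k, m = k + 2 := ⟨m - 2, by omega⟩
  obtain ⟨h0, H⟩ := exists_good (k := k) hε
  refine ⟨h0 + 1, fun h hh n hn => ?_⟩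
  obtain ⟨n0, a, ha⟩ := H h (by omega) n hn
  have : NeZero n := ⟨n0.ne'⟩
  have key : ∀ w : Fin (k + 2) → ℤ, Even (nrm w) → nrm w ≤ 2 * h →
      lin (fun i => (a i : ZMod n)) w = 0 → w = 0 := fun w w1 w2 w3 => by
    by_contra w0
    refine absurd (ha w w0 (by simpa using w1.sub (even_nrm_sub w)) ?_) (not_lt.2 w2)
    rw [← ZMod.intCast_zmod_eq_zero_iff_dvd]
    simpa [lin, mul_comm] using w3
  have hinj : Set.InjOn (lin fun i => (a i : ZMod n)) (sphere (k + 2) h) := fun l hl l' hl' e => by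
    rw [mem_coe, mem_sphere] at hl hl'
    have p1 := natAbs_sum_parity l l'
    have p2 := natAbs_sum_le l l'
    have p3 := nrm_natAbs (l - l')
    exact sub_eq_zero.1 (key _ (Int.even_iff.2 (by omega)) (by omega)
      (by rw [lin_sub, e, sub_self]))
  have hinj' : Function.Injective fun i => (a i : ZMod n) := fun i j e => by
    have p1 := natAbs_sum_parity (Pi.single i 1) (Pi.single j (1 : ℤ))
    have p2 := natAbs_sum_le (Pi.single i 1) (Pi.single j (1 : ℤ))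
    have p3 := nrm_natAbs (Pi.single i 1 - Pi.single j (1 : ℤ))
    have p4 : ∀ i : Fin (k + 2), ∑ j, ((Pi.single i 1 : Fin (k + 2) → ℤ) j).natAbs = 1 :=
      fun i => by simp [Pi.single_apply, apply_ite Int.natAbs]
    rw [p4, p4] at p1 p2
    have := key _ (Int.even_iff.2 (by omega)) (by omega) (show lin _
      (Pi.single i 1 - Pi.single j (1 : ℤ)) = 0 by
        rw [lin_sub]; simpa [lin, Pi.single_apply, sub_eq_zero] using e)
    by_contra hne
    simpa [hne] using congrFun this i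
  have hmn : k + 2 ≤ n := by simpa using Fintype.card_le_of_injective _ hinj'
  rw [nu_lt_iff hmn]
  intro hlt
  have := hlt _ hinj'
  rw [card_image_of_injOn hinj, card_sphere _ _ (by omega)] at this
  exact absurd (this.trans_le (min_le_right _ _)) (lt_irrefl _)

end Pool.Agent.P.MP_c862d8_co
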