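import Pool.Agent.P.MP_c862d8_co.Defs

namespace Pool.Agent.P.MP_c862d8_co

open Finset

/-- integer points of l1-norm `h` -/
noncomputable def sphere (m h : ℕ) : Finset (Fin m → ℤ) :=
  (Fintype.piFinset fun _ => Icc (-(h : ℤ)) h).filter fun l => ∑ i, (l i).natAbs = h

lemma mem_sphere {m h : ℕ} {l : Fin m → ℤ} : l ∈ sphere m h ↔ ∑ i, (l i).natAbs = h := by
  unfold sphere
  rw [mem_filter]
  refine ⟨fun H => H.2, fun H => ⟨?_, H⟩⟩
  rw [Fintype.mem_piFinset]
  intro i
  have : (l i).natAbs ≤ ∑ i, (l i).natAbs :=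
    single_le_sum (f := fun i => (l i).natAbs) (fun _ _ => Nat.zero_le _) (mem_univ i)
  rw [mem_Icc]; omega

lemma card_sphere_succ (m h : ℕ) :
    (sphere (m + 1) h).card = ∑ k ∈ Icc (-(h : ℤ)) h, (sphere m (h - k.natAbs)).card := by
  rw [card_eq_sum_card_fiberwise (f := fun l : Fin (m + 1) → ℤ => l 0) (t := Icc (-(h : ℤ)) h)]
  · refine sum_congr rfl fun k hk => ?_
    rw [mem_Icc] at hk
    refine card_bij (fun l _ => Fin.tail l) ?_ ?_ ?_
    · intro l hl
      rw [mem_filter, mem_sphere, Fin.sum_univ_succ] at hl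
      rw [mem_sphere]
      have h1 := hl.1
      rw [hl.2] at h1
      simp only [Fin.tail]
      omega
    · intro l hl l' hl' he
      rw [mem_filter] at hl hl'
      rw [← Fin.cons_self_tail l, ← Fin.cons_self_tail l', hl.2, hl'.2, he]
    · intro l hl
      refine ⟨Fin.cons k l, ?_, by simp⟩
      rw [mem_sphere] at hl
      rw [mem_filter, mem_sphere, Fin.sum_univ_succ]
      simp only [Fin.cons_zero, Fin.cons_succ, and_true]
      omega
  · intro l hl
    have hl' := mem_sphere.1 (mem_coe.1 hl)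
    rw [Fin.sum_univ_succ] at hl'
    simp only [coe_Icc, Set.mem_Icc]
    omega

lemma sum_Icc_natAbs (f : ℕ → ℕ) (h : ℕ) :
    ∑ k ∈ Icc (-(h : ℤ)) h, f k.natAbs = f 0 + 2 * ∑ j ∈ range h, f (j + 1) := by
  induction h with
  | zero => simp
  | succ h ih =>
    have e : Icc (-((h + 1 : ℕ) : ℤ)) ((h + 1 : ℕ) : ℤ) =
        insert (-((h + 1 : ℕ) : ℤ)) (insert ((h + 1 : ℕ) : ℤ) (Icc (-(h : ℤ)) h)) := by
      ext x; simp only [mem_Icc, mem_insert]; omega
    rw [e, sum_insert, sum_insert, ih, sum_range_succ]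
    · simp only [Int.natAbs_neg, Int.natAbs_natCast]; ring
    · simp only [mem_Icc]; omega
    · simp only [mem_Icc, mem_insert]; omega

lemma card_sphere_succ' (m h : ℕ) :
    (sphere (m + 1) h).card = (sphere m h).card + 2 * ∑ j ∈ range h, (sphere m j).card := by
  rw [card_sphere_succ, sum_Icc_natAbs (fun k => (sphere m (h - k)).card)]
  congr 2
  rw [← sum_range_reflect]
  refine sum_congr rfl fun j hj => ?_
  rw [mem_range] at hj
  congr 2; omega

lemma card_sphere_rec (m h : ℕ) :
    (sphere (m + 1) (h + 1)).card =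
      (sphere (m + 1) h).card + (sphere m (h + 1)).card + (sphere m h).card := by
  rw [card_sphere_succ', card_sphere_succ', sum_range_succ]; ring

lemma card_sphere_zero (m : ℕ) : (sphere m 0).card = 1 := by
  rw [card_eq_one]
  refine ⟨0, ?_⟩
  ext l
  rw [mem_sphere, mem_singleton, sum_eq_zero_iff]
  constructor
  · intro H; funext i; simpa using H i (mem_univ i)
  · rintro rfl; simp

lemma card_sphere_dim_zero (h : ℕ) : (sphere 0 (h + 1)).card = 0 := by
  rw [card_eq_zero]
  ext l
  simp [mem_sphere]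

/-- closed form with a shifted index -/
def E (M m h : ℕ) : ℕ := ∑ i ∈ range M, 2 ^ (i + 1) * m.choose (i + 1) * h.choose i

lemma E_stab (M m h : ℕ) (H : m ≤ M) : E M m h = E m m h := by
  unfold E
  symm
  refine sum_subset (range_subset_range.2 H) fun i _ hi => ?_
  rw [mem_range, not_lt] at hi
  rw [Nat.choose_eq_zero_of_lt (by omega : m < i + 1)]; simp

lemma E_step (M m h : ℕ) :
    E (M + 1) m (h + 1) = E (M + 1) m h + ∑ i ∈ range M, 2 ^ (i + 2) * m.choose (i + 2) * h.choose i := by
  unfold E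
  rw [sum_range_succ', sum_range_succ' (fun i => 2 ^ (i + 1) * m.choose (i + 1) * h.choose i)]
  simp only [Nat.choose_zero_right, Nat.choose_succ_succ' h]
  rw [add_right_comm, ← sum_add_distrib]
  congr 1
  refine sum_congr rfl fun i _ => ?_
  ring

lemma E_rec (m h : ℕ) :
    E (m + 1) (m + 1) (h + 1) = E (m + 1) (m + 1) h + E m m (h + 1) + E m m h := by
  rw [E_step, ← E_stab (m + 1) m (h + 1) (by omega), E_step, E_stab (m + 1) m h (by omega)]
  have : ∑ i ∈ range m, 2 ^ (i + 2) * (m + 1).choose (i + 2) * h.choose i =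
      2 * E m m h + ∑ i ∈ range m, 2 ^ (i + 2) * m.choose (i + 2) * h.choose i := by
    unfold E
    rw [mul_sum, ← sum_add_distrib]
    refine sum_congr rfl fun i _ => ?_
    rw [Nat.choose_succ_succ' m (i + 1)]
    ring
  rw [this]; ring

lemma E_zero (m : ℕ) : E m m 0 = 2 * m := by
  unfold E
  cases m with
  | zero => simp
  | succ m =>
    rw [sum_range_succ']
    simp

lemma card_sphere_E (m h : ℕ) : (sphere m (h + 1)).card = E m m h := by
  induction m generalizing h with
  | zero => rw [card_sphere_dim_zero]; simp [E]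
  | succ m ihm =>
    induction h with
    | zero =>
      rw [card_sphere_rec, card_sphere_zero, card_sphere_zero, ihm, E_zero, E_zero]; ring
    | succ h ihh => rw [card_sphere_rec, ihh, ihm, ihm, E_rec]

lemma c_eq_E (m h : ℕ) : c (h + 1) m = E m m h := by
  unfold c E
  have e1 : ∑ i ∈ Icc 1 (min m (h + 1)), 2 ^ i * m.choose i * (h + 1 - 1).choose (i - 1) =
      ∑ i ∈ range (min m (h + 1)), 2 ^ (i + 1) * m.choose (i + 1) * h.choose i := by
    have := Finset.sum_Ico_add' (fun i => 2 ^ i * m.choose i * h.choose (i - 1)) 0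
      (min m (h + 1)) 1
    rw [range_eq_Ico]
    simp only [Nat.add_sub_cancel] at this ⊢
    rw [this]
    rfl
  rw [e1]
  refine sum_subset (range_subset_range.2 (min_le_left _ _)) fun i hi hi' => ?_
  rw [mem_range] at hi hi'
  rw [Nat.choose_eq_zero_of_lt (by omega : h < i)]; simp

lemma card_sphere (m h : ℕ) (hh : 1 ≤ h) : (sphere m h).card = c h m := by
  obtain ⟨k, rfl⟩ : ∃ k, h = k + 1 := ⟨h - 1, by omega⟩
  rw [card_sphere_E, c_eq_E]

end Pool.Agent.P.MP_c862d8_co
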