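import Pool.Agent.P.MP_c862d8_co.General

namespace Pool.Agent.P.MP_c862d8_co

open Finset

lemma c_two (h : ℕ) (hh : 2 ≤ h) : c h 2 = 4 * h := by
  unfold c
  rw [min_eq_left hh]
  have : Icc 1 2 = {1, 2} := rfl
  rw [this, sum_pair (by norm_num)]
  simp; omega

/-- the signed sumset of the pair covers everything -/
def Cov {n : ℕ} (h : ℕ) (a b : ZMod n) : Prop :=
  ∀ z : ZMod n, ∃ u v : ℤ, u.natAbs + v.natAbs = h ∧ (u : ZMod n) * a + (v : ZMod n) * b = z

/-- all signed sums of the pair are distinct -/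
def Inj {n : ℕ} (h : ℕ) (a b : ZMod n) : Prop :=
  ∀ u v u' v' : ℤ, u.natAbs + v.natAbs = h → u'.natAbs + v'.natAbs = h →
    (u : ZMod n) * a + (v : ZMod n) * b = (u' : ZMod n) * a + (v' : ZMod n) * b → u = u' ∧ v = v'

lemma lin_two {n : ℕ} (a : Fin 2 → ZMod n) (l : Fin 2 → ℤ) :
    lin a l = (l 0 : ZMod n) * a 0 + (l 1 : ZMod n) * a 1 := by
  simp [lin, Fin.sum_univ_two]

lemma cov_iff {n h : ℕ} [NeZero n] (a : Fin 2 → ZMod n) :
    ((sphere 2 h).image (lin a)).card < n ↔ ¬ Cov h (a 0) (a 1) := by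
  have e : ((sphere 2 h).image (lin a)).card < n ↔ (sphere 2 h).image (lin a) ≠ univ := by
    rw [← card_lt_iff_ne_univ, ZMod.card]
  rw [e, Ne, eq_univ_iff_forall]
  refine not_congr ⟨fun H z => ?_, fun H z => ?_⟩
  · obtain ⟨l, h1, h2⟩ := mem_image.1 (H z)
    rw [mem_sphere, Fin.sum_univ_two] at h1
    exact ⟨l 0, l 1, h1, by rw [← lin_two, h2]⟩
  · obtain ⟨u, v, h1, h2⟩ := H z
    refine mem_image.2 ⟨![u, v], ?_, ?_⟩
    · rw [mem_sphere, Fin.sum_univ_two]; simpa using h1
    · rw [lin_two]; simpa using h2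

lemma inj_iff {n h : ℕ} (a : Fin 2 → ZMod n) :
    Set.InjOn (lin a) (sphere 2 h) ↔ Inj h (a 0) (a 1) := by
  constructor
  · intro H u v u' v' h1 h2 h3
    have := @H ![u, v] (by rw [mem_coe, mem_sphere, Fin.sum_univ_two]; simpa using h1) ![u', v']
      (by rw [mem_coe, mem_sphere, Fin.sum_univ_two]; simpa using h2)
      (by rw [lin_two, lin_two]; simpa using h3)
    exact ⟨by simpa using congrFun this 0, by simpa using congrFun this 1⟩
  · intro H l hl l' hl' he
    rw [mem_coe, mem_sphere, Fin.sum_univ_two] at hl hl'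
    rw [lin_two, lin_two] at he
    obtain ⟨e0, e1⟩ := H _ _ _ _ hl hl' he
    funext i
    fin_cases i
    · exact e0
    · exact e1

lemma forall_pair {n : ℕ} (P : ZMod n → ZMod n → Prop) :
    (∀ a : Fin 2 → ZMod n, Function.Injective a → P (a 0) (a 1)) ↔ ∀ a b, a ≠ b → P a b := by
  constructor
  · intro H a b hab
    refine H ![a, b] ?_
    intro i j hij
    fin_cases i <;> fin_cases j <;> simp_all [eq_comm]
  · intro H a ha
    exact H _ _ (fun e => by simpa using ha e)

lemma nu_lt_iff_cov {n h : ℕ} (hn : 2 ≤ n) (hh : 2 ≤ h) (H : n ≤ 4 * h) :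
    nu n 2 h < min n (c h 2) ↔ ∀ a b : ZMod n, a ≠ b → ¬ Cov h a b := by
  have : NeZero n := ⟨by omega⟩
  rw [c_two h hh, min_eq_left H, nu_lt_iff hn, ← forall_pair (fun a b => ¬ Cov h a b)]
  simp only [cov_iff]

lemma nu_lt_iff_inj {n h : ℕ} (hh : 2 ≤ h) (H : 4 * h ≤ n) :
    nu n 2 h < min n (c h 2) ↔ ∀ a b : ZMod n, a ≠ b → ¬ Inj h a b := by
  have : NeZero n := ⟨by omega⟩
  rw [min_eq_right (by rw [c_two h hh]; exact H), nu_lt_iff (by omega),
    ← forall_pair (fun a b => ¬ Inj h a b)]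
  refine forall_congr' fun a => forall_congr' fun _ => ?_
  rw [← inj_iff]
  refine ⟨fun h1 h2 => ?_, image_card_lt (by omega) a⟩
  rw [card_image_of_injOn h2, card_sphere 2 h (by omega)] at h1
  exact lt_irrefl _ h1

/-! ### the packing side -/

/-- no short vector in the kernel of `(i,j) ↦ i s + j t` -/
def NoShort {n : ℕ} (h : ℕ) (s t : ZMod n) : Prop :=
  ∀ i j : ℤ, i.natAbs ≤ h → j.natAbs ≤ h → (i : ZMod n) * s + (j : ZMod n) * t = 0 → i = 0 ∧ j = 0

lemma inj_iff_noShort {n h : ℕ} (a b : ZMod n) : Inj h a b ↔ NoShort h (a + b) (a - b) := by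
  constructor
  · intro H i j hi hj he
    have key : ∀ x y x' y' : ℤ, x - x' = i → y - y' = j →
        (x + y - h).natAbs + (x - y).natAbs = h → (x' + y' - h).natAbs + (x' - y').natAbs = h →
        i = 0 ∧ j = 0 := by
      intro x y x' y' e1 e2 h1 h2
      have := H _ _ _ _ h1 h2 (by
        subst e1 e2
        push_cast at he ⊢
        linear_combination he)
      omega
    rcases le_total 0 i with h1 | h1 <;> rcases le_total 0 j with h2 | h2
    · exact key i h 0 (h - j) (by omega) (by omega) (by omega) (by omega)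
    · exact key i 0 0 (-j) (by omega) (by omega) (by omega) (by omega)
    · exact key 0 j (-i) 0 (by omega) (by omega) (by omega) (by omega)
    · exact key 0 (h + j) (-i) h (by omega) (by omega) (by omega) (by omega)
  · intro H u v u' v' h1 h2 he
    obtain ⟨i, hi⟩ : ∃ i : ℤ, u - u' + (v - v') = 2 * i := ⟨(u - u' + (v - v')) / 2, by omega⟩
    have hu : u = u' + i + (u - u' - i) := by ring
    have hv : v = v' + i - (u - u' - i) := by omega
    generalize u - u' - i = j at hu hv
    have := H i j (by omega) (by omega) (by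
      subst hu hv
      push_cast at he ⊢
      linear_combination he)
    omega

lemma card_box (k : ℕ) : ((range k) ×ˢ (range k)).card = k ^ 2 := by
  rw [card_product, card_range]; ring

lemma noShort_injOn {n h : ℕ} {s t : ZMod n} (H : NoShort h s t) :
    Set.InjOn (fun p : ℕ × ℕ => (p.1 : ZMod n) * s + (p.2 : ZMod n) * t)
      ((range (h + 1)) ×ˢ (range (h + 1)) : Finset (ℕ × ℕ)) := by
  rintro ⟨x, y⟩ hp ⟨x', y'⟩ hp' he
  simp only [coe_product, coe_range, Set.mem_prod, Set.mem_Iio] at hp hp' he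
  have := H ((x : ℤ) - x') ((y : ℤ) - y') (by omega) (by omega) (by
    push_cast; linear_combination he)
  ext <;> simp only <;> omega

lemma noShort_sq_le {n h : ℕ} [NeZero n] {s t : ZMod n} (H : NoShort h s t) : (h + 1) ^ 2 ≤ n := by
  have := card_le_card_of_injOn (t := univ) _ (fun _ _ => mem_coe.2 (mem_univ _)) (noShort_injOn H)
  rwa [card_box, card_univ, ZMod.card] at this

lemma NoShort.symm {n h : ℕ} {s t : ZMod n} (H : NoShort h s t) : NoShort h t s := by
  intro i j hi hj he
  exact (H j i hj hi (by rw [add_comm]; exact he)).symm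

lemma noShort_vec {n h : ℕ} [NeZero n] {s t : ZMod n} (H : NoShort h s t)
    (hn : n < (h + 1) ^ 2 + (h + 1)) :
    ∃ c : ℤ, c.natAbs ≤ h ∧ ((h + 1 : ℕ) : ZMod n) * s + (c : ZMod n) * t = 0 := by
  classical
  by_contra hc
  push Not at hc
  have hinj : Set.InjOn (fun p : ℕ × ℕ => (p.1 : ZMod n) * s + (p.2 : ZMod n) * t)
      ((range (h + 2)) ×ˢ (range (h + 1)) : Finset (ℕ × ℕ)) := by
    rintro ⟨x, y⟩ hp ⟨x', y'⟩ hp' he
    simp only [coe_product, coe_range, Set.mem_prod, Set.mem_Iio] at hp hp' he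
    by_cases h1 : x = h + 1 ∧ x' = 0
    · exfalso
      refine hc ((y : ℤ) - y') (by omega) ?_
      obtain ⟨rfl, rfl⟩ := h1
      push_cast at he ⊢; linear_combination he
    by_cases h2 : x' = h + 1 ∧ x = 0
    · exfalso
      refine hc ((y' : ℤ) - y) (by omega) ?_
      obtain ⟨rfl, rfl⟩ := h2
      push_cast at he ⊢; linear_combination -he
    have := H ((x : ℤ) - x') ((y : ℤ) - y') (by omega) (by omega) (by
      push_cast; linear_combination he)
    ext <;> simp only <;> omega
  have := card_le_card_of_injOn (t := univ) _ (fun _ _ => mem_coe.2 (mem_univ _)) hinj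
  rw [card_product, card_range, card_range, card_univ, ZMod.card] at this
  nlinarith

end Pool.Agent.P.MP_c862d8_co
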