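import Pool.Agent.P.MP_c862d8_co.TwoBasic

namespace Pool.Agent.P.MP_c862d8_co

open Finset

/-- the boundary of the box `[0,h]^2` covers all residues under `(x,y) ↦ x s + y t` -/
def CovB (n h : ℕ) (s t : ℤ) : Prop :=
  ∀ z : ℤ, ∃ x y : ℤ, 0 ≤ x ∧ x ≤ h ∧ 0 ≤ y ∧ y ≤ h ∧ (x = 0 ∨ x = h ∨ y = 0 ∨ y = h) ∧
    (n : ℤ) ∣ z - (x * s + y * t)

lemma covB_of_cov {n h : ℕ} (A B : ℤ) (H : Cov h (A : ZMod n) (B : ZMod n)) :
    CovB n h (A + B) (A - B) := by
  intro z
  obtain ⟨u, v, h1, h2⟩ := H ((z - h * A : ℤ) : ZMod n)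
  obtain ⟨x, hx⟩ : ∃ x : ℤ, u + v + h = 2 * x := ⟨(u + v + h) / 2, by omega⟩
  refine ⟨x, x - v, by omega, by omega, by omega, by omega, by omega, ?_⟩
  rw [← ZMod.intCast_zmod_eq_zero_iff_dvd]
  have hu : u = 2 * x - v - h := by omega
  subst hu
  push_cast at h2 ⊢
  linear_combination -h2

lemma CovB.symm {n h : ℕ} {s t : ℤ} (H : CovB n h s t) : CovB n h t s := by
  intro z
  obtain ⟨x, y, h1, h2, h3, h4, h5, h6⟩ := H z
  exact ⟨y, x, h3, h4, h1, h2, by omega, by rw [add_comm]; exact h6⟩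

lemma CovB.scale {n h : ℕ} {s t s' : ℤ} (H : CovB n h s t) (hs : (n : ℤ) ∣ s * s' - 1) :
    CovB n h 1 (t * s') := by
  intro z
  obtain ⟨x, y, h1, h2, h3, h4, h5, e, h6⟩ := H (z * s)
  obtain ⟨k, hk⟩ := hs
  exact ⟨x, y, h1, h2, h3, h4, h5, e * s' - k * (z - x), by
    linear_combination s' * h6 - (z - x) * hk⟩

lemma CovB.congr {n h : ℕ} {s t t' : ℤ} (H : CovB n h s t) (ht : (n : ℤ) ∣ t - t') :
    CovB n h s t' := by
  intro z
  obtain ⟨x, y, h1, h2, h3, h4, h5, e, h6⟩ := H z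
  obtain ⟨k, hk⟩ := ht
  exact ⟨x, y, h1, h2, h3, h4, h5, e + y * k, by linear_combination h6 + y * hk⟩

lemma class_count {n h d n' K : ℕ} {s t : ℤ} (hn : n = d * n') (hd : 0 < d) (_hn' : 0 < n')
    (H : CovB n h s t) (hs : (d : ℤ) ∣ s) (ht : IsCoprime (d : ℤ) t) (y0 : ℕ) (hy0 : y0 < d)
    (h0 : y0 ≠ 0) (hh : ¬ (d : ℤ) ∣ h - y0) (hK : h < y0 + d * K) :
    ((range n').image fun k : ℕ => ((y0 * t + d * k : ℤ) : ZMod n)).card = n' ∧
    ((range n').image fun k : ℕ => ((y0 * t + d * k : ℤ) : ZMod n)) ⊆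
      (({0, (h : ℤ)} : Finset ℤ) ×ˢ range K).image
        fun p : ℤ × ℕ => ((p.1 * s + (y0 + d * p.2) * t : ℤ) : ZMod n) := by
  classical
  constructor
  · rw [card_image_of_injOn, card_range]
    intro k hk k' hk' he
    simp only [coe_range, Set.mem_Iio] at hk hk' he
    rw [ZMod.intCast_eq_intCast_iff_dvd_sub] at he
    have : ((d : ℤ) * n') ∣ d * ((k' : ℤ) - k) := by
      convert he using 1
      · rw [hn]; push_cast; ring
      · ring
    have := Int.eq_zero_of_abs_lt_dvd (Int.dvd_of_mul_dvd_mul_left (by omega) this)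
      (by rw [abs_lt]; omega)
    omega
  · intro z hz
    obtain ⟨k, -, rfl⟩ := mem_image.1 hz
    obtain ⟨x, y, h1, h2, h3, h4, h5, h6⟩ := H (y0 * t + d * k)
    have hdn : (d : ℤ) ∣ n := by rw [hn]; push_cast; exact Dvd.intro _ rfl
    have h7 : (d : ℤ) ∣ (y - y0) * t := by
      obtain ⟨a, ha⟩ := hdn.trans h6
      obtain ⟨b, hb⟩ := hs
      exact ⟨k - a - x * b, by linear_combination -ha - x * hb⟩
    have h8 := ht.dvd_of_dvd_mul_right h7
    have hy1 : y ≠ 0 := by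
      rintro rfl
      have := Int.eq_zero_of_abs_lt_dvd h8 (by rw [abs_lt]; omega)
      omega
    have hy2 : y ≠ h := by rintro rfl; exact hh h8
    obtain ⟨e, he⟩ := h8
    have e0 : 0 ≤ e := by
      by_contra hneg
      have : (d : ℤ) * e ≤ d * (-1) := mul_le_mul_of_nonneg_left (by omega) (by omega)
      omega
    have eK : e < K := by
      by_contra hneg
      have : (d : ℤ) * K ≤ d * e := mul_le_mul_of_nonneg_left (by omega) (by omega)
      have : (h : ℤ) < y0 + d * K := by exact_mod_cast hK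
      omega
    obtain ⟨e', rfl⟩ := Int.eq_ofNat_of_zero_le e0
    refine mem_image.2 ⟨(x, e'), ?_, ?_⟩
    · simp only [mem_product, mem_insert, mem_singleton, mem_range]; omega
    · rw [ZMod.intCast_eq_intCast_iff_dvd_sub]
      convert h6 using 1
      have : y = y0 + d * e' := by omega
      rw [this]

lemma coprime_of_covB {n h : ℕ} {s t : ℤ} (hn : 2 * h + 2 ≤ n) (H : CovB n h s t)
    (hp : n % 2 = 1 ∨ (s % 2 = 1 ∧ t % 2 = 1)) : IsCoprime (n : ℤ) s := by
  classical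
  rw [Int.isCoprime_iff_gcd_eq_one]
  set d : ℕ := Int.gcd n s with hd
  by_contra hne
  have d1 : (d : ℤ) ∣ n := Int.gcd_dvd_left _ _
  have d2 : (d : ℤ) ∣ s := Int.gcd_dvd_right _ _
  have d0 : 0 < d := Int.gcd_pos_of_ne_zero_left _ (by omega)
  have dodd : d % 2 = 1 := by
    by_contra h2
    have h3 : (2 : ℤ) ∣ d := by omega
    have := h3.trans d1
    have := h3.trans d2
    omega
  obtain ⟨n', hn'⟩ := Int.natCast_dvd_natCast.1 d1
  have hn'0 : 0 < n' := Nat.pos_of_ne_zero (by rintro rfl; omega)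
  have ht : IsCoprime (d : ℤ) t := by
    obtain ⟨x, y, -, -, -, -, -, h6⟩ := H 1
    obtain ⟨a, ha⟩ := d1.trans h6
    obtain ⟨b, hb⟩ := d2
    exact ⟨a + x * b, y, by linear_combination -ha - x * hb⟩
  have cardle : ∀ K : ℕ, (({0, (h : ℤ)} : Finset ℤ) ×ˢ range K).card ≤ 2 * K := by
    intro K
    rw [card_product, card_range]
    exact Nat.mul_le_mul_right _ card_le_two
  have hdm := Nat.mod_add_div (h + 1) d
  have hml := Nat.mod_lt (h + 1) d0
  by_cases hdiv : (h + 1) % d = 0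
  · obtain ⟨K, hK⟩ : ∃ K, h + 1 = d * K := ⟨(h + 1) / d, by omega⟩
    obtain ⟨y0, hy0⟩ : ∃ y0, d = 2 * y0 + 1 := ⟨d / 2, by omega⟩
    have hK' : (h : ℤ) + 1 = d * K := by exact_mod_cast hK
    obtain ⟨c1, c2⟩ := class_count (K := K) hn' d0 hn'0 H d2 ht y0 (by omega) (by omega)
      (by
        intro hdv
        have : (d : ℤ) ∣ d * K - (h - y0) := (Dvd.intro _ rfl).sub hdv
        have := Int.eq_zero_of_abs_lt_dvd this (by rw [abs_lt]; omega)
        omega) (by omega)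
    have c3 := card_le_card c2
    have c4 := card_image_le (s := (({0, (h : ℤ)} : Finset ℤ) ×ˢ range K))
      (f := fun p : ℤ × ℕ => ((p.1 * s + (y0 + d * p.2) * t : ℤ) : ZMod n))
    have c5 := cardle K
    have hn2 : n' = 2 * K := by
      have : d * (2 * K) ≤ d * n' := by nlinarith
      have := Nat.le_of_mul_le_mul_left this d0
      omega
    have hn3 : n = 2 * h + 2 := by rw [hn', hn2]; nlinarith
    have hinj := card_image_iff.1 (show ((({0, (h : ℤ)} : Finset ℤ) ×ˢ range K).image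
        fun p : ℤ × ℕ => ((p.1 * s + (y0 + d * p.2) * t : ℤ) : ZMod n)).card = _ by omega)
    -- the fixed point
    obtain ⟨w, hw⟩ : ∃ w, s + t = 2 * w := ⟨(s + t) / 2, by omega⟩
    obtain ⟨x, y, h1, h2, h3, h4, h5, h6⟩ := H (h * w)
    obtain ⟨b, hb⟩ := d2
    have h7 : (d : ℤ) ∣ (y - y0) * t := by
      have hc2 : IsCoprime (d : ℤ) 2 := ⟨1, -y0, by omega⟩
      refine hc2.dvd_of_dvd_mul_left ?_
      obtain ⟨a, ha⟩ := d1.trans h6
      refine ⟨K * t - t + h * b - 2 * x * b - 2 * a, ?_⟩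
      have hy0' : (d : ℤ) = 2 * y0 + 1 := by exact_mod_cast hy0
      linear_combination -2 * ha - h * hw + (h - 2 * x) * hb + t * hK' + t * hy0'
    obtain ⟨e, he⟩ := ht.dvd_of_dvd_mul_right h7
    have e0 : 0 ≤ e := by
      by_contra hneg
      have : (d : ℤ) * e ≤ d * (-1) := mul_le_mul_of_nonneg_left (by omega) (by omega)
      omega
    have eK : e < K := by
      by_contra hneg
      have : (d : ℤ) * K ≤ d * e := mul_le_mul_of_nonneg_left (by omega) (by omega)
      omega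
    have hde : 0 ≤ (d : ℤ) * e := by positivity
    have hde' : (d : ℤ) * e ≤ d * (K - 1) := mul_le_mul_of_nonneg_left (by omega) (by omega)
    have hde'' : (d : ℤ) * (K - 1) = d * K - d := by ring
    obtain ⟨e', rfl⟩ := Int.eq_ofNat_of_zero_le e0
    have := @hinj (x, e') (by simp; omega) (h - x, K - 1 - e') (by simp; omega) (by
      simp only
      rw [ZMod.intCast_eq_intCast_iff_dvd_sub]
      have hy0' : (d : ℤ) = 2 * y0 + 1 := by exact_mod_cast hy0
      have e1 : ((K - 1 - e' : ℕ) : ℤ) = K - 1 - e' := by omega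
      rw [e1]
      obtain ⟨a, ha⟩ := h6
      exact ⟨2 * a, by linear_combination 2 * ha + h * hw - t * hK' - t * hy0' + 2 * t * he⟩)
    simp only [Prod.mk.injEq] at this
    omega
  · obtain ⟨c1, c2⟩ := class_count (K := (h + 1) / d) hn' d0 hn'0 H d2 ht ((h + 1) % d) hml hdiv
      (by
        intro hdv
        have h1 : (d : ℤ) ∣ d * ((h + 1) / d : ℕ) - (h - ((h + 1) % d : ℕ)) :=
          (Dvd.intro _ rfl).sub hdv
        have h2 : (d : ℤ) * ((h + 1) / d : ℕ) = ((d * ((h + 1) / d) : ℕ) : ℤ) := by push_cast; rfl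
        have := Int.eq_zero_of_abs_lt_dvd h1 (by rw [abs_lt]; omega)
        omega) (by omega)
    have c3 := (card_le_card c2).trans (card_image_le.trans (cardle _))
    rw [c1] at c3
    have : d * n' ≤ d * (2 * ((h + 1) / d)) := Nat.mul_le_mul_left _ c3
    have e : d * (2 * ((h + 1) / d)) = 2 * (d * ((h + 1) / d)) := by ring
    omega

end Pool.Agent.P.MP_c862d8_co
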