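import Pool.Agent.P.MP_c862d8_co.TwoCov

namespace Pool.Agent.P.MP_c862d8_co

lemma pinwheel (A B x y : ℤ) (hx : 0 ≤ x) (hx' : x < A) (hy : 0 ≤ y) (hy' : y < B) :
    ∀ (N : ℕ) (i j : ℤ), max (max i (-i)) (A - 1) + max (max j (-j)) (B - 1) ≤ N →
      ∃ a b : ℤ, -A < i + a * A - b * x ∧ i + a * A - b * x < A ∧
        -B < j + a * y + b * B ∧ j + a * y + b * B < B := by
  intro N
  induction N using Nat.strong_induction_on with
  | _ N ih =>
    intro i j hN
    have step : ∀ a0 b0 i' j' : ℤ, i' = i + a0 * A - b0 * x → j' = j + a0 * y + b0 * B →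
        max (max i' (-i')) (A - 1) + max (max j' (-j')) (B - 1) < N →
        ∃ a b : ℤ, -A < i + a * A - b * x ∧ i + a * A - b * x < A ∧
          -B < j + a * y + b * B ∧ j + a * y + b * B < B := by
      intro a0 b0 i' j' e1 e2 hlt
      obtain ⟨a, b, h⟩ := ih (N - 1) (by omega) i' j' (by omega)
      refine ⟨a + a0, b + b0, ?_⟩
      have f1 : i + (a + a0) * A - (b + b0) * x = i' + a * A - b * x := by rw [e1]; ring
      have f2 : j + (a + a0) * y + (b + b0) * B = j' + a * y + b * B := by rw [e2]; ring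
      rw [f1, f2]; exact h
    by_cases h0 : -A < i ∧ i < A ∧ -B < j ∧ j < B
    · exact ⟨0, 0, by omega⟩
    by_cases h1 : A ≤ i ∧ -B < j
    · by_cases h2 : -B < j - y
      · exact step (-1) 0 (i - A) (j - y) (by ring) (by ring) (by omega)
      · exact step (-1) 1 (i - A - x) (j - y + B) (by ring) (by ring) (by omega)
    by_cases h2 : i ≤ -A ∧ j < B
    · by_cases h2 : j + y < B
      · exact step 1 0 (i + A) (j + y) (by ring) (by ring) (by omega)
      · exact step 1 (-1) (i + A + x) (j + y - B) (by ring) (by ring) (by omega)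
    by_cases h3 : B ≤ j ∧ i < A
    · by_cases h2 : i + x < A
      · exact step 0 (-1) (i + x) (j - B) (by ring) (by ring) (by omega)
      · exact step (-1) (-1) (i + x - A) (j - B - y) (by ring) (by ring) (by omega)
    · by_cases h2 : -A < i - x
      · exact step 0 1 (i - x) (j + B) (by ring) (by ring) (by omega)
      · exact step 1 1 (i - x + A) (j + B + y) (by ring) (by ring) (by omega)

/-- a point of the nontrivial coset in the critical box -/
lemma even_box {N h t c1 c2 k1 k2 : ℤ} (hN : h + 1 ≤ N) (ht : t % 2 = 1)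
    (h1 : -h ≤ c1) (h1' : c1 ≤ h) (h2 : -h ≤ c2) (h2' : c2 ≤ h)
    (p1 : c1 % 2 = h % 2) (p2 : c2 % 2 = h % 2)
    (e1 : c1 + h * t = 2 * N * k1) (e2 : h - c2 * t = 2 * N * k2) (hk : (k1 + k2) % 2 = 1) :
    ∃ i j : ℤ, 2 * max i (-i) < 2 * N - h - max c1 (-c1) ∧
      2 * max j (-j) < 2 * N - h - max c2 (-c2) ∧ 2 * N ∣ i - t * j - N := by
  obtain ⟨x, hx⟩ : ∃ x, h - c1 = 2 * x := ⟨(h - c1) / 2, by omega⟩
  obtain ⟨y, hy⟩ : ∃ y, h - c2 = 2 * y := ⟨(h - c2) / 2, by omega⟩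
  obtain ⟨m, hm⟩ : ∃ m, k1 + k2 = 2 * m + 1 := ⟨(k1 + k2) / 2, by omega⟩
  obtain ⟨t', ht'⟩ : ∃ t', t = 2 * t' + 1 := ⟨t / 2, by omega⟩
  have hc1 : c1 = h - 2 * x := by omega
  have hc2 : c2 = h - 2 * y := by omega
  have hk2 : k2 = 2 * m + 1 - k1 := by omega
  -- two vectors of the nontrivial coset
  have w1 : (h - x) - t * (-y) - N = 2 * N * m := by
    subst hc1 hc2 hk2
    have : 2 * ((h - x) - t * (-y) - N) = 2 * (2 * N * m) := by linear_combination e1 + e2
    omega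
  have w2 : x - t * (h - y) - N = 2 * N * (m - k1) := by
    subst hc1 hc2 hk2
    have : 2 * (x - t * (h - y) - N) = 2 * (2 * N * (m - k1)) := by linear_combination e2 - e1
    omega
  by_cases s1 : c1 ≤ 0 ∧ 0 ≤ c2
  · exact ⟨h - x, -y, by omega, by omega, m, w1⟩
  by_cases s2 : c2 ≤ 0 ∧ 0 ≤ c1
  · exact ⟨x, h - y, by omega, by omega, m - k1, w2⟩
  by_cases s3 : 0 < c1
  · obtain ⟨a, b, hab⟩ := pinwheel (N - (h - x)) (N - (h - y)) x y (by omega) (by omega)
      (by omega) (by omega) _ N 0 (Int.self_le_toNat _)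
    refine ⟨N + a * (N - (h - x)) - b * x, 0 + a * y + b * (N - (h - y)), by omega, by omega,
      -a * m - b * (m - k1) - b * (t' + 1), ?_⟩
    subst ht'
    linear_combination -a * w1 - b * w2
  · obtain ⟨a, b, hab⟩ := pinwheel (N - x) (N - y) (h - x) (h - y) (by omega) (by omega)
      (by omega) (by omega) _ N 0 (Int.self_le_toNat _)
    refine ⟨N + a * (N - x) - b * (h - x), -(0 + a * (h - y) + b * (N - y)), by omega, by omega,
      -a * (m - k1) - b * m + b * t', ?_⟩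
    subst ht'
    linear_combination -a * w2 - b * w1

lemma not_dvd_of_small {n a : ℤ} (h : n ∣ a) (h1 : -n < a) (h2 : a < n) : a = 0 :=
  Int.eq_zero_of_abs_lt_dvd h (abs_lt.2 ⟨h1, h2⟩)

lemma not_covB_even_aux {n h : ℕ} {t N : ℤ} (hn : (n : ℤ) = 2 * N) (hN : (h : ℤ) + 1 ≤ N)
    (ht : t % 2 = 1) (hc : IsCoprime (n : ℤ) t) (H : CovB n h 1 t) (w f : ℤ)
    (hw : 1 + t = 2 * w) (ε : ℤ) (hf : f = h * w + N * ε)
    (x0 y0 x1 y1 : ℤ) (a1 : 0 ≤ x0) (a2 : x0 ≤ h) (a3 : y0 = 0 ∨ y0 = h)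
    (a4 : (n : ℤ) ∣ f - (x0 * 1 + y0 * t))
    (b1 : 0 ≤ y1) (b2 : y1 ≤ h) (b3 : x1 = 0 ∨ x1 = h)
    (b4 : (n : ℤ) ∣ f + N - (x1 * 1 + y1 * t)) : False := by
  rw [hn] at a4 b4 hc
  obtain ⟨t', ht'⟩ : ∃ t', t = 2 * t' + 1 := ⟨t / 2, by omega⟩
  obtain ⟨c1, k1, h1, h1', p1, e1, q1⟩ : ∃ c1 k1 : ℤ, -h ≤ c1 ∧ c1 ≤ h ∧ c1 % 2 = h % 2 ∧
      c1 + h * t = 2 * N * k1 ∧ k1 % 2 = ε % 2 := by
    obtain ⟨a, ha⟩ := a4
    rcases a3 with rfl | rfl
    · exact ⟨h - 2 * x0, 2 * a - ε, by omega, by omega, by omega,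
        by subst hf; linear_combination 2 * ha + h * hw, by omega⟩
    · exact ⟨2 * x0 - h, ε - 2 * a, by omega, by omega, by omega,
        by subst hf; linear_combination -2 * ha - h * hw, by omega⟩
  obtain ⟨c2, k2, h2, h2', p2, e2, q2⟩ : ∃ c2 k2 : ℤ, -h ≤ c2 ∧ c2 ≤ h ∧ c2 % 2 = h % 2 ∧
      h - c2 * t = 2 * N * k2 ∧ k2 % 2 = (ε + 1) % 2 := by
    obtain ⟨a, ha⟩ := b4
    rcases b3 with rfl | rfl
    · exact ⟨2 * y1 - h, 2 * a - ε - 1, by omega, by omega, by omega,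
        by subst hf; linear_combination 2 * ha + h * hw, by omega⟩
    · exact ⟨h - 2 * y1, ε + 1 - 2 * a, by omega, by omega, by omega,
        by subst hf; linear_combination -2 * ha - h * hw, by omega⟩
  obtain ⟨i, j, hi, hj, k, hk⟩ := even_box hN ht h1 h1' h2 h2' p1 p2 e1 e2 (by omega)
  obtain ⟨x, y, g1, g2, g3, g4, g5, l, hl⟩ := H (f + N + i)
  rw [hn] at hl
  obtain ⟨m1, hm1⟩ : ∃ m, k1 = ε + 2 * m := ⟨(k1 - ε) / 2, by omega⟩
  obtain ⟨m2, hm2⟩ : ∃ m, k2 = ε + 1 + 2 * m := ⟨(k2 - ε - 1) / 2, by omega⟩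
  obtain ⟨u, hu⟩ : ∃ u, h + c1 = 2 * u := ⟨(h + c1) / 2, by omega⟩
  obtain ⟨v, hv⟩ : ∃ v, h + c2 = 2 * v := ⟨(h + c2) / 2, by omega⟩
  have hc1 : c1 = 2 * u - h := by omega
  have hc2 : c2 = 2 * v - h := by omega
  subst hf hm1 hm2 hc1 hc2
  rcases g5 with rfl | rfl | rfl | rfl
  · have : 2 * N ∣ (N + j + v - y) * t := by
      refine ⟨l - k - m2 - ε + t' - 1, ?_⟩
      have : 2 * ((N + j + v - y) * t) = 2 * (2 * N * (l - k - m2 - ε + t' - 1)) := by
        linear_combination 2 * hl - 2 * hk - e2 + h * hw + 2 * N * ht'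
      omega
    have h3 := hc.dvd_of_dvd_mul_right this
    by_cases h4 : j + v - y ≤ 0
    · have := not_dvd_of_small h3 (by omega) (by omega); omega
    · have := not_dvd_of_small (h3.sub (dvd_refl _)) (by omega) (by omega); omega
  · have : 2 * N ∣ (N + j + h - v - y) * t := by
      refine ⟨l - k + m2 + t', ?_⟩
      have : 2 * ((N + j + h - v - y) * t) = 2 * (2 * N * (l - k + m2 + t')) := by
        linear_combination 2 * hl - 2 * hk + e2 + h * hw + 2 * N * ht'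
      omega
    have h3 := hc.dvd_of_dvd_mul_right this
    by_cases h4 : j + h - v - y ≤ 0
    · have := not_dvd_of_small h3 (by omega) (by omega); omega
    · have := not_dvd_of_small (h3.sub (dvd_refl _)) (by omega) (by omega); omega
  · have h3 : 2 * N ∣ N + i + h - u - x := by
      refine ⟨l - m1 - ε, ?_⟩
      have : 2 * (N + i + h - u - x) = 2 * (2 * N * (l - m1 - ε)) := by
        linear_combination 2 * hl - e1 + h * hw
      omega
    by_cases h4 : i + h - u - x ≤ 0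
    · have := not_dvd_of_small h3 (by omega) (by omega); omega
    · have := not_dvd_of_small (h3.sub (dvd_refl _)) (by omega) (by omega); omega
  · have h3 : 2 * N ∣ N + i + u - x := by
      refine ⟨l + m1, ?_⟩
      have : 2 * (N + i + u - x) = 2 * (2 * N * (l + m1)) := by
        linear_combination 2 * hl + e1 + h * hw
      omega
    by_cases h4 : i + u - x ≤ 0
    · have := not_dvd_of_small h3 (by omega) (by omega); omega
    · have := not_dvd_of_small (h3.sub (dvd_refl _)) (by omega) (by omega); omega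

lemma not_covB_even_one {n h : ℕ} {t : ℤ} (hn : n % 2 = 0) (hN : 2 * h + 2 ≤ n)
    (ht : t % 2 = 1) (hc : IsCoprime (n : ℤ) t) : ¬ CovB n h 1 t := by
  intro H
  obtain ⟨N, hN'⟩ : ∃ N : ℤ, (n : ℤ) = 2 * N := ⟨n / 2, by omega⟩
  obtain ⟨w, hw⟩ : ∃ w, 1 + t = 2 * w := ⟨(1 + t) / 2, by omega⟩
  obtain ⟨t', ht'⟩ : ∃ t', t = 2 * t' + 1 := ⟨t / 2, by omega⟩
  obtain ⟨x0, y0, a1, a2, a3, a4, a5, a6⟩ := H (h * w)
  obtain ⟨x1, y1, b1, b2, b3, b4, b5, b6⟩ := H (h * w + N)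
  by_cases hP0 : y0 = 0 ∨ y0 = h <;> by_cases hP1 : y1 = 0 ∨ y1 = h
  · rw [hN'] at a6 b6
    obtain ⟨a, ha⟩ := a6
    obtain ⟨b, hb⟩ := b6
    by_cases hy : y0 = y1
    · subst hy
      have : 2 * N ∣ N + x0 - x1 := ⟨b - a, by linear_combination hb - ha⟩
      have := not_dvd_of_small this (by omega) (by omega); omega
    · have hy' : y1 = h - y0 := by omega
      subst hy'
      have : 2 * N ∣ N + h - x0 - x1 := ⟨b + a, by linear_combination hb + ha + h * hw⟩
      have := not_dvd_of_small this (by omega) (by omega); omega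
  · exact not_covB_even_aux hN' (by omega) ht hc H w (h * w) hw 0 (by ring) x0 y0 x1 y1 a1 a2 hP0
      a6 b3 b4 (by omega) b6
  · refine not_covB_even_aux hN' (by omega) ht hc H w (h * w + N) hw 1 (by ring) x1 y1 x0 y0 b1 b2
      hP1 b6 a3 a4 (by omega) ?_
    obtain ⟨a, ha⟩ := a6
    exact ⟨a + 1, by rw [hN'] at ha ⊢; linear_combination ha⟩
  · rw [hN'] at a6 b6 hc
    obtain ⟨a, ha⟩ := a6
    obtain ⟨b, hb⟩ := b6
    by_cases hx : x0 = x1
    · subst hx
      have : 2 * N ∣ (N + y0 - y1) * t := ⟨b - a + t', by linear_combination hb - ha + N * ht'⟩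
      have := not_dvd_of_small (hc.dvd_of_dvd_mul_right this) (by omega) (by omega); omega
    · have hx' : x1 = h - x0 := by omega
      subst hx'
      have : 2 * N ∣ (N + h - y0 - y1) * t :=
        ⟨b + a + t', by linear_combination hb + ha + h * hw + N * ht'⟩
      have := not_dvd_of_small (hc.dvd_of_dvd_mul_right this) (by omega) (by omega); omega

lemma exists_inv {n s : ℤ} (hc : IsCoprime n s) : ∃ s', n ∣ s * s' - 1 ∧ IsCoprime n s' := by
  obtain ⟨a, b, hab⟩ := hc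
  exact ⟨b, ⟨-a, by linear_combination hab⟩, ⟨a, s, by linear_combination hab⟩⟩

theorem not_cov_even {n h : ℕ} (hn : n % 2 = 0) (hN : 2 * h + 2 ≤ n) (a b : ZMod n) :
    ¬ Cov h a b := by
  intro H
  obtain ⟨A, rfl⟩ := ZMod.intCast_surjective a
  obtain ⟨B, rfl⟩ := ZMod.intCast_surjective b
  have K := covB_of_cov A B H
  have hpar : (A + B) % 2 = (A - B) % 2 := by omega
  generalize A + B = s at *
  generalize A - B = t at *
  have hs : s % 2 = 1 := by
    by_contra hs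
    obtain ⟨x, y, -, -, -, -, -, h6⟩ := K 1
    have h2 : (2 : ℤ) ∣ n := by omega
    have h3 := h2.trans h6
    have h4 : (2 : ℤ) ∣ x * s + y * t :=
      (Dvd.dvd.mul_left (by omega) _).add (Dvd.dvd.mul_left (by omega) _)
    omega
  have c1 := coprime_of_covB hN K (Or.inr ⟨hs, by omega⟩)
  have c2 := coprime_of_covB hN K.symm (Or.inr ⟨by omega, hs⟩)
  obtain ⟨s', h1, h2⟩ := exists_inv c1
  have c3 := c2.mul_right h2
  refine not_covB_even_one hn hN ?_ c3 (K.scale h1)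
  by_contra h4
  obtain ⟨p, q, hpq⟩ := c3
  have h5 : (2 : ℤ) ∣ p * n + q * (t * s') :=
    (Dvd.dvd.mul_left (by omega) _).add (Dvd.dvd.mul_left (by omega) _)
  omega

end Pool.Agent.P.MP_c862d8_co
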