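import Pool.Agent.P.MP_c862d8_co.TwoBasic

namespace Pool.Agent.P.MP_c862d8_co

open Finset

lemma noShort_int {n h : ℕ} (s t : ℤ) : NoShort h (s : ZMod n) (t : ZMod n) ↔
    ∀ i j : ℤ, i.natAbs ≤ h → j.natAbs ≤ h → (n : ℤ) ∣ i * s + j * t → i = 0 ∧ j = 0 := by
  unfold NoShort
  refine forall_congr' fun i => forall_congr' fun j => ?_
  rw [← ZMod.intCast_zmod_eq_zero_iff_dvd]
  push_cast
  rfl

lemma noShort_even {n h : ℕ} (hn0 : 0 < n) (hn : n % 2 = 0) (hh : h % 2 = 1) (a b : ZMod n)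
    (H : NoShort h (a + b) (a - b)) : (h + 1) ^ 2 + (h + 1) ≤ n := by
  have : NeZero n := ⟨by omega⟩
  by_contra hlt
  push Not at hlt
  obtain ⟨A, rfl⟩ := ZMod.intCast_surjective a
  obtain ⟨B, rfl⟩ := ZMod.intCast_surjective b
  have hsq := noShort_sq_le H
  obtain ⟨c, hc, hc'⟩ := noShort_vec H hlt
  obtain ⟨d, hd, hd'⟩ := noShort_vec H.symm hlt
  rw [← Int.cast_add, ← Int.cast_sub] at H hc' hd'
  have hpar : (A + B) % 2 = (A - B) % 2 := by omega
  generalize A + B = s at *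
  generalize A - B = t at *
  have hc2 : (n : ℤ) ∣ (h + 1) * s + c * t := by
    rw [← ZMod.intCast_zmod_eq_zero_iff_dvd]; push_cast at hc' ⊢; exact hc'
  have hd2 : (n : ℤ) ∣ (h + 1) * t + d * s := by
    rw [← ZMod.intCast_zmod_eq_zero_iff_dvd]; push_cast at hd' ⊢; exact hd'
  rw [noShort_int] at H
  -- the gcd
  set g : ℕ := Int.gcd (Int.gcd s t) n with hg
  have g1 : (g : ℤ) ∣ s := (Int.gcd_dvd_left _ _).trans (Int.gcd_dvd_left _ _)
  have g2 : (g : ℤ) ∣ t := (Int.gcd_dvd_left _ _).trans (Int.gcd_dvd_right _ _)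
  have g3 : (g : ℤ) ∣ n := Int.gcd_dvd_right _ _
  have g0 : 0 < g := Int.gcd_pos_of_ne_zero_right _ (by omega)
  have hg1 : g = 1 := by
    by_contra hne
    obtain ⟨s', hs'⟩ := g1
    obtain ⟨t', ht'⟩ := g2
    obtain ⟨n', hn'⟩ := Int.natCast_dvd_natCast.1 g3
    have hn'0 : 0 < n' := Nat.pos_of_ne_zero (by rintro rfl; omega)
    have : NeZero n' := ⟨by omega⟩
    have H' : NoShort h (s' : ZMod n') (t' : ZMod n') := by
      rw [noShort_int]
      intro i j hi hj hdv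
      refine H i j hi hj ?_
      rw [hs', ht', hn']
      obtain ⟨e, he⟩ := hdv
      exact ⟨e, by push_cast; linear_combination (g : ℤ) * he⟩
    have := noShort_sq_le H'
    have : 2 * n' ≤ n := by rw [hn']; exact Nat.mul_le_mul_right _ (by omega)
    nlinarith
  have bez : ∃ x y z : ℤ, x * s + y * t + z * n = 1 := by
    have e1 := Int.gcd_eq_gcd_ab (Int.gcd s t : ℤ) n
    have e2 := Int.gcd_eq_gcd_ab s t
    rw [← hg, hg1] at e1
    generalize Int.gcdA (Int.gcd s t : ℤ) n = p at e1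
    generalize Int.gcdB (Int.gcd s t : ℤ) n = q at e1
    refine ⟨Int.gcdA s t * p, Int.gcdB s t * p, q, ?_⟩
    push_cast at e1
    rw [e2] at e1
    linear_combination -e1
  obtain ⟨x, y, z, hb⟩ := bez
  obtain ⟨α, hα⟩ := hc2
  obtain ⟨β, hβ⟩ := hd2
  obtain ⟨N, hN⟩ : ∃ N : ℤ, (n : ℤ) = 2 * N := ⟨n / 2, by omega⟩
  obtain ⟨k, hk⟩ : ∃ k : ℤ, (h : ℤ) + 1 = 2 * k := ⟨(h + 1) / 2, by omega⟩
  have hs : s % 2 = 1 := by
    by_contra hs
    obtain ⟨s', rfl⟩ : ∃ s', s = 2 * s' := ⟨s / 2, by omega⟩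
    obtain ⟨t', rfl⟩ : ∃ t', t = 2 * t' := ⟨t / 2, by omega⟩
    have : 2 * (x * s' + y * t' + z * N) = 1 := by rw [hN] at hb; linear_combination hb
    omega
  have ht : t % 2 = 1 := by omega
  have hce : c % 2 = 0 := by
    obtain ⟨t', rfl⟩ : ∃ t', t = 2 * t' + 1 := ⟨t / 2, by omega⟩
    have : c = 2 * (N * α - k * s - c * t') := by rw [hN, hk] at hα; linear_combination hα
    omega
  have hDs : ((h + 1 : ℤ) ^ 2 - c * d) * s = n * ((h + 1) * α - c * β) := by
    linear_combination (h + 1 : ℤ) * hα - c * hβ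
  have hDt : ((h + 1 : ℤ) ^ 2 - c * d) * t = n * ((h + 1) * β - d * α) := by
    linear_combination (h + 1 : ℤ) * hβ - d * hα
  have hcd : |c * d| ≤ (h : ℤ) ^ 2 := by
    rw [abs_mul, sq]
    exact mul_le_mul (by rw [abs_le]; omega) (by rw [abs_le]; omega) (abs_nonneg _) (by positivity)
  obtain ⟨e, he⟩ : (n : ℤ) ∣ (h + 1 : ℤ) ^ 2 - c * d :=
    ⟨x * ((h + 1) * α - c * β) + y * ((h + 1) * β - d * α) + z * ((h + 1 : ℤ) ^ 2 - c * d), by
      linear_combination x * hDs + y * hDt - ((h + 1 : ℤ) ^ 2 - c * d) * hb⟩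
  have hsq' : ((h : ℤ) + 1) ^ 2 ≤ n := by exact_mod_cast hsq
  have hn0' : (0 : ℤ) < n := by omega
  have hh0 : (0 : ℤ) ≤ h := by omega
  rw [abs_le] at hcd
  have e1 : e = 1 := by
    have : 0 < e := by
      by_contra h0
      have : (n : ℤ) * e ≤ 0 := mul_nonpos_of_nonneg_of_nonpos hn0'.le (by omega)
      nlinarith
    have : e < 2 := by
      by_contra h0
      have : (n : ℤ) * 2 ≤ n * e := mul_le_mul_of_nonneg_left (by omega) hn0'.le
      nlinarith
    omega
  rw [he, e1, mul_one] at hDs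
  have := mul_left_cancel₀ hn0'.ne' hDs
  obtain ⟨c', rfl⟩ : ∃ c', c = 2 * c' := ⟨c / 2, by omega⟩
  have : s = 2 * (k * α - c' * β) := by rw [hk] at this; linear_combination this
  omega

lemma noShort_example {n h : ℕ} (s : ℕ) (hs : h + 1 ≤ s) (hn : h * s + h < n) :
    NoShort h ((s : ℤ) : ZMod n) ((1 : ℤ) : ZMod n) := by
  rw [noShort_int]
  intro i j hi hj hd
  have h1 : |i * s| ≤ h * s := by
    rw [abs_mul, Nat.abs_cast]
    exact mul_le_mul_of_nonneg_right (by rw [abs_le]; omega) (by positivity)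
  have hn' : (h : ℤ) * s + h < n := by exact_mod_cast hn
  rw [abs_le] at h1
  have h0 : i * s + j * 1 = 0 := Int.eq_zero_of_abs_lt_dvd hd (by rw [abs_lt]; omega)
  have hi0 : i = 0 := by
    by_contra hne
    rcases lt_or_gt_of_ne hne with h2 | h2
    · have : i * s ≤ (-1) * s := mul_le_mul_of_nonneg_right (by omega) (by positivity)
      omega
    · have : 1 * (s : ℤ) ≤ i * s := mul_le_mul_of_nonneg_right (by omega) (by positivity)
      omega
  subst hi0
  omega

lemma exists_inj {n h : ℕ} (hh : 1 ≤ h) (s : ℕ) (hs : h + 1 ≤ s) (hn : h * s + h < n)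
    (hp : s % 2 = 1 ∨ n % 2 = 1) : ∃ a b : ZMod n, a ≠ b ∧ Inj h a b := by
  obtain ⟨A, hA⟩ : ∃ A : ℤ, (n : ℤ) ∣ 2 * A - 1 - s := by
    by_cases h1 : s % 2 = 1
    · exact ⟨(s + 1) / 2, 0, by omega⟩
    · exact ⟨(s + 1 + n) / 2, 1, by omega⟩
  have hA' : (2 * A - 1 : ZMod n) = s := by
    have := (ZMod.intCast_zmod_eq_zero_iff_dvd _ _).2 hA
    push_cast at this
    linear_combination this
  have H := noShort_example s hs hn
  refine ⟨A, A - 1, ?_, ?_⟩
  · intro e
    have := H 0 1 (by simp) (by simpa using hh) (by push_cast; linear_combination e)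
    omega
  · rw [inj_iff_noShort]
    convert H using 1
    · push_cast; linear_combination hA'
    · push_cast; ring

/-- the packing side -/
theorem packing {n h : ℕ} (hh : 2 ≤ h) (H : 4 * h ≤ n) :
    nu n 2 h < min n (c h 2) ↔
      n ≤ h ^ 2 + 2 * h ∨ (h % 2 = 1 ∧ n % 2 = 0 ∧ n ≤ h ^ 2 + 3 * h) := by
  have : NeZero n := ⟨by omega⟩
  rw [nu_lt_iff_inj hh H]
  constructor
  · intro K
    by_contra hc
    push Not at hc
    obtain ⟨h1, h2⟩ := hc
    by_cases h3 : h % 2 = 1 ∧ n % 2 = 0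
    · have h4 := h2 h3.1 h3.2
      have h5 : (h ^ 2 + 3 * h) % 2 = 0 := by
        have : h ^ 2 % 2 = 1 := by rw [Nat.pow_mod, h3.1]
        omega
      obtain ⟨a, b, hab, hI⟩ := exists_inj (n := n) (h := h) (by omega) (h + 2) (by omega)
        (by nlinarith) (by omega)
      exact K a b hab hI
    · obtain ⟨a, b, hab, hI⟩ := exists_inj (n := n) (h := h) (by omega) (h + 1) (by omega)
        (by nlinarith) (by omega)
      exact K a b hab hI
  · intro K a b _ hI
    rw [inj_iff_noShort] at hI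
    rcases K with K | ⟨K1, K2, K3⟩
    · have := noShort_sq_le hI
      nlinarith
    · have := noShort_even (by omega) K2 K1 a b hI
      nlinarith

end Pool.Agent.P.MP_c862d8_co
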