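import Pool.Agent.P.MP_c862d8_co.TwoCov

namespace Pool.Agent.P.MP_c862d8_co

/-- bit mask of the residues covered by the first `k` points of each side of the box -/
def mask (n h t : ℕ) : ℕ → ℕ
  | 0 => 0
  | k + 1 => mask n h t k ||| (1 <<< (k * t % n) ||| 1 <<< ((h + k * t) % n) |||
      1 <<< (k % n) ||| 1 <<< ((k + h * t) % n))

lemma mask_testBit (n h t k y : ℕ) (hy : y < k) :
    (mask n h t k).testBit (y * t % n) ∧ (mask n h t k).testBit ((h + y * t) % n) ∧
    (mask n h t k).testBit (y % n) ∧ (mask n h t k).testBit ((y + h * t) % n) := by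
  induction k with
  | zero => omega
  | succ k ih =>
    rcases Nat.lt_succ_iff_lt_or_eq.1 hy with h1 | rfl
    · obtain ⟨a, b, c, d⟩ := ih h1
      simp [mask, Nat.testBit_or, a, b, c, d]
    · simp [mask, Nat.testBit_or, Nat.one_shiftLeft, Nat.testBit_two_pow]

/-- the finite check -/
def smallCheck (g : ℕ) : Bool :=
  (List.range (8 * g + 1)).all fun n =>
    n % 2 = 0 || n ≤ 5 * g || n < 4 * g + 3 ||
      (List.range n).all fun t => (mask n (2 * g) t (2 * g + 1)) % 2 ^ n != 2 ^ n - 1

lemma smallCheck_all : (List.range 17).all smallCheck = true := by decide +kernel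

lemma not_covB_small {n g : ℕ} (hg : g ≤ 16) (hn : n % 2 = 1) (n0 : 4 * g + 3 ≤ n)
    (n1 : 5 * g < n) (n2 : n ≤ 8 * g) (t : ℤ) : ¬ CovB n (2 * g) 1 t := by
  intro H
  have hn0 : (0 : ℤ) < n := by omega
  obtain ⟨τ, hτ⟩ := Int.eq_ofNat_of_zero_le (Int.emod_nonneg t hn0.ne')
  have hτn : τ < n := by have := Int.emod_lt_of_pos t hn0; omega
  have H' : CovB n (2 * g) 1 τ := H.congr (by rw [← hτ]; exact Int.dvd_self_sub_emod)
  have h1 := List.all_eq_true.1 smallCheck_all g (List.mem_range.2 (by omega))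
  have h2 := List.all_eq_true.1 h1 n (List.mem_range.2 (by omega))
  simp only [Bool.or_eq_true, decide_eq_true_eq] at h2
  rcases h2 with ((h2 | h2) | h2) | h2
  · omega
  · omega
  · omega
  have h3 := List.all_eq_true.1 h2 τ (List.mem_range.2 hτn)
  simp only [bne_iff_ne, ne_eq] at h3
  refine h3 (Nat.eq_of_testBit_eq fun z => ?_)
  rw [Nat.testBit_mod_two_pow, Nat.testBit_two_pow_sub_one]
  by_cases hz : z < n
  · simp only [hz, decide_true, Bool.true_and]
    obtain ⟨x, y, a1, a2, a3, a4, a5, a6⟩ := H' z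
    obtain ⟨x, rfl⟩ := Int.eq_ofNat_of_zero_le a1
    obtain ⟨y, rfl⟩ := Int.eq_ofNat_of_zero_le a3
    have e : z = (x + y * τ) % n := by
      have : (x + y * τ) ≡ z [MOD n] := (Nat.modEq_iff_dvd).2 (by simpa using a6)
      rw [this, Nat.mod_eq_of_lt hz]
    have hx := mask_testBit n (2 * g) τ (2 * g + 1) x (by omega)
    have hy := mask_testBit n (2 * g) τ (2 * g + 1) y (by omega)
    rcases a5 with h | h | h | h
    · have : x = 0 := by omega
      subst this; rw [e, Nat.zero_add]; exact hy.1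
    · have : x = 2 * g := by omega
      subst this; rw [e]; exact hy.2.1
    · have : y = 0 := by omega
      subst this; rw [e, Nat.zero_mul, Nat.add_zero]; exact hx.2.2.1
    · have : y = 2 * g := by omega
      subst this; rw [e]; exact hx.2.2.2
  · simp [hz]

end Pool.Agent.P.MP_c862d8_co
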