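import Pool.Agent.P.MP_c862d8_co.TwoOddEven
import Pool.Agent.P.MP_c862d8_co.TwoSmall
import Pool.Agent.P.MP_c862d8_co.TwoPack

namespace Pool.Agent.P.MP_c862d8_co

lemma core_even {n g t c d C γ η ζ : ℤ} (D : Data n g t c d C γ η ζ) (hc : IsCoprime n t)
    (e1 : n ∣ c + g * t) (e2 : n ∣ g - t * d) (H : Con n (2 * g) t C γ) : False := by
  have D' := D
  obtain ⟨hn, n0, n1, n2, t0, t1, b1, b2, d1, d2, hC, hγ, hη, hζ⟩ := D'
  obtain ⟨N, hN⟩ : ∃ N : ℤ, n + 1 = 2 * N := ⟨(n + 1) / 2, by omega⟩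
  have C0 : 0 ≤ C := by omega
  have C1 : C ≤ 2 * g := by omega
  obtain ⟨k1, e1'⟩ := id e1
  obtain ⟨k2, e2'⟩ := id e2
  clear hC hγ
  by_cases q1 : 5 * t ≤ n
  · refine fin1 D q1 e1 e2 (fun hz => ?_) (fun hz => ?_)
    · have := (H.walk 1 t 0 0 (η - 1) (by omega) (fun k k1 k2 => by omega) (by simp) (by omega)
        (by omega) (by omega) (by omega) (by simp)).1
      simpa using this
    · obtain ⟨i, g1, g2, g3, g4⟩ := H.start hN t0.le (by omega) (by omega) (by omega)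
      have := (H.walk 1 t N i (ζ - 1) (by omega) (fun k k1 k2 => by omega) (by simp) (by omega)
        (by omega) g1 g2 g3).1
      generalize (ζ - 1) * t = u at *
      omega
  by_cases q2 : 2 * n ≤ 5 * t
  · obtain ⟨ρ, hρ⟩ : ∃ ρ, ρ = n - 2 * t := ⟨_, rfl⟩
    refine fin2 D q2 hρ ⟨2 * k1 - g, by rw [hρ]; linear_combination 2 * e1'⟩
      ⟨2 * k2 + d, by rw [hρ]; linear_combination 2 * e2'⟩ ?_ (fun hz ht => ?_) (fun hz ht => ?_)
    · by_contra hz
      obtain ⟨i, g1, g2, g3⟩ := H 1 (by omega)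
      have := not_dvd_of_small g3 (by omega) (by omega)
      omega
    · obtain ⟨i, g1, g2, g3, g4⟩ := H.start hN t0.le (by omega) (by omega) (by omega)
      have := (H.walk (-2) ρ N i (ζ / 2) (by omega) (fun k k1 k2 => by omega)
        ⟨1, by rw [hρ]; ring⟩ (by omega) (by omega) g1 g2 g3).1
      generalize ζ / 2 * ρ = u at *
      omega
    · obtain ⟨i, g1, g2, g3, g4⟩ := H.start hN t0.le (by omega) (by omega) (by omega)
      have := (H.walk 2 (-ρ) N i ((ζ - 1) / 2) (by omega) (fun k k1 k2 => by omega)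
        ⟨-1, by rw [hρ]; ring⟩ (by omega) (by omega) g1 g2 g3).2
      rw [mul_neg] at this
      generalize (ζ - 1) / 2 * ρ = u at *
      omega
  have next : 2 ≤ ζ → t % 2 = 0 → n ∣ 3 * (t / 2) - t * (N + 1) := by
    intro _ ht
    obtain ⟨t', rfl⟩ : ∃ t', t = 2 * t' := ⟨t / 2, by omega⟩
    refine ⟨-t', ?_⟩
    rw [Int.mul_ediv_cancel_left _ (by norm_num)]
    linear_combination t' * hN
  by_cases q3 : 4 * n ≤ 15 * t
  · have one : 2 ≤ η → 2 * t ≤ 2 * g + C := by
      intro hz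
      obtain ⟨i, g1, g2, g3⟩ := H 1 (by omega)
      have := not_dvd_of_small g3 (by omega) (by omega)
      omega
    have par : 2 ≤ ζ → t % 2 = 1 := by
      intro hz
      by_contra ht
      obtain ⟨i, g1, g2, g3⟩ := H (N + 1) (by omega)
      have g4 := g3.sub (next hz (by omega))
      have e : i - t * (N + 1) - (3 * (t / 2) - t * (N + 1)) = i - 3 * (t / 2) := by ring
      rw [e] at g4
      obtain ⟨k, a1, a2, a3⟩ := dvd_cases g4 2 (by omega) (by omega) (by omega)
      clear g3 g4 next one e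
      interval_cases k <;> omega
    clear next
    rcases lt_trichotomy (3 * t) n with h3 | h3 | h3
    · obtain ⟨r, hr⟩ : ∃ r, r = n - 3 * t := ⟨_, rfl⟩
      refine fin3n D q3 hr (by omega) ⟨3 * k1 - g, by rw [hr]; linear_combination 3 * e1'⟩
        ⟨3 * k2 + d, by rw [hr]; linear_combination 3 * e2'⟩ (fun hz => ?_) par (fun hz ht => ?_)
      · have h1 := one hz
        have := (H.walk (-3) r 1 t (η / 3) (by omega) (fun k k1 k2 => by omega)
          ⟨1, by rw [hr]; ring⟩ (by omega) (by omega) (by omega) (by omega) (by simp)).1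
        generalize η / 3 * r = u at *
        omega
      · obtain ⟨i, g1, g2, g3, g4⟩ := H.start hN t0.le (by omega) (by omega) (by omega)
        have := (H.walk 3 (-r) N i ((ζ - 1) / 3) (by omega) (fun k k1 k2 => by omega)
          ⟨-1, by rw [hr]; ring⟩ (by omega) (by omega) g1 g2 g3).2
        rw [mul_neg] at this
        generalize (ζ - 1) / 3 * r = u at *
        omega
    · obtain ⟨p, q, hpq⟩ := hc
      have : t ∣ 1 := ⟨3 * p + q, by rw [← h3] at hpq; linear_combination -hpq⟩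
      have := Int.le_of_dvd (by norm_num) this
      omega
    · obtain ⟨r, hr⟩ : ∃ r, r = 3 * t - n := ⟨_, rfl⟩
      refine fin3p D (by omega) hr (by omega) ⟨3 * k1 - g, by rw [hr]; linear_combination 3 * e1'⟩
        ⟨3 * k2 + d, by rw [hr]; linear_combination 3 * e2'⟩ (fun hz => ?_) par (fun hz ht => ?_)
      · have h1 := one hz
        have := (H.walk 3 r 1 t ((η - 2) / 3) (by omega) (fun k k1 k2 => by omega)
          ⟨-1, by rw [hr]; ring⟩ (by omega) (by omega) (by omega) (by omega) (by simp)).1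
        generalize (η - 2) / 3 * r = u at *
        omega
      · obtain ⟨i, g1, g2, g3, g4⟩ := H.start hN t0.le (by omega) (by omega) (by omega)
        have := (H.walk (-3) (-r) N i (ζ / 3) (by omega) (fun k k1 k2 => by omega)
          ⟨1, by rw [hr]; ring⟩ (by omega) (by omega) g1 g2 g3).2
        rw [mul_neg] at this
        generalize ζ / 3 * r = u at *
        omega
  · have two : η ≤ 2 := by
      by_contra hz
      obtain ⟨i, g1, g2, g3⟩ := H 2 (by omega)
      obtain ⟨k, a1, a2, a3⟩ := dvd_cases g3 2 (by omega) (by omega) (by omega)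
      clear g3 next
      interval_cases k <;> omega
    have nx : 2 ≤ ζ → t % 2 = 0 → 2 * (3 * (t / 2)) ≤ 2 * g + C := by
      intro hz ht
      obtain ⟨i, g1, g2, g3⟩ := H (N + 1) (by omega)
      have g4 := g3.sub (next hz ht)
      have e : i - t * (N + 1) - (3 * (t / 2) - t * (N + 1)) = i - 3 * (t / 2) := by ring
      rw [e] at g4
      have := not_dvd_of_small g4 (by omega) (by omega)
      omega
    rcases lt_trichotomy (4 * t) n with h3 | h3 | h3
    · obtain ⟨r, hr⟩ : ∃ r, r = n - 4 * t := ⟨_, rfl⟩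
      refine fin4n D (by omega) hr (by omega) ⟨4 * k1 - g, by rw [hr]; linear_combination 4 * e1'⟩
        two (fun hz ht => ?_) (fun hz ht => ?_)
      · have h1 := nx hz ht
        have h2 := next hz ht
        clear nx next
        have := (H.walk (-4) r (N + 1) (3 * (t / 2)) ((ζ + 1) / 4) (by omega)
          (fun k k1 k2 => by omega)
          ⟨1, by rw [hr]; ring⟩ (by omega) (by omega) (by omega) (by omega) h2).1
        generalize (ζ + 1) / 4 * r = u at *
        omega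
      · clear nx next
        obtain ⟨i, g1, g2, g3, g4⟩ := H.start hN t0.le (by omega) (by omega) (by omega)
        have := (H.walk 4 (-r) N i ((ζ - 1) / 4) (by omega) (fun k k1 k2 => by omega)
          ⟨-1, by rw [hr]; ring⟩ (by omega) (by omega) g1 g2 g3).2
        rw [mul_neg] at this
        generalize (ζ - 1) / 4 * r = u at *
        omega
    · omega
    · obtain ⟨r, hr⟩ : ∃ r, r = 4 * t - n := ⟨_, rfl⟩
      refine fin4p D (by omega) hr (by omega) ⟨4 * k1 - g, by rw [hr]; linear_combination 4 * e1'⟩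
        two (fun hz ht => ?_) (fun hz ht => ?_)
      · have h1 := nx hz ht
        have h2 := next hz ht
        clear nx next
        have := (H.walk 4 r (N + 1) (3 * (t / 2)) ((ζ - 2) / 4) (by omega)
          (fun k k1 k2 => by omega)
          ⟨-1, by rw [hr]; ring⟩ (by omega) (by omega) (by omega) (by omega) h2).1
        generalize (ζ - 2) / 4 * r = u at *
        omega
      · clear nx next
        obtain ⟨i, g1, g2, g3, g4⟩ := H.start hN t0.le (by omega) (by omega) (by omega)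
        have := (H.walk (-4) (-r) N i (ζ / 4) (by omega) (fun k k1 k2 => by omega)
          ⟨1, by rw [hr]; ring⟩ (by omega) (by omega) g1 g2 g3).2
        rw [mul_neg] at this
        generalize ζ / 4 * r = u at *
        omega

theorem not_cov_odd_even {n h : ℕ} (hn : n % 2 = 1) (hh : h % 2 = 0) (n0 : 2 * h + 2 ≤ n)
    (n1 : 5 * h < 2 * n) (n2 : n ≤ 4 * h) (a b : ZMod n) : ¬ Cov h a b := by
  intro H
  obtain ⟨g, rfl⟩ : ∃ g, h = 2 * g := ⟨h / 2, by omega⟩
  by_cases hg : g ≤ 16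
  · obtain ⟨A, rfl⟩ := ZMod.intCast_surjective a
    obtain ⟨B, rfl⟩ := ZMod.intCast_surjective b
    have K := covB_of_cov A B H
    obtain ⟨s', h1, -⟩ := exists_inv (coprime_of_covB n0 K (Or.inl hn))
    exact not_covB_small hg hn (by omega) (by omega) (by omega) _ (K.scale h1)
  obtain ⟨t, c1, c2, g1, g2, g3, g4, g5, g6, g7, g8, g9, g10, g11, g12⟩ :=
    normal_form hn n0 a b H
  obtain ⟨c, rfl⟩ : ∃ c, c1 = 2 * c := ⟨c1 / 2, by omega⟩
  obtain ⟨d, rfl⟩ : ∃ d, c2 = 2 * d := ⟨c2 / 2, by omega⟩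
  have hc2 : IsCoprime (n : ℤ) 2 := ⟨-1, (n + 1) / 2, by omega⟩
  push_cast at g5 g6 g9 g10 g12
  have t0 : t ≠ 0 := by
    rintro rfl
    have := not_dvd_of_small g10 (by omega) (by omega); omega
  refine core_even (g := g) (c := c) (d := d) (η := max d (-d) - g)
    (ζ := (n - 1) / 2 - max d (-d) - g) ⟨by omega, by omega, by omega, by omega, by omega, g2,
      by omega, by omega, g7, g8, rfl, rfl, by omega, by omega⟩ g11 ?_ ?_ g12
  · exact hc2.dvd_of_dvd_mul_left (by rwa [show 2 * (c + g * t) = 2 * c + 2 * g * t by ring])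
  · exact hc2.dvd_of_dvd_mul_left (by rwa [show 2 * (g - t * d) = 2 * g - t * (2 * d) by ring])

/-! ### covering pairs -/

lemma cov_of_int {n h : ℕ} (A B : ℤ)
    (H : ∀ z : ℤ, ∃ u v : ℤ, u.natAbs + v.natAbs = h ∧ (n : ℤ) ∣ z - (u * A + v * B)) :
    Cov h (A : ZMod n) (B : ZMod n) := by
  intro z
  obtain ⟨z, rfl⟩ := ZMod.intCast_surjective z
  obtain ⟨u, v, h1, h2⟩ := H z
  refine ⟨u, v, h1, ?_⟩
  have := (ZMod.intCast_eq_intCast_iff_dvd_sub _ _ _).2 h2
  push_cast at this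
  exact this

lemma exists_rep {n : ℕ} (hn : 0 < n) (z lo : ℤ) : ∃ w : ℤ, lo ≤ w ∧ w < lo + n ∧ (n : ℤ) ∣ z - w := by
  have hn0 : (0 : ℤ) < n := by omega
  refine ⟨lo + (z - lo) % n, by have := Int.emod_nonneg (z - lo) hn0.ne'; omega,
    by have := Int.emod_lt_of_pos (z - lo) hn0; omega, ?_⟩
  have := Int.dvd_self_sub_emod (x := z - lo) (m := n)
  convert this using 1; ring

lemma cast_ne {n : ℕ} (A B : ℤ) (h1 : A < B) (h2 : B - A < n) : (A : ZMod n) ≠ B := by
  rw [Ne, ZMod.intCast_eq_intCast_iff_dvd_sub]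
  intro h
  have := not_dvd_of_small h (by omega) (by omega)
  omega

lemma cov_small {n h : ℕ} (hn : 2 ≤ n) (H : n ≤ 2 * h + 1) :
    ∃ a b : ZMod n, a ≠ b ∧ Cov h a b := by
  refine ⟨((0 : ℤ) : ZMod n), ((1 : ℤ) : ZMod n), cast_ne _ _ (by omega) (by omega),
    cov_of_int _ _ fun z => ?_⟩
  obtain ⟨w, h1, h2, h3⟩ := exists_rep (n := n) (by omega) z (-h)
  exact ⟨h - w.natAbs, w, by omega, by simpa using h3⟩

lemma cov_odd {n h : ℕ} (hn : 3 ≤ n) (p : n % 2 = 1) (q : h % 2 = 1) (H : n ≤ 3 * h) :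
    ∃ a b : ZMod n, a ≠ b ∧ Cov h a b := by
  refine ⟨((1 : ℤ) : ZMod n), ((3 : ℤ) : ZMod n), cast_ne _ _ (by omega) (by omega),
    cov_of_int _ _ fun z => ?_⟩
  obtain ⟨w, h1, h2, h3, h4⟩ : ∃ w : ℤ, -n ≤ w ∧ w ≤ n ∧ w % 2 = 1 ∧ (n : ℤ) ∣ z - w := by
    obtain ⟨w, h1, h2, h3⟩ := exists_rep (n := n) (by omega) z 0
    by_cases hw : w % 2 = 1
    · exact ⟨w, by omega, by omega, hw, h3⟩
    · exact ⟨w - n, by omega, by omega, by omega, by
        have := h3.add (dvd_refl _); rwa [show z - w + n = z - (w - n) by ring] at this⟩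
  have fin : ∀ u v : ℤ, u.natAbs + v.natAbs = h → u * 1 + v * 3 = w →
      ∃ u v : ℤ, u.natAbs + v.natAbs = h ∧ (n : ℤ) ∣ z - (u * 1 + v * 3) :=
    fun u v a b => ⟨u, v, a, by rw [b]; exact h4⟩
  clear h4
  by_cases c1 : h ≤ w
  · exact fin (h - (w - h) / 2) ((w - h) / 2) (by omega) (by omega)
  by_cases c2 : w ≤ -h
  · exact fin (-(h - (-w - h) / 2)) (-((-w - h) / 2)) (by omega) (by omega)
  by_cases c3 : (w + h) % 4 = 0
  · exact fin (-(h - (w + h) / 4)) ((w + h) / 4) (by omega) (by omega)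
  · exact fin (h - (h - w) / 4) (-((h - w) / 4)) (by omega) (by omega)

lemma cov_two_mod_four {n h : ℕ} (hn : 3 ≤ n) (p : n % 2 = 1) (q : h % 4 = 2)
    (H : 2 * n ≤ 5 * h) : ∃ a b : ZMod n, a ≠ b ∧ Cov h a b := by
  refine ⟨((3 : ℤ) : ZMod n), ((5 : ℤ) : ZMod n), cast_ne _ _ (by omega) (by omega),
    cov_of_int _ _ fun z => ?_⟩
  obtain ⟨w, h1, h2, h3, h4⟩ : ∃ w : ℤ, -(2 * n) ≤ w ∧ w ≤ 2 * n ∧ w % 4 = 2 ∧ (n : ℤ) ∣ z - w := by
    obtain ⟨w, h1, h2, h3⟩ := exists_rep (n := n) (by omega) z 0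
    have sh : ∀ k : ℤ, (n : ℤ) ∣ z - (w + k * n) := fun k => by
      have := h3.sub (Dvd.intro_left k rfl); rwa [show z - w - k * n = z - (w + k * n) by ring] at this
    by_cases a0 : (w + 0 * n) % 4 = 2
    · exact ⟨_, by omega, by omega, a0, sh 0⟩
    by_cases a1 : (w + 1 * n) % 4 = 2
    · exact ⟨_, by omega, by omega, a1, sh 1⟩
    by_cases a2 : (w + (-1) * n) % 4 = 2
    · exact ⟨_, by omega, by omega, a2, sh (-1)⟩
    · exact ⟨w + (-2) * n, by omega, by omega, by omega, sh (-2)⟩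
  have fin : ∀ u v : ℤ, u.natAbs + v.natAbs = h → u * 3 + v * 5 = w →
      ∃ u v : ℤ, u.natAbs + v.natAbs = h ∧ (n : ℤ) ∣ z - (u * 3 + v * 5) :=
    fun u v a b => ⟨u, v, a, by rw [b]; exact h4⟩
  clear h4
  by_cases c1 : 3 * h ≤ w
  · exact fin (h - (w - 3 * h) / 2) ((w - 3 * h) / 2) (by omega) (by omega)
  by_cases c2 : w ≤ -(3 * h)
  · exact fin (-(h - (-w - 3 * h) / 2)) (-((-w - 3 * h) / 2)) (by omega) (by omega)
  by_cases c3 : (w + 3 * h) % 8 = 0
  · exact fin (-(h - (w + 3 * h) / 8)) ((w + 3 * h) / 8) (by omega) (by omega)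
  · exact fin (h - (3 * h - w) / 8) (-((3 * h - w) / 8)) (by omega) (by omega)

theorem two_elements (n h : ℕ) (hn : 2 ≤ n) (hh : 2 ≤ h)
    (hw : ¬ (h % 4 = 0 ∧ n % 2 = 1 ∧ 2 * h + 3 ≤ n ∧ 2 * n ≤ 5 * h)) :
    nu n 2 h < min n (c h 2) ↔
      (n % 2 = 0 ∧ h % 2 = 0 ∧ 2 * h + 2 ≤ n ∧ n ≤ h ^ 2 + 2 * h) ∨
      (n % 2 = 0 ∧ h % 2 = 1 ∧ 2 * h + 2 ≤ n ∧ n ≤ h ^ 2 + 3 * h) ∨
      (n % 2 = 1 ∧ h % 2 = 1 ∧ 3 * h < n ∧ n ≤ h ^ 2 + 2 * h) ∨
      (n % 2 = 1 ∧ h % 2 = 0 ∧ 2 * h + 3 ≤ n ∧ 5 * h < 2 * n ∧ n ≤ h ^ 2 + 2 * h) := by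
  have hsq : 2 * h ≤ h ^ 2 := by nlinarith
  rcases le_total n (4 * h) with H | H
  · rw [nu_lt_iff_cov hn hh H]
    constructor
    · intro K
      have k1 : 2 * h + 2 ≤ n := by
        by_contra hc
        obtain ⟨a, b, hab, hI⟩ := cov_small (n := n) (h := h) hn (by omega)
        exact K a b hab hI
      have k2 : n % 2 = 1 → h % 2 = 1 → 3 * h < n := by
        intro p q
        by_contra hc
        obtain ⟨a, b, hab, hI⟩ := cov_odd (n := n) (h := h) (by omega) p q (by omega)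
        exact K a b hab hI
      have k3 : n % 2 = 1 → h % 4 = 2 → 5 * h < 2 * n := by
        intro p q
        by_contra hc
        obtain ⟨a, b, hab, hI⟩ := cov_two_mod_four (n := n) (h := h) (by omega) p q (by omega)
        exact K a b hab hI
      generalize h ^ 2 = s at *
      omega
    · intro K a b _
      rcases K with K | K | K | K
      · exact not_cov_even K.1 K.2.2.1 a b
      · exact not_cov_even K.1 K.2.2.1 a b
      · exact not_cov_odd K.1 K.2.1 hh K.2.2.1 H a b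
      · exact not_cov_odd_even K.1 K.2.1 (by omega) K.2.2.2.1 H a b
  · rw [packing hh H]
    generalize h ^ 2 = s at *
    omega

end Pool.Agent.P.MP_c862d8_co
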