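import Pool.Agent.P.MP_c862d8_co.TwoEven

namespace Pool.Agent.P.MP_c862d8_co

/-- the constraint coming from covering, in centred coordinates -/
def Con (n h t C γ : ℤ) : Prop :=
  ∀ j : ℤ, ((2 * j < γ - h ∧ -(2 * j) < γ - h) ∨ (γ + h < 2 * j ∧ 2 * j < 2 * n - γ - h)) →
    ∃ i : ℤ, 2 * i ≤ h + C ∧ -(2 * i) ≤ h + C ∧ n ∣ i - t * j

lemma Con.neg {n h t C γ : ℤ} (H : Con n h t C γ) : Con n h (-t) C γ := by
  intro j hj
  obtain ⟨i, h1, h2, h3⟩ := H j hj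
  exact ⟨-i, by omega, by omega, by
    obtain ⟨a, ha⟩ := h3; exact ⟨-a, by linear_combination -ha⟩⟩

lemma Con.walk {n h t C γ : ℤ} (H : Con n h t C γ) (q r j0 i0 K : ℤ) (hK : 0 ≤ K)
    (hP : ∀ k : ℤ, 0 ≤ k → k ≤ K →
      ((2 * (j0 + q * k) < γ - h ∧ -(2 * (j0 + q * k)) < γ - h) ∨
        (γ + h < 2 * (j0 + q * k) ∧ 2 * (j0 + q * k) < 2 * n - γ - h)))
    (hr : n ∣ r - t * q) (h1 : h + C + r < n) (h2 : h + C - r < n)
    (h3 : 2 * i0 ≤ h + C) (h4 : -(2 * i0) ≤ h + C) (h5 : n ∣ i0 - t * j0) :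
    2 * (i0 + K * r) ≤ h + C ∧ -(2 * (i0 + K * r)) ≤ h + C := by
  obtain ⟨K, rfl⟩ := Int.eq_ofNat_of_zero_le hK
  induction K with
  | zero => simpa using ⟨h3, h4⟩
  | succ K ih =>
    obtain ⟨g1, g2⟩ := ih (by omega) (fun k k1 k2 => hP k k1 (by omega))
    obtain ⟨i, g3, g4, g5⟩ := H _ (hP ((K + 1 : ℕ) : ℤ) (by omega) le_rfl)
    have e : i0 + ((K + 1 : ℕ) : ℤ) * r = i0 + K * r + r := by push_cast; ring
    have g6 : n ∣ i0 + K * r + r - i := by
      obtain ⟨a, ha⟩ := hr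
      obtain ⟨b, hb⟩ := h5
      obtain ⟨d, hd⟩ := g5
      refine ⟨b + (K + 1) * a - d, ?_⟩
      push_cast at hd
      linear_combination hb + (K + 1 : ℤ) * ha - hd
    rw [e]
    generalize i0 + K * r = u at *
    have := not_dvd_of_small g6 (by omega) (by omega)
    omega

lemma con_of_covB {n h : ℕ} {t c1 c2 : ℤ} (hn : n % 2 = 1) (H : CovB n h 1 t)
    (hc : IsCoprime (n : ℤ) t) (p1 : c1 % 2 = h % 2) (p2 : c2 % 2 = h % 2)
    (g1 : -(n : ℤ) ≤ c2) (g2 : c2 ≤ n)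
    (e1 : (n : ℤ) ∣ c1 + h * t) (e2 : (n : ℤ) ∣ h - t * c2) :
    Con n h t (max c1 (-c1)) (max c2 (-c2)) := by
  intro j hj
  obtain ⟨N, hN⟩ : ∃ N : ℤ, (n : ℤ) + 1 = 2 * N := ⟨(n + 1) / 2, by omega⟩
  have hc2 : IsCoprime (n : ℤ) 2 := ⟨-1, N, by omega⟩
  obtain ⟨x, y, a1, a2, a3, a4, a5, l, hl⟩ := H (N * (h * (1 + t)) + t * j)
  obtain ⟨u, hu⟩ : ∃ u, h + c1 = 2 * u := ⟨(h + c1) / 2, by omega⟩
  obtain ⟨v, hv⟩ : ∃ v, h + c2 = 2 * v := ⟨(h + c2) / 2, by omega⟩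
  obtain ⟨k1, e1⟩ := e1
  obtain ⟨k2, e2⟩ := e2
  have hc1 : c1 = 2 * u - h := by omega
  have hc2' : c2 = 2 * v - h := by omega
  subst hc1 hc2'
  rcases a5 with rfl | rfl | rfl | rfl
  · exfalso
    have : (n : ℤ) ∣ j + v - y := by
      refine hc.dvd_of_dvd_mul_right (hc2.dvd_of_dvd_mul_left ⟨2 * l - k2 - h * (1 + t), ?_⟩)
      linear_combination 2 * hl - e2 + h * (1 + t) * hN
    by_cases h4 : j + v - y < n
    · have := not_dvd_of_small this (by omega) (by omega); omega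
    · have := not_dvd_of_small (this.sub (dvd_refl _)) (by omega) (by omega); omega
  · exfalso
    have : (n : ℤ) ∣ j + h - v - y := by
      refine hc.dvd_of_dvd_mul_right (hc2.dvd_of_dvd_mul_left ⟨2 * l + k2 - h * (1 + t), ?_⟩)
      linear_combination 2 * hl + e2 + h * (1 + t) * hN
    by_cases h4 : j + h - v - y < n
    · have := not_dvd_of_small this (by omega) (by omega); omega
    · have := not_dvd_of_small (this.sub (dvd_refl _)) (by omega) (by omega); omega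
  · refine ⟨x + u - h, by omega, by omega, hc2.dvd_of_dvd_mul_left ⟨k1 - 2 * l + h * (1 + t), ?_⟩⟩
    linear_combination e1 - 2 * hl - h * (1 + t) * hN
  · refine ⟨x - u, by omega, by omega, hc2.dvd_of_dvd_mul_left ⟨-k1 - 2 * l + h * (1 + t), ?_⟩⟩
    linear_combination -e1 - 2 * hl - h * (1 + t) * hN

/-- normal form of a covering pair when `n` is odd -/
lemma normal_form {n h : ℕ} (hn : n % 2 = 1) (hN : 2 * h + 2 ≤ n) (a b : ZMod n)
    (H : Cov h a b) : ∃ t c1 c2 : ℤ, 0 ≤ t ∧ 2 * t < n ∧ c1 % 2 = h % 2 ∧ c2 % 2 = h % 2 ∧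
      -(h : ℤ) ≤ c1 ∧ c1 ≤ h ∧ -(n : ℤ) ≤ c2 ∧ c2 ≤ n ∧ (n : ℤ) ∣ c1 + h * t ∧
      (n : ℤ) ∣ h - t * c2 ∧ IsCoprime (n : ℤ) t ∧ Con n h t (max c1 (-c1)) (max c2 (-c2)) := by
  obtain ⟨A, rfl⟩ := ZMod.intCast_surjective a
  obtain ⟨B, rfl⟩ := ZMod.intCast_surjective b
  have K := covB_of_cov A B H
  generalize A + B = s at *
  generalize A - B = t at *
  have c1 := coprime_of_covB hN K (Or.inl hn)
  have c2 := coprime_of_covB hN K.symm (Or.inl hn)
  obtain ⟨s', h1, h2⟩ := exists_inv c1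
  have c3 := c2.mul_right h2
  have K1 := K.scale h1
  generalize t * s' = t at *
  clear K c1 c2 h1 h2 H
  obtain ⟨N, hN⟩ : ∃ N : ℤ, (n : ℤ) + 1 = 2 * N := ⟨(n + 1) / 2, by omega⟩
  obtain ⟨t, c1, K1, c3, p1, b1, b2, e1⟩ : ∃ t c1 : ℤ, CovB n h 1 t ∧ IsCoprime (n : ℤ) t ∧
      c1 % 2 = h % 2 ∧ -(h : ℤ) ≤ c1 ∧ c1 ≤ h ∧ (n : ℤ) ∣ c1 + h * t := by
    obtain ⟨x, y, a1, a2, a3, a4, a5, l, hl⟩ := K1 (N * (h * (1 + t)))
    obtain ⟨t', ⟨m, hm⟩, h2⟩ := exists_inv c3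
    have K2 : CovB n h 1 t' := by simpa using K1.symm.scale ⟨m, hm⟩
    rcases a5 with rfl | rfl | rfl | rfl
    · exact ⟨t', h - 2 * y, K2, h2, by omega, by omega, by omega,
        (2 * l - h * (1 + t)) * t' - (h - 2 * y) * m, by
          linear_combination 2 * t' * hl + t' * h * (1 + t) * hN - (h - 2 * y) * hm⟩
    · exact ⟨t', 2 * y - h, K2, h2, by omega, by omega, by omega,
        -(2 * l - h * (1 + t)) * t' + (h - 2 * y) * m, by
          linear_combination -2 * t' * hl - t' * h * (1 + t) * hN + (h - 2 * y) * hm⟩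
    · exact ⟨t, h - 2 * x, K1, c3, by omega, by omega, by omega,
        2 * l - h * (1 + t), by linear_combination 2 * hl + h * (1 + t) * hN⟩
    · exact ⟨t, 2 * x - h, K1, c3, by omega, by omega, by omega,
        -(2 * l - h * (1 + t)), by linear_combination -2 * hl - h * (1 + t) * hN⟩
  obtain ⟨t', ⟨m, hm⟩, -⟩ := exists_inv c3
  have hn0 : (0 : ℤ) < n := by omega
  obtain ⟨c2, p2, d1, d2, e2⟩ : ∃ c2 : ℤ, c2 % 2 = h % 2 ∧ -(n : ℤ) ≤ c2 ∧ c2 ≤ n ∧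
      (n : ℤ) ∣ h - t * c2 := by
    have f1 := Int.emod_nonneg (h * t') hn0.ne'
    have f2 := Int.emod_lt_of_pos (h * t') hn0
    have f3 := Int.emod_add_mul_ediv (h * t') n
    generalize h * t' % n = ρ at *
    generalize h * t' / n = σ at *
    by_cases hp : ρ % 2 = h % 2
    · exact ⟨ρ, hp, by omega, by omega, t * σ - h * m, by linear_combination -t * f3 - h * hm⟩
    · exact ⟨ρ - n, by omega, by omega, by omega, t * σ - h * m + t, by
        linear_combination -t * f3 - h * hm⟩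
  have f1 := Int.emod_nonneg t hn0.ne'
  have f2 := Int.emod_lt_of_pos t hn0
  have f3 := Int.emod_add_mul_ediv t n
  generalize t % n = ρ at *
  generalize t / n = σ at *
  have con := con_of_covB hn K1 c3 p1 p2 d1 d2 e1 e2
  obtain ⟨k1, e1⟩ := e1
  obtain ⟨k2, e2⟩ := e2
  obtain ⟨p, q, hpq⟩ := c3
  by_cases hp : 2 * ρ < n
  · refine ⟨ρ, c1, c2, f1, hp, p1, p2, b1, b2, d1, d2, ⟨k1 - h * σ, by
      linear_combination e1 + h * f3⟩, ⟨k2 + σ * c2, by linear_combination e2 - c2 * f3⟩,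
      ⟨p + q * σ, q, by linear_combination hpq + q * f3⟩, ?_⟩
    intro j hj
    obtain ⟨i, g1, g2, l, g3⟩ := con j hj
    exact ⟨i, g1, g2, l + σ * j, by linear_combination g3 - j * f3⟩
  · refine ⟨n - ρ, -c1, -c2, by omega, by omega, by omega, by omega, by omega, by omega, by omega,
      by omega, ⟨-k1 + h * σ + h, by linear_combination -e1 - h * f3⟩,
      ⟨k2 + σ * c2 + c2, by linear_combination e2 - c2 * f3⟩,
      ⟨p + q * σ + q, -q, by linear_combination hpq + q * f3⟩, ?_⟩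
    intro j hj
    rw [neg_neg, max_comm] at hj
    obtain ⟨i, g1, g2, l, g3⟩ := con j hj
    exact ⟨-i, by omega, by omega, -l - σ * j - j, by linear_combination -g3 + j * f3⟩

lemma dvd_cases {n a : ℤ} (h : n ∣ a) (K : ℤ) (hn : 0 < n) (h1 : -(K * n) < a) (h2 : a < K * n) :
    ∃ k : ℤ, -K < k ∧ k < K ∧ a = k * n := by
  obtain ⟨k, rfl⟩ := h
  refine ⟨k, ?_, ?_, by ring⟩
  · by_contra h3
    have : n * k ≤ n * (-K) := mul_le_mul_of_nonneg_left (by omega) hn.le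
    linarith
  · by_contra h3
    have : n * K ≤ n * k := mul_le_mul_of_nonneg_left (by omega) hn.le
    linarith

lemma Con.start {n h t C γ N : ℤ} (H : Con n h t C γ) (hN : n + 1 = 2 * N) (t0 : 0 ≤ t)
    (t1 : t < n) (hC : h + C < n) (hz : γ + h + 1 < n) :
    ∃ i, 2 * i ≤ h + C ∧ -(2 * i) ≤ h + C ∧ n ∣ i - t * N ∧ (2 * i = t ∨ 2 * i = t - n) := by
  obtain ⟨i, g1, g2, g3⟩ := H N (by omega)
  refine ⟨i, g1, g2, g3, ?_⟩
  have : n ∣ 2 * i - t := by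
    obtain ⟨l, hl⟩ := g3
    exact ⟨2 * l + t, by linear_combination 2 * hl - t * hN⟩
  obtain ⟨k, k1, k2, k3⟩ := dvd_cases this 2 (by omega) (by omega) (by omega)
  interval_cases k <;> omega

lemma core_odd {n h t c1 c2 C γ : ℤ} (hn : n % 2 = 1) (hh : h % 2 = 1) (h3 : 3 ≤ h)
    (n1 : 3 * h < n) (n2 : n ≤ 4 * h) (t0 : 0 ≤ t) (t1 : 2 * t < n) (p1 : c1 % 2 = 1)
    (p2 : c2 % 2 = 1) (b1 : -h ≤ c1) (b2 : c1 ≤ h) (d1 : -n ≤ c2) (d2 : c2 ≤ n)
    (e1 : n ∣ c1 + h * t) (e2 : n ∣ h - t * c2) (hC : C = max c1 (-c1)) (hγ : γ = max c2 (-c2))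
    (H : Con n h t C γ) : False := by
  obtain ⟨N, hN⟩ : ∃ N : ℤ, n + 1 = 2 * N := ⟨(n + 1) / 2, by omega⟩
  obtain ⟨η, hη⟩ : ∃ η : ℤ, γ - h = 2 * η := ⟨(γ - h) / 2, by omega⟩
  obtain ⟨ζ, hζ⟩ : ∃ ζ : ℤ, n - γ - h - 1 = 2 * ζ := ⟨(n - γ - h - 1) / 2, by omega⟩
  have tne : t ≠ 0 := by
    rintro rfl
    have := not_dvd_of_small e2 (by omega) (by omega); omega
  by_cases hA : h + C + t < n
  · have w0 : 1 ≤ η → 2 * ((η - 1) * t) ≤ h + C := by
      intro hz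
      have := (H.walk 1 t 0 0 (η - 1) (by omega) (fun k k1 k2 => by omega) (by simp) hA (by omega)
        (by omega) (by omega) (by simp)).1
      simpa using this
    have w1 : 1 ≤ ζ → t % 2 = 0 ∧ t + 2 * ((ζ - 1) * t) ≤ h + C := by
      intro hz
      obtain ⟨i, g1, g2, g3, g4⟩ := H.start hN t0 (by omega) (by omega) (by omega)
      have := (H.walk 1 t N i (ζ - 1) (by omega) (fun k k1 k2 => by omega) (by simp) hA (by omega)
        g1 g2 g3).1
      generalize (ζ - 1) * t = u at *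
      omega
    by_cases ht6 : t ≤ 5
    · have t1' : 1 ≤ t := by omega
      obtain ⟨k, k1, k2, k3⟩ := dvd_cases e1 3 (by omega) (by nlinarith) (by nlinarith)
      obtain ⟨l, l1, l2, l3⟩ := dvd_cases e2 6 (by omega) (by nlinarith) (by nlinarith)
      interval_cases t <;> interval_cases k <;> (try omega) <;> interval_cases l <;> omega
    · have m1 : 1 ≤ η → (η - 1) * 6 ≤ (η - 1) * t :=
        fun hz => mul_le_mul_of_nonneg_left (by omega) (by omega)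
      have m2 : 1 ≤ ζ → (ζ - 1) * 6 ≤ (ζ - 1) * t :=
        fun hz => mul_le_mul_of_nonneg_left (by omega) (by omega)
      generalize (ζ - 1) * t = u at *
      generalize (η - 1) * t = v at *
      omega
  · have hη1 : η ≤ 1 := by
      by_contra hz
      obtain ⟨i, g1, g2, g3⟩ := H 1 (by omega)
      have := not_dvd_of_small g3 (by omega) (by omega)
      omega
    obtain ⟨i, g1, g2, g3, g4⟩ := H.start hN t0 (by omega) (by omega) (by omega)
    obtain ⟨ρ, hρ⟩ : ∃ ρ, ρ = n - 2 * t := ⟨_, rfl⟩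
    have w0 := (H.walk (-2) ρ N i (ζ / 2) (by omega) (fun k k1 k2 => by omega)
      ⟨1, by rw [hρ]; ring⟩ (by omega) (by omega) g1 g2 g3).1
    have w1 := (H.walk 2 (-ρ) N i ((ζ - 1) / 2) (by omega) (fun k k1 k2 => by omega)
      ⟨-1, by rw [hρ]; ring⟩ (by omega) (by omega) g1 g2 g3).2
    have e3 : n ∣ 2 * c1 - h * ρ := by
      obtain ⟨l, hl⟩ := e1
      exact ⟨2 * l - h, by rw [hρ]; linear_combination 2 * hl⟩
    by_cases hρ5 : ρ ≤ 3
    · have : 1 ≤ ρ := by omega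
      obtain ⟨k, k1, k2, k3⟩ := dvd_cases e3 2 (by omega) (by nlinarith) (by nlinarith)
      interval_cases ρ <;> interval_cases k <;> omega
    · have m1 : ζ / 2 * 5 ≤ ζ / 2 * ρ := mul_le_mul_of_nonneg_left (by omega) (by omega)
      have m2 : (ζ - 1) / 2 * 5 ≤ (ζ - 1) / 2 * ρ :=
        mul_le_mul_of_nonneg_left (by omega) (by omega)
      have e : (ζ - 1) / 2 * -ρ = -((ζ - 1) / 2 * ρ) := by ring
      rw [e] at w1
      generalize ζ / 2 * ρ = u at *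
      generalize (ζ - 1) / 2 * ρ = v at *
      omega

theorem not_cov_odd {n h : ℕ} (hn : n % 2 = 1) (hh : h % 2 = 1) (h3 : 2 ≤ h) (n1 : 3 * h < n)
    (n2 : n ≤ 4 * h) (a b : ZMod n) : ¬ Cov h a b := by
  intro H
  obtain ⟨t, c1, c2, g1, g2, g3, g4, g5, g6, g7, g8, g9, g10, -, g12⟩ :=
    normal_form hn (by omega) a b H
  exact core_odd (by omega) (by omega) (by omega) (by omega) (by omega) g1 g2 (by omega) (by omega)
    g5 g6 g7 g8 g9 g10 rfl rfl g12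

end Pool.Agent.P.MP_c862d8_co
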