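import Pool.Agent.P.MP_c862d8_co.TwoOdd

namespace Pool.Agent.P.MP_c862d8_co

/-- the numerical data shared by the four branches -/
structure Data (n g t c d C γ η ζ : ℤ) : Prop where
  hn : n % 2 = 1
  n0 : 17 ≤ g
  n1 : 5 * g < n
  n2 : n ≤ 8 * g
  t0 : 0 < t
  t1 : 2 * t < n
  b1 : -g ≤ c
  b2 : c ≤ g
  d1 : -n ≤ 2 * d
  d2 : 2 * d ≤ n
  hC : C = max (2 * c) (-(2 * c))
  hγ : γ = max (2 * d) (-(2 * d))
  hη : γ - 2 * g = 2 * η
  hζ : n - γ - 2 * g - 1 = 2 * ζ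

lemma fin1 {n g t c d C γ η ζ : ℤ} (D : Data n g t c d C γ η ζ) (h5 : 5 * t ≤ n)
    (e1 : n ∣ c + g * t) (e2 : n ∣ g - t * d)
    (w0 : 1 ≤ η → 2 * ((η - 1) * t) ≤ 2 * g + C)
    (w1 : 1 ≤ ζ → t % 2 = 0 ∧ t + 2 * ((ζ - 1) * t) ≤ 2 * g + C) : False := by
  obtain ⟨hn, n0, n1, n2, t0, t1, b1, b2, d1, d2, hC, hγ, hη, hζ⟩ := D
  by_cases ht : t ≤ 10
  · interval_cases t <;>
    (obtain ⟨k, k1, k2, k3⟩ := dvd_cases e1 3 (by omega) (by omega) (by omega)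
     obtain ⟨l, l1, l2, l3⟩ := dvd_cases e2 6 (by omega) (by omega) (by omega)
     clear e1 e2
     interval_cases k <;> first | omega | (interval_cases l <;> omega))
  · have m1 : 1 ≤ η → (η - 1) * 11 ≤ (η - 1) * t :=
      fun hz => mul_le_mul_of_nonneg_left (by omega) (by omega)
    have m2 : 1 ≤ ζ → (ζ - 1) * 11 ≤ (ζ - 1) * t :=
      fun hz => mul_le_mul_of_nonneg_left (by omega) (by omega)
    generalize (ζ - 1) * t = u at *
    generalize (η - 1) * t = v at *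
    clear e1 e2
    omega

lemma fin2 {n g t c d C γ η ζ ρ : ℤ} (D : Data n g t c d C γ η ζ) (h5 : 2 * n ≤ 5 * t)
    (hρ : ρ = n - 2 * t) (e1 : n ∣ 2 * c - g * ρ) (e2 : n ∣ 2 * g + ρ * d) (w : η ≤ 1)
    (w0 : 1 ≤ ζ → t % 2 = 0 → t + 2 * (ζ / 2 * ρ) ≤ 2 * g + C)
    (w1 : 1 ≤ ζ → t % 2 = 1 → n - t + 2 * ((ζ - 1) / 2 * ρ) ≤ 2 * g + C) : False := by
  obtain ⟨hn, n0, n1, n2, t0, t1, b1, b2, d1, d2, hC, hγ, hη, hζ⟩ := D
  have ρ0 : 1 ≤ ρ := by omega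
  by_cases ht : ρ ≤ 5
  · interval_cases ρ <;>
    (obtain ⟨k, k1, k2, k3⟩ := dvd_cases e1 2 (by omega) (by omega) (by omega)
     obtain ⟨l, l1, l2, l3⟩ := dvd_cases e2 3 (by omega) (by omega) (by omega)
     clear e1 e2
     interval_cases k <;> first | omega | (interval_cases l <;> omega))
  · have m1 : 1 ≤ ζ → ζ / 2 * 6 ≤ ζ / 2 * ρ :=
      fun hz => mul_le_mul_of_nonneg_left (by omega) (by omega)
    have m2 : 1 ≤ ζ → (ζ - 1) / 2 * 6 ≤ (ζ - 1) / 2 * ρ :=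
      fun hz => mul_le_mul_of_nonneg_left (by omega) (by omega)
    generalize ζ / 2 * ρ = u at *
    generalize (ζ - 1) / 2 * ρ = v at *
    clear e1 e2
    omega

lemma fin3p {n g t c d C γ η ζ r : ℤ} (D : Data n g t c d C γ η ζ) (h5 : 5 * t < 2 * n)
    (hr : r = 3 * t - n) (r0 : 0 < r) (e1 : n ∣ 3 * c + g * r) (e2 : n ∣ 3 * g - r * d)
    (w0 : 2 ≤ η → 2 * t + 2 * ((η - 2) / 3 * r) ≤ 2 * g + C)
    (w1 : 2 ≤ ζ → t % 2 = 1)
    (w2 : 1 ≤ ζ → t % 2 = 1 → n - t + 2 * (ζ / 3 * r) ≤ 2 * g + C) : False := by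
  obtain ⟨hn, n0, n1, n2, t0, t1, b1, b2, d1, d2, hC, hγ, hη, hζ⟩ := D
  by_cases ht : r ≤ 9
  · interval_cases r <;>
    (obtain ⟨k, k1, k2, k3⟩ := dvd_cases e1 3 (by omega) (by omega) (by omega)
     obtain ⟨l, l1, l2, l3⟩ := dvd_cases e2 6 (by omega) (by omega) (by omega)
     clear e1 e2
     interval_cases k <;> first | omega | (interval_cases l <;> omega))
  · have m1 : 2 ≤ η → (η - 2) / 3 * 10 ≤ (η - 2) / 3 * r :=
      fun hz => mul_le_mul_of_nonneg_left (by omega) (by omega)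
    have m2 : 1 ≤ ζ → ζ / 3 * 10 ≤ ζ / 3 * r :=
      fun hz => mul_le_mul_of_nonneg_left (by omega) (by omega)
    generalize (η - 2) / 3 * r = u at *
    generalize ζ / 3 * r = v at *
    clear e1 e2
    omega

lemma fin3n {n g t c d C γ η ζ r : ℤ} (D : Data n g t c d C γ η ζ) (h5 : 4 * n ≤ 15 * t)
    (hr : r = n - 3 * t) (r0 : 0 < r) (e1 : n ∣ 3 * c - g * r) (e2 : n ∣ 3 * g + r * d)
    (w0 : 2 ≤ η → 2 * t + 2 * (η / 3 * r) ≤ 2 * g + C)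
    (w1 : 2 ≤ ζ → t % 2 = 1)
    (w2 : 1 ≤ ζ → t % 2 = 1 → n - t + 2 * ((ζ - 1) / 3 * r) ≤ 2 * g + C) : False := by
  obtain ⟨hn, n0, n1, n2, t0, t1, b1, b2, d1, d2, hC, hγ, hη, hζ⟩ := D
  by_cases ht : r ≤ 9
  · interval_cases r <;>
    (obtain ⟨k, k1, k2, k3⟩ := dvd_cases e1 3 (by omega) (by omega) (by omega)
     obtain ⟨l, l1, l2, l3⟩ := dvd_cases e2 6 (by omega) (by omega) (by omega)
     clear e1 e2
     interval_cases k <;> first | omega | (interval_cases l <;> omega))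
  · have m1 : 2 ≤ η → η / 3 * 10 ≤ η / 3 * r :=
      fun hz => mul_le_mul_of_nonneg_left (by omega) (by omega)
    have m2 : 1 ≤ ζ → (ζ - 1) / 3 * 10 ≤ (ζ - 1) / 3 * r :=
      fun hz => mul_le_mul_of_nonneg_left (by omega) (by omega)
    generalize η / 3 * r = u at *
    generalize (ζ - 1) / 3 * r = v at *
    clear e1 e2
    omega

lemma fin4p {n g t c d C γ η ζ r : ℤ} (D : Data n g t c d C γ η ζ) (h5 : 15 * t < 4 * n)
    (hr : r = 4 * t - n) (r0 : 0 < r) (e1 : n ∣ 4 * c + g * r)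
    (w : η ≤ 2)
    (w1 : 2 ≤ ζ → t % 2 = 0 → 3 * t + 2 * ((ζ - 2) / 4 * r) ≤ 2 * g + C)
    (w2 : 1 ≤ ζ → t % 2 = 1 → n - t + 2 * (ζ / 4 * r) ≤ 2 * g + C) : False := by
  obtain ⟨hn, n0, n1, n2, t0, t1, b1, b2, d1, d2, hC, hγ, hη, hζ⟩ := D
  by_cases ht : r ≤ 9
  · interval_cases r <;>
    (obtain ⟨k, k1, k2, k3⟩ := dvd_cases e1 3 (by omega) (by omega) (by omega)
     clear e1
     interval_cases k <;> omega)
  · have m1 : 2 ≤ ζ → (ζ - 2) / 4 * 10 ≤ (ζ - 2) / 4 * r :=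
      fun hz => mul_le_mul_of_nonneg_left (by omega) (by omega)
    have m2 : 1 ≤ ζ → ζ / 4 * 10 ≤ ζ / 4 * r :=
      fun hz => mul_le_mul_of_nonneg_left (by omega) (by omega)
    generalize (ζ - 2) / 4 * r = u at *
    generalize ζ / 4 * r = v at *
    clear e1
    omega

lemma fin4n {n g t c d C γ η ζ r : ℤ} (D : Data n g t c d C γ η ζ) (h5 : n < 5 * t)
    (hr : r = n - 4 * t) (r0 : 0 < r) (e1 : n ∣ 4 * c - g * r)
    (w : η ≤ 2)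
    (w1 : 2 ≤ ζ → t % 2 = 0 → 3 * t + 2 * ((ζ + 1) / 4 * r) ≤ 2 * g + C)
    (w2 : 1 ≤ ζ → t % 2 = 1 → n - t + 2 * ((ζ - 1) / 4 * r) ≤ 2 * g + C) : False := by
  obtain ⟨hn, n0, n1, n2, t0, t1, b1, b2, d1, d2, hC, hγ, hη, hζ⟩ := D
  by_cases ht : r ≤ 9
  · interval_cases r <;>
    (obtain ⟨k, k1, k2, k3⟩ := dvd_cases e1 3 (by omega) (by omega) (by omega)
     clear e1
     interval_cases k <;> omega)
  · have m1 : 2 ≤ ζ → (ζ + 1) / 4 * 10 ≤ (ζ + 1) / 4 * r :=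
      fun hz => mul_le_mul_of_nonneg_left (by omega) (by omega)
    have m2 : 1 ≤ ζ → (ζ - 1) / 4 * 10 ≤ (ζ - 1) / 4 * r :=
      fun hz => mul_le_mul_of_nonneg_left (by omega) (by omega)
    generalize (ζ + 1) / 4 * r = u at *
    generalize (ζ - 1) / 4 * r = v at *
    clear e1
    omega

end Pool.Agent.P.MP_c862d8_co
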