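import Pool.Agent.P.MP_c862d8_co.TwoMain

open Pool.Agent.P.MP_c862d8_co in
theorem Pool.Agent.P.MP_c862d8_co.VariantTwoElements.result (n h : ℕ) (hn : 2 ≤ n) (hh : 2 ≤ h)
    (hw : ¬ (h % 4 = 0 ∧ n % 2 = 1 ∧ 2 * h + 3 ≤ n ∧ 2 * n ≤ 5 * h)) :
    nu n 2 h < min n (c h 2) ↔
      (n % 2 = 0 ∧ h % 2 = 0 ∧ 2 * h + 2 ≤ n ∧ n ≤ h ^ 2 + 2 * h) ∨
      (n % 2 = 0 ∧ h % 2 = 1 ∧ 2 * h + 2 ≤ n ∧ n ≤ h ^ 2 + 3 * h) ∨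
      (n % 2 = 1 ∧ h % 2 = 1 ∧ 3 * h < n ∧ n ≤ h ^ 2 + 2 * h) ∨
      (n % 2 = 1 ∧ h % 2 = 0 ∧ 2 * h + 3 ≤ n ∧ 5 * h < 2 * n ∧ n ≤ h ^ 2 + 2 * h) :=
  two_elements n h hn hh hw
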