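import Mathlib

/-! Lattices that avoid two parity boxes. -/

namespace Pool.Agent.P.MP_c862d8_co

/-- odd numbers of size below `X` and even numbers of size below `X'` -/
def Gap (X X' w : ℤ) : Prop :=
  (w % 2 = 1 ∧ -X < w ∧ w < X) ∨ (w % 2 = 0 ∧ -X' < w ∧ w < X')

/-- the two families -/
def Fam (n t : ℤ) : Prop :=
  ∃ p q k : ℤ, 0 < p ∧ 0 < q ∧ p % 2 = 0 ∧ q % 2 = 1 ∧ IsCoprime p t ∧ IsCoprime q t ∧
    ((0 ≤ k ∧ n = 2 * k * p * q + (p + q) * t) ∨
      (0 < k ∧ t ≤ q ∧ n = 2 * k * p * q + (q - p) * t))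

lemma level (c j0 ε : ℤ) (hc : 0 < c) :
    ∃ i j : ℤ, i % 2 = ε % 2 ∧ c * i = j0 + j ∧ -c < j ∧ j ≤ c := by
  have h2 : (0 : ℤ) < 2 * c := by omega
  have f1 := Int.emod_nonneg (c * ε - j0 + c - 1) h2.ne'
  have f2 := Int.emod_lt_of_pos (c * ε - j0 + c - 1) h2
  have f3 := Int.emod_add_mul_ediv (c * ε - j0 + c - 1) (2 * c)
  generalize (c * ε - j0 + c - 1) % (2 * c) = r at *
  generalize (c * ε - j0 + c - 1) / (2 * c) = m at *
  exact ⟨ε - 2 * m, r - c + 1, by omega, by linear_combination -f3, by omega, by omega⟩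

lemma par_mul (a b : ℤ) : (a * b) % 2 = 1 ↔ a % 2 = 1 ∧ b % 2 = 1 := by
  rw [Int.mul_emod]
  rcases Int.emod_two_eq_zero_or_one a with h | h <;>
    rcases Int.emod_two_eq_zero_or_one b with h' | h' <;> simp [h, h']

lemma cop_shift {r v t : ℤ} (h : IsCoprime r v) (m : ℤ) (e : v = t + m * r ∨ v = -t + m * r) :
    IsCoprime r t := by
  obtain ⟨a, b, hab⟩ := h
  rcases e with e | e
  · exact ⟨a + b * m, b, by rw [e] at hab; linear_combination hab⟩
  · exact ⟨a + b * m, -b, by rw [e] at hab; linear_combination hab⟩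

lemma cop_pos {r t : ℤ} (h : IsCoprime r t) (ht : 3 ≤ t) (hr : 0 ≤ r) : 0 < r := by
  rcases hr.eq_or_lt with rfl | hr
  · rcases Int.isUnit_iff.1 (isCoprime_zero_left.1 h) with h | h <;> omega
  · exact hr

lemma box {c z X e : ℤ} (hc : 0 < c) (h : c * z = e) (h1 : -(c * X) < e) (h2 : e < c * X) :
    -X < z ∧ z < X :=
  ⟨lt_of_mul_lt_mul_left (a := c) (by linarith) hc.le,
    lt_of_mul_lt_mul_left (a := c) (by linarith) hc.le⟩

lemma fam_one {n t r s k : ℤ} (hn : n % 2 = 1) (ht : 3 ≤ t) (hr : 0 ≤ r) (hs : 0 ≤ s) (hk : 0 ≤ k)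
    (c1 : IsCoprime r t) (c2 : IsCoprime s t) (e : n = 2 * k * r * s + (r + s) * t) : Fam n t := by
  have h1 := cop_pos c1 ht hr
  have h2 := cop_pos c2 ht hs
  have h3 := par_mul (r + s) t
  have h4 : n = 2 * (k * r * s) + (r + s) * t := by linear_combination e
  by_cases hp : r % 2 = 0
  · exact ⟨r, s, k, h1, h2, hp, by omega, c1, c2, Or.inl ⟨hk, e⟩⟩
  · exact ⟨s, r, k, h2, h1, by omega, by omega, c2, c1, Or.inl ⟨hk, by linear_combination e⟩⟩

lemma bnd {m j r : ℤ} (hr : 0 ≤ r) (h1 : -m ≤ j) (h2 : j ≤ m) :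
    -(m * r) ≤ j * r ∧ j * r ≤ m * r :=
  ⟨by nlinarith, mul_le_mul_of_nonneg_right h2 hr⟩

lemma box' {c z X j r : ℤ} (hc : 2 ≤ c) (hr : 0 ≤ r) (hX : r < X) (h1 : -(c - 1) ≤ j)
    (h2 : j ≤ c - 1) (h : c * z = X + j * r) : -X < z ∧ z < X := by
  have b := bnd hr h1 h2
  have d : (c - 1) * r < (c - 1) * X := mul_lt_mul_of_pos_left hX (by omega)
  exact box (by omega) h (by linarith [b.1]) (by linarith [b.2])

lemma odd_rep {c : ℤ} (h : c % 2 = 1) : ∃ d, c = 2 * d + 1 := ⟨c / 2, by omega⟩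

lemma even_rep {c : ℤ} (h : c % 2 = 0) : ∃ d, c = 2 * d := ⟨c / 2, by omega⟩

/-- the corner of the box is a lattice point -/
lemma case_one {n t r s k v1 v2 c j0 : ℤ} (n0 : 0 < n) (hn : n % 2 = 1) (ht : 3 ≤ t)
    (hr : 0 ≤ r) (hs : 0 ≤ s) (hk : 0 < k) (hd : r * v2 + s * v1 = n) (c1 : IsCoprime r v1)
    (c2 : IsCoprime s v2) (z1 : t + k * r = j0 * r + c * v1) (z2 : t + k * s = -(j0 * s) + c * v2)
    (ho : (t + k * r) % 2 = 1)
    (fr : ∀ i j : ℤ, (i * r + j * v1) % 2 = 1 → (-(i * s) + j * v2) % 2 = (t + k * s) % 2 →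
      -(t + k * r) < i * r + j * v1 → i * r + j * v1 < t + k * r →
      -(t + k * s) < -(i * s) + j * v2 → -(i * s) + j * v2 < t + k * s → False) : Fam n t := by
  have e : c * n = 2 * k * r * s + (r + s) * t := by
    linear_combination -c * hd - r * z2 - s * z1
  have a1 : r ≤ k * r := le_mul_of_one_le_left hr hk
  have a2 : s ≤ k * s := le_mul_of_one_le_left hs hk
  have a3 : 0 < r + s := by
    by_contra a
    obtain rfl : r = 0 := by omega
    obtain rfl : s = 0 := by omega
    omega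
  have a4 : 0 < c := by
    have b1 : 0 ≤ 2 * k * r * s := by positivity
    have b2 : 0 < (r + s) * t := by positivity
    exact pos_of_mul_pos_left (b := n) (by linarith) n0.le
  have a5 : c % 2 = 1 := by
    by_contra hc
    obtain ⟨d, rfl⟩ := even_rep (c := c) (by omega)
    have p0 : (j0 * r) % 2 = 1 := by
      have : j0 * r = t + k * r - 2 * (d * v1) := by linear_combination -z1
      omega
    obtain ⟨p1, p2⟩ := (par_mul j0 r).1 p0
    obtain ⟨m, rfl⟩ := odd_rep p1
    have : t + k * s = -s + 2 * (d * v2 - m * s) := by linear_combination z2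
    exact fr 1 0 (by omega) (by omega) (by omega) (by omega) (by omega) (by omega)
  by_cases h1 : c = 1
  · subst h1
    exact fam_one hn ht hr hs hk.le (cop_shift c1 (k - j0) (Or.inl (by linear_combination -z1)))
      (cop_shift c2 (k + j0) (Or.inl (by linear_combination -z2))) (by linear_combination e)
  exfalso
  obtain ⟨i, j, g1, g2, g3, g4⟩ := level c j0 j0 a4
  obtain ⟨m, rfl⟩ : ∃ m, i = j0 + 2 * m := ⟨(i - j0) / 2, by omega⟩
  obtain ⟨d, hc⟩ := odd_rep a5
  have g5 : j = 2 * (d * j0 + c * m) := by rw [hc] at g2 ⊢; linear_combination -g2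
  have b1 := box' (z := (j0 + 2 * m) * r + 1 * v1) (X := t + k * r) (j := j) (r := r) (c := c)
    (by omega) hr (by omega) (by omega) (by omega) (by linear_combination -z1 + r * g2)
  have b2 := box' (z := -((j0 + 2 * m) * s) + 1 * v2) (X := t + k * s) (j := -j) (r := s) (c := c)
    (by omega) hs (by omega) (by omega) (by omega) (by linear_combination -z2 - s * g2)
  have q1 : (j0 + 2 * m) * r + 1 * v1 = t + k * r + 2 * (m * r - d * v1) := by
    rw [hc] at z1; linear_combination -z1
  have q2 : -((j0 + 2 * m) * s) + 1 * v2 = t + k * s + 2 * (-(m * s) - d * v2) := by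
    rw [hc] at z2; linear_combination -z2
  exact fr _ 1 (by omega) (by omega) b1.1 b1.2 b2.1 b2.2

/-- the lattice contains the diagonal corner -/
lemma case_zero {n t r k v1 v2 : ℤ} (n0 : 0 < n) (hn : n % 2 = 1) (ht : 3 ≤ t) (tod : t % 2 = 1)
    (hk : 0 < k) (e : t = k * r) (hd : r * v2 - r * v1 = n) (c1 : IsCoprime r v1)
    (c2 : IsCoprime r v2)
    (fr : ∀ i j : ℤ, Gap t 0 (i * r + j * v1) → Gap t 0 (i * r + j * v2) → False) : Fam n t := by
  have r0 : 0 < r := pos_of_mul_pos_right (a := k) (by omega) hk.le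
  have r1 := ((par_mul k r).1 (by omega)).2
  have k1 : k = 1 := by
    by_contra a
    have : 2 * r ≤ k * r := mul_le_mul_of_nonneg_right (by omega) r0.le
    exact fr 1 0 (Or.inl (by omega)) (Or.inl (by omega))
  subst k1
  obtain rfl : r = t := by omega
  have f1 := Int.emod_nonneg (-v1) r0.ne'
  have f2 := Int.emod_lt_of_pos (-v1) r0
  have f3 := Int.emod_add_mul_ediv (-v1) r
  generalize -v1 % r = a at *
  generalize -v1 / r = m at *
  have d1 : IsCoprime a r := by
    obtain ⟨x, y, hxy⟩ := c1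
    exact ⟨-y, x - y * m, by linear_combination hxy - y * f3⟩
  have d2 : IsCoprime (v2 + m * r) r := by
    obtain ⟨x, y, hxy⟩ := c2
    exact ⟨y, x - y * m, by linear_combination hxy⟩
  have a0 := cop_pos d1 ht f1
  have a1 : 0 < v2 - v1 := pos_of_mul_pos_right (a := r) (by linarith) r0.le
  have a2 : 0 ≤ v2 + m * r := by
    by_contra a2
    have q1 : (2 * m + 1) * r + 2 * v1 = r - 2 * a := by linear_combination 2 * f3
    have q2 : (2 * m + 1) * r + 2 * v2 = r + 2 * (v2 + m * r) := by ring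
    have q3 : v2 + m * r = v2 - v1 - a := by linear_combination f3
    exact fr (2 * m + 1) 2 (Or.inl (by omega)) (Or.inl (by omega))
  exact fam_one (k := 0) hn ht f1 a2 le_rfl d1 d2 (by linear_combination -hd - r * f3)

/-- both short vectors point into the same quadrant -/
lemma case_two {n t p q k v1 v2 c j0 : ℤ} (n0 : 0 < n) (hn : n % 2 = 1) (tod : t % 2 = 1)
    (ht : 3 ≤ t) (hp : 0 < p) (hq : 0 < q) (hk : 2 ≤ k) (ke : k % 2 = 0)
    (hd : q * v1 - p * v2 = n) (c1 : IsCoprime p v1) (c2 : IsCoprime q v2)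
    (z1 : t + k * p = j0 * p + c * v1) (z2 : t - k * q = j0 * q + c * v2)
    (fr : ∀ i j : ℤ, Gap (t + k * p) (-(k * p)) (i * p + j * v1) →
      Gap (t - k * q) (k * q) (i * q + j * v2) → False) : Fam n t := by
  have e : c * n = 2 * k * p * q + (q - p) * t := by
    linear_combination -c * hd - q * z1 + p * z2
  have a1 : 2 * p ≤ k * p := mul_le_mul_of_nonneg_right hk hp.le
  have a2 : 2 * q ≤ k * q := mul_le_mul_of_nonneg_right hk hq.le
  obtain ⟨l, hl⟩ := even_rep ke
  have a3 : k * p = 2 * (l * p) := by rw [hl]; ring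
  have a4 : k * q = 2 * (l * q) := by rw [hl]; ring
  have qo : q % 2 = 1 := by
    by_contra a
    obtain ⟨m, hm⟩ := even_rep (c := q) (by omega)
    have b : p * v2 = 2 * (m * v1) - n := by rw [hm] at hd; linear_combination -hd
    have := ((par_mul p v2).1 (by omega)).1
    exact fr 1 0 (Or.inl (by omega)) (Or.inr (by omega))
  have a5 : p % 2 = 0 → t ≤ q := fun pe => by
    by_contra a
    have q1 : (j0 - 1) * p + c * v1 = t + k * p - p := by linear_combination -z1
    have q2 : (j0 - 1) * q + c * v2 = t - k * q - q := by linear_combination -z2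
    have q3 : (j0 - k) * p + c * v1 = t := by linear_combination -z1
    have q4 : (j0 - k) * q + c * v2 = t - 2 * (k * q) := by linear_combination -z2
    by_cases b : t - k * q - q < k * q
    · exact fr (j0 - 1) c (Or.inl (by omega)) (Or.inr (by omega))
    · exact fr (j0 - k) c (Or.inl (by omega)) (Or.inl (by omega))
  have a6 : t - k * q ≤ q := by
    by_contra a
    exact fr 1 0 (Or.inl (by omega)) (Or.inl (by omega))
  have a7 : 0 < c := by
    have b1 : p * (t - k * q) ≤ p * q := mul_le_mul_of_nonneg_left a6 hp.le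
    have b2 : q * (2 * p) ≤ q * (k * p) := mul_le_mul_of_nonneg_left a1 hq.le
    have b3 : 0 < q * t := by positivity
    have b4 : 0 < p * q := by positivity
    exact pos_of_mul_pos_left (b := n) (by linarith) n0.le
  by_cases h1 : c = 1
  · subst h1
    have b : (q - p) * t = n - 2 * (k * p * q) := by linear_combination -e
    have pe : p % 2 = 0 := by
      have := ((par_mul (q - p) t).1 (by omega)).1
      omega
    exact ⟨p, q, k, hp, hq, pe, qo, cop_shift c1 (k - j0) (Or.inl (by linear_combination -z1)),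
      cop_shift c2 (-k - j0) (Or.inl (by linear_combination -z2)),
      Or.inr ⟨by omega, a5 pe, by linear_combination e⟩⟩
  exfalso
  obtain ⟨i, j, g1, g2, g3, g4⟩ := level c j0 v2 a7
  have p2 : (i * q + 1 * v2) % 2 = 0 := by
    have := par_mul i q
    omega
  have p1 : (i * p + 1 * v1) % 2 = 1 := by
    obtain ⟨m, hm⟩ := even_rep p2
    have b : (i * p + 1 * v1) * q = n + 2 * (m * p) := by linear_combination hd + p * hm
    exact ((par_mul _ q).1 (by omega)).1
  have c2 : 2 ≤ c := by omega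
  have u1 := bnd hp.le g3.le g4
  have u2 := bnd hq.le g3.le g4
  have u3 : 0 ≤ (c - 2) * p := mul_nonneg (by omega) hp.le
  have u4 : (c - 1) * (2 * p + 1) ≤ (c - 1) * (t + k * p) :=
    mul_le_mul_of_nonneg_left (by omega) (by omega)
  have b1 := box (z := i * p + 1 * v1) (X := t + k * p) (e := t + k * p + j * p) a7
    (by linear_combination -z1 + p * g2) (by linarith [u1.1]) (by linarith [u1.2])
  have u5 : c * (2 * q) ≤ c * (k * q) := mul_le_mul_of_nonneg_left a2 a7.le
  have u6 : 2 * q ≤ c * q := mul_le_mul_of_nonneg_right c2 hq.le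
  have u7 : (c - 1) * (2 * q) ≤ (c - 1) * (k * q) := mul_le_mul_of_nonneg_left a2 (by omega)
  have b2 := box (z := i * q + 1 * v2) (X := k * q) (e := t - k * q + j * q) a7
    (by linear_combination -z2 + q * g2) (by linarith [u2.1]) (by linarith [u2.2])
  exact fr i 1 (Or.inl ⟨p1, b1⟩) (Or.inr ⟨p2, b2⟩)

/-- a multiple of a short vector lies on the side of the box -/
lemma case_three {n t p q k v1 v2 c j0 : ℤ} (n0 : 0 < n) (hn : n % 2 = 1) (tod : t % 2 = 1)
    (ht : 3 ≤ t) (hp : 0 < p) (hq : 0 < q) (hk : 0 < k) (ho : (k * q) % 2 = 1)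
    (he : (k * p) % 2 = 0) (ha : t < k * q)
    (hd : q * v2 + p * v1 = n) (c1 : IsCoprime q v1) (c2 : IsCoprime p v2)
    (z1 : k * q - t = j0 * q + c * v1) (z2 : t + k * p = -(j0 * p) + c * v2)
    (fr : ∀ i j : ℤ, (i * q + j * v1) % 2 = 1 → (-(i * p) + j * v2) % 2 = 1 →
      -(k * q) < i * q + j * v1 → i * q + j * v1 < k * q →
      -(t + k * p) < -(i * p) + j * v2 → -(i * p) + j * v2 < t + k * p → False) : Fam n t := by
  have e : c * n = 2 * k * p * q + (q - p) * t := by
    linear_combination -c * hd - q * z2 - p * z1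
  have a1 : p ≤ k * p := le_mul_of_one_le_left hp.le hk
  have a2 : q ≤ k * q := le_mul_of_one_le_left hq.le hk
  obtain ⟨ko, qo⟩ := (par_mul k q).1 ho
  have pe : p % 2 = 0 := by
    have := par_mul k p
    omega
  have a3 : t ≤ q := by
    by_contra a
    have q1 : (j0 + 1) * q + c * v1 = k * q - t + q := by linear_combination -z1
    have q2 : -((j0 + 1) * p) + c * v2 = t + k * p - p := by linear_combination -z2
    exact fr (j0 + 1) c (by omega) (by omega) (by omega) (by omega) (by omega) (by omega)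
  have a4 : 0 < c := by
    have b1 : 0 < p * (k * q - t) := mul_pos hp (by omega)
    have b2 : 0 < q * (t + k * p) := mul_pos hq (by omega)
    exact pos_of_mul_pos_left (b := n) (by linarith) n0.le
  have a5 : c % 2 = 1 := by
    have b1 : c * n = 2 * (k * p * q) + (q - p) * t := by linear_combination e
    have b2 := (par_mul (q - p) t).2 ⟨by omega, tod⟩
    exact ((par_mul c n).1 (by omega)).1
  by_cases h1 : c = 1
  · subst h1
    exact ⟨p, q, k, hp, hq, pe, qo, cop_shift c2 (k + j0) (Or.inl (by linear_combination -z2)),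
      cop_shift c1 (k - j0) (Or.inr (by linear_combination -z1)),
      Or.inr ⟨hk, a3, by linear_combination e⟩⟩
  obtain ⟨i, j, g1, g2, g3, g4⟩ := level c j0 (v1 + 1) a4
  have p1 : (i * q + 1 * v1) % 2 = 1 := by
    have := par_mul i q
    omega
  have p2 : (-(i * p) + 1 * v2) % 2 = 1 := by
    obtain ⟨m, hm⟩ := even_rep pe
    have b : (-(i * p) + 1 * v2) * q = n - 2 * (m * (i * q + v1)) := by
      rw [hm] at hd ⊢; linear_combination hd
    exact ((par_mul _ q).1 (by omega)).1
  have w1 : c * (i * q + 1 * v1) = k * q - t + j * q := by linear_combination -z1 + q * g2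
  have w2 : c * (-(i * p) + 1 * v2) = t + k * p + -j * p := by linear_combination -z2 - p * g2
  have jo : j % 2 = 1 := by
    have b := (par_mul c _).2 ⟨a5, p1⟩
    exact ((par_mul j q).1 (by omega)).1
  have c3 : 3 ≤ c := by omega
  by_cases hj : j ≤ c - 2
  · exfalso
    have u1 := bnd (m := c - 1) (j := j) hq.le (by omega) (by omega)
    have u2 : (c - 1) * q ≤ (c - 1) * (k * q) := mul_le_mul_of_nonneg_left a2 (by omega)
    have b1 := box (X := k * q) a4 w1 (by linarith [u1.1]) (by linarith [u1.2])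
    have b2 := box' (c := c) (by omega) hp.le (by omega) (by omega) (by omega) w2
    exact fr i 1 p1 p2 b1.1 b1.2 b2.1 b2.2
  obtain rfl : j = c := by omega
  have k1 : k = 1 := by
    by_contra a
    have u1 : 3 * q ≤ k * q := mul_le_mul_of_nonneg_right (by omega) hq.le
    have u2 : (j - 1) * (3 * q) ≤ (j - 1) * (k * q) := mul_le_mul_of_nonneg_left u1 (by omega)
    have u3 : 3 * q ≤ j * q := mul_le_mul_of_nonneg_right c3 hq.le
    have u4 : 0 ≤ j * (k * q) := by positivity
    have u5 : 0 ≤ j * p := by positivity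
    have u6 : j * p ≤ j * (t + k * p) := mul_le_mul_of_nonneg_left (by omega) a4.le
    have u7 : 3 * (t + k * p) ≤ j * (t + k * p) := mul_le_mul_of_nonneg_right c3 (by omega)
    have b1 := box (X := k * q) a4 w1 (by linarith) (by linarith)
    have b2 := box (X := t + k * p) a4 w2 (by linarith) (by linarith)
    exact fr i 1 p1 p2 b1.1 b1.2 b2.1 b2.2
  subst k1
  obtain ⟨p', hp'⟩ : ∃ p', p' = i * q + 1 * v1 - q := ⟨_, rfl⟩
  obtain ⟨q', hq'⟩ : ∃ q', q' = -(i * p) + 1 * v2 + p := ⟨_, rfl⟩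
  have y1 : j * p' = q - t := by rw [hp']; linear_combination w1
  have y2 : j * q' = t + p := by rw [hq']; linear_combination w2
  have y3 : 0 < p' := pos_of_mul_pos_right (a := j) (by omega) a4.le
  have y4 : 0 < q' := pos_of_mul_pos_right (a := j) (by omega) a4.le
  have y5 : p' ≤ j * p' := le_mul_of_one_le_left y3.le a4
  have y6 : t ≤ q' := by
    by_contra a
    have q1 : (2 - i) * q + -1 * v1 = q - p' := by rw [hp']; ring
    have q2 : -((2 - i) * p) + -1 * v2 = -p - q' := by rw [hq']; ring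
    exact fr (2 - i) (-1) (by omega) (by omega) (by omega) (by omega) (by omega) (by omega)
  obtain ⟨x, y, hxy⟩ := c1
  obtain ⟨x', y', hxy'⟩ := c2
  refine ⟨p', q', j, y3, y4, by omega, by omega,
    ⟨y + (x + y * (1 - i)) * j, x + y * (1 - i), ?_⟩,
    ⟨y' + (x' + y' * (i - 1)) * j, -(x' + y' * (i - 1)), ?_⟩, Or.inr ⟨a4, y6, ?_⟩⟩
  · linear_combination hxy + y * hp' + (x + y * (1 - i)) * y1
  · linear_combination hxy' + y' * hq' + (x' + y' * (i - 1)) * y2
  · linear_combination -hd - q * hq' - p * hp' - q' * y1 - p' * y2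

end Pool.Agent.P.MP_c862d8_co
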