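import Pool.Agent.P.MP_c862d8_co.WinA

/-! The classification of the lattices that avoid the boxes. -/

namespace Pool.Agent.P.MP_c862d8_co

/-- a basis of determinant `n` with both projections onto -/
structure Bs (n e1 e2 f1 f2 : ℤ) : Prop where
  det : e1 * f2 - e2 * f1 = n
  c1 : IsCoprime e1 f1
  c2 : IsCoprime e2 f2

/-- membership in the lattice -/
def In (e1 e2 f1 f2 w w' : ℤ) : Prop := ∃ i j : ℤ, w = i * e1 + j * f1 ∧ w' = i * e2 + j * f2

/-- the lattice avoids the boxes -/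
def Fr (e1 e2 f1 f2 X X' Y Y' : ℤ) : Prop :=
  ∀ w w', In e1 e2 f1 f2 w w' → Gap X X' w → Gap Y Y' w' → False

variable {n e1 e2 f1 f2 w w' z z' t X X' Y Y' : ℤ}

lemma In.comb (h : In e1 e2 f1 f2 w w') (h' : In e1 e2 f1 f2 z z') (a b : ℤ) {u u' : ℤ}
    (e : u = a * w + b * z) (e' : u' = a * w' + b * z') : In e1 e2 f1 f2 u u' := by
  obtain ⟨i, j, rfl, rfl⟩ := h
  obtain ⟨i', j', rfl, rfl⟩ := h'
  exact ⟨a * i + b * i', a * j + b * j', by rw [e]; ring, by rw [e']; ring⟩

lemma In.half (B : Bs n e1 e2 f1 f2) (hn : n % 2 = 1) (h : In e1 e2 f1 f2 (2 * w) (2 * w')) :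
    In e1 e2 f1 f2 w w' := by
  obtain ⟨i, j, h1, h2⟩ := h
  have a1 : i * n = 2 * (w * f2 - w' * f1) := by linear_combination -i * B.det - f2 * h1 + f1 * h2
  have a2 : j * n = 2 * (w' * e1 - w * e2) := by linear_combination -j * B.det + e2 * h1 - e1 * h2
  have b1 := par_mul i n
  have b2 := par_mul j n
  obtain ⟨i, rfl⟩ := even_rep (c := i) (by omega)
  obtain ⟨j, rfl⟩ := even_rep (c := j) (by omega)
  exact ⟨i, j, by linarith, by linarith⟩

lemma In.axis1 (B : Bs n e1 e2 f1 f2) (h : In e1 e2 f1 f2 w 0) (h1 : -n < w) (h2 : w < n) :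
    w = 0 := by
  obtain ⟨i, j, a1, a2⟩ := h
  obtain ⟨a, b, hab⟩ := B.c2
  refine Int.eq_zero_of_abs_lt_dvd (m := n) ⟨b * i - a * j, ?_⟩ (abs_lt.2 ⟨h1, h2⟩)
  linear_combination -w * hab + (a * e2 + b * f2) * a1 - (a * e1 + b * f1) * a2 +
    (b * i - a * j) * B.det

lemma Bs.swap (B : Bs n e1 e2 f1 f2) : Bs n f2 f1 e2 e1 :=
  ⟨by linear_combination B.det, B.c2.symm, B.c1.symm⟩

lemma In.swap (h : In e1 e2 f1 f2 w w') : In f2 f1 e2 e1 w' w := by
  obtain ⟨i, j, a1, a2⟩ := h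
  exact ⟨j, i, by linear_combination a2, by linear_combination a1⟩

lemma Bs.flip (B : Bs n e1 e2 f1 f2) : Bs n f1 (-f2) e1 (-e2) :=
  ⟨by linear_combination B.det, B.c1.symm, B.c2.symm.neg_neg⟩

lemma In.flip (h : In e1 e2 f1 f2 w w') : In f1 (-f2) e1 (-e2) w (-w') := by
  obtain ⟨i, j, a1, a2⟩ := h
  exact ⟨j, i, by linear_combination a1, by linear_combination -a2⟩

lemma Gap.neg (h : Gap X X' w) : Gap X X' (-w) := by
  unfold Gap at *
  omega

lemma Fr.swap (h : Fr e1 e2 f1 f2 X X' Y Y') : Fr f2 f1 e2 e1 Y Y' X X' :=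
  fun _ _ a b c => h _ _ a.swap c b

lemma Fr.flip (h : Fr e1 e2 f1 f2 X X' Y Y') : Fr f1 (-f2) e1 (-e2) X X' Y Y' :=
  fun _ _ a b c => h _ _ (by simpa only [neg_neg] using a.flip) b c.neg

lemma In.axis2 (B : Bs n e1 e2 f1 f2) (h : In e1 e2 f1 f2 0 w) (h1 : -n < w) (h2 : w < n) :
    w = 0 := h.swap.axis1 B.swap h1 h2

/-- a basis whose first vector divides a given vector -/
lemma adapt (B : Bs n e1 e2 f1 f2) (h : In e1 e2 f1 f2 z z') (h0 : z ≠ 0 ∨ z' ≠ 0) :
    ∃ k u1 u2 v1 v2 : ℤ, 0 < k ∧ z = k * u1 ∧ z' = k * u2 ∧ Bs n u1 u2 v1 v2 ∧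
      ∀ w w', In e1 e2 f1 f2 w w' ↔ In u1 u2 v1 v2 w w' := by
  obtain ⟨i, j, a1, a2⟩ := h
  have g0 : 0 < Int.gcd i j := Int.gcd_pos_iff.2 (by
    by_contra a
    push Not at a
    rw [a.1, a.2] at a1 a2
    omega)
  obtain ⟨g, i', j', g1, g2, rfl, rfl⟩ := Int.exists_gcd_one' g0
  obtain ⟨a, b, hab⟩ := Int.isCoprime_iff_gcd_eq_one.2 g2
  obtain ⟨x, y, hxy⟩ := B.c1
  obtain ⟨x', y', hxy'⟩ := B.c2
  refine ⟨g, i' * e1 + j' * f1, i' * e2 + j' * f2, -b * e1 + a * f1, -b * e2 + a * f2,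
    by exact_mod_cast g1, by linear_combination a1, by linear_combination a2,
    ⟨by linear_combination B.det + (e1 * f2 - e2 * f1) * hab,
      ⟨x * a + y * b, -x * j' + y * i', by linear_combination hxy + (x * e1 + y * f1) * hab⟩,
      ⟨x' * a + y' * b, -x' * j' + y' * i', by
        linear_combination hxy' + (x' * e2 + y' * f2) * hab⟩⟩, fun w w' => ⟨?_, ?_⟩⟩
  · rintro ⟨c, d, rfl, rfl⟩
    exact ⟨c * a + d * b, -c * j' + d * i', by linear_combination -(c * e1 + d * f1) * hab,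
      by linear_combination -(c * e2 + d * f2) * hab⟩
  · rintro ⟨c, d, rfl, rfl⟩
    exact ⟨c * i' - d * b, c * j' + d * a, by ring, by ring⟩

lemma neg_of_mul {k u : ℤ} (hk : 0 < k) (h : k * u ≤ 0) : 0 ≤ -u := by
  by_contra a
  have := mul_pos hk (show 0 < u by omega)
  omega

lemma pos_of_mul {k u : ℤ} (hk : 0 < k) (h : 0 ≤ k * u) : 0 ≤ u := by
  have := neg_of_mul (u := -u) hk (by linarith)
  omega

lemma core_pos (B : Bs n e1 e2 f1 f2) (n0 : 0 < n) (hn : n % 2 = 1) (ht : 3 ≤ t)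
    (tod : t % 2 = 1) (hX : X + X' = t) (hY : Y + Y' = t) (pX : X' % 2 = 0) (pY : Y' % 2 = 0)
    (b1 : X < n) (b2 : Y < n) (b3 : -n < Y) (b4 : Y' < n) (x0 : X' ≤ 0)
    (h1 : In e1 e2 f1 f2 (X - X') t)
    (h2 : In e1 e2 f1 f2 t (Y - Y') ∨ In e1 e2 f1 f2 t (-(Y - Y')))
    (fr : Fr e1 e2 f1 f2 X X' Y Y') : Fam n t := by
  rcases h2 with h2 | h2
  · have s1 : In e1 e2 f1 f2 X Y := (h1.comb h2 1 1 (by omega) (by omega)).half B hn
    have s2 : In e1 e2 f1 f2 (-X') Y' := (h1.comb h2 1 (-1) (by omega) (by omega)).half B hn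
    by_cases z : X' = 0 ∧ Y' = 0
    · obtain ⟨rfl, rfl⟩ := z
      obtain rfl : X = t := by omega
      obtain rfl : Y = X := by omega
      obtain ⟨k, u1, u2, v1, v2, k0, a1, a2, B', e⟩ := adapt B s1 (Or.inl (by omega))
      obtain rfl : u2 = u1 := mul_left_cancel₀ k0.ne' (a2.symm.trans a1)
      exact case_zero n0 hn ht tod k0 a1 B'.det B'.c1 B'.c2 fun i j =>
        fr _ _ ((e _ _).2 ⟨i, j, rfl, rfl⟩)
    obtain ⟨k, u1, u2, v1, v2, k0, a1, a2, B', e⟩ := adapt B s2 (by omega)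
    obtain ⟨j0, c, z1, z2⟩ := (e _ _).1 s1
    have u0 : 0 ≤ u1 := pos_of_mul k0 (by omega)
    have hd := B'.det
    by_cases y0 : Y' ≤ 0
    · refine case_one (r := u1) (s := -u2) (k := k) (c := c) (j0 := j0) n0 hn ht u0
        (neg_of_mul k0 (by omega)) k0 (by linear_combination hd) B'.c1 B'.c2.neg_left
        (by omega) (by linear_combination z2 - hY + a2) (by omega) fun i j g1 g2 g3 g4 g5 g6 => ?_
      have q1 : k * -u2 = -(k * u2) := by ring
      have q2 : -(i * -u2) = i * u2 := by ring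
      exact fr _ _ ((e _ _).2 ⟨i, j, rfl, rfl⟩) (Or.inl (by omega)) (Or.inl (by omega))
    have q0 : 0 < u2 := pos_of_mul_pos_right (a := k) (by omega) k0.le
    have p0 : 0 < u1 := by
      by_contra a
      obtain rfl : u1 = 0 := by omega
      obtain rfl : X' = 0 := by omega
      have := In.axis2 B (w := Y') (by simpa using s2) (by omega) b4
      omega
    have ke : k % 2 = 0 := by
      by_contra a
      have p1 := par_mul k u1
      have p2 := par_mul k u2
      obtain ⟨m1, rfl⟩ := even_rep (c := u1) (by omega)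
      obtain ⟨m2, rfl⟩ := even_rep (c := u2) (by omega)
      have : n = 2 * (m1 * v2 - m2 * v1) := by linear_combination -hd
      omega
    refine case_two (p := u1) (q := u2) (k := k) (v1 := -v1) (v2 := -v2) (c := -c) (j0 := j0) n0
      hn tod ht p0 q0 (by omega) ke (by linear_combination hd) B'.c1.neg_right B'.c2.neg_right
      (by linear_combination z1 - hX - a1) (by linear_combination z2 - hY + a2)
      fun i j g1 g2 => ?_
    refine fr (i * u1 + j * -v1) (i * u2 + j * -v2) ((e _ _).2 ⟨i, -j, by ring, by ring⟩) ?_ ?_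
    · rwa [show X = t + k * u1 by omega, show X' = -(k * u1) by omega]
    · rwa [show Y = t - k * u2 by omega, a2]
  · have s1 : In e1 e2 f1 f2 X Y' := (h1.comb h2 1 1 (by omega) (by omega)).half B hn
    have s2 : In e1 e2 f1 f2 (-X') Y := (h1.comb h2 1 (-1) (by omega) (by omega)).half B hn
    have x1 : X' < 0 := by
      by_contra a
      obtain rfl : X' = 0 := by omega
      have := In.axis2 B (w := Y) (by simpa using s2) b3 b2
      omega
    by_cases y0 : Y < 0
    · obtain ⟨k, u1, u2, v1, v2, k0, a1, a2, B', e⟩ := adapt B s2 (by omega)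
      obtain ⟨j0, c, z1, z2⟩ := (e _ _).1 s1
      have hd := B'.det
      refine case_one (r := u1) (s := -u2) (k := k) (c := c) (j0 := j0) n0 hn ht
        (pos_of_mul k0 (by omega)) (neg_of_mul k0 (by omega)) k0 (by linear_combination hd) B'.c1
        B'.c2.neg_left (by omega) (by linear_combination z2 - hY + a2) (by omega)
        fun i j g1 g2 g3 g4 g5 g6 => ?_
      have q1 : k * -u2 = -(k * u2) := by ring
      have q2 : -(i * -u2) = i * u2 := by ring
      exact fr _ _ ((e _ _).2 ⟨i, j, rfl, rfl⟩) (Or.inl (by omega)) (Or.inr (by omega))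
    by_cases y1 : 0 < Y'
    · exfalso
      by_cases y2 : Y' < 2 * Y
      · exact fr _ _ h2 (Or.inl (by omega)) (Or.inl (by omega))
      · exact fr _ _ (s1.comb s2 1 (-2) rfl rfl) (Or.inl (by omega)) (Or.inr (by omega))
    have y2 : Y' < 0 := by
      by_contra a
      obtain rfl : Y' = 0 := by omega
      have := In.axis1 B s1 (by omega) b1
      omega
    obtain ⟨k, u1, u2, v1, v2, k0, a1, a2, B', e⟩ := adapt B s1 (by omega)
    obtain ⟨j0, c, z1, z2⟩ := (e _ _).1 s2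
    have hd := B'.det
    have q1 : k * -u2 = -(k * u2) := by ring
    refine case_three (q := u1) (p := -u2) (k := k) (c := c) (j0 := j0) n0 hn tod ht
      (pos_of_mul_pos_right (a := k) (by omega) k0.le)
      (pos_of_mul_pos_right (a := k) (by omega) k0.le) k0 (by omega) (by omega) (by omega)
      (by linear_combination hd) B'.c1 B'.c2.neg_left (by omega)
      (by linear_combination z2 - hY + a2) fun i j g1 g2 g3 g4 g5 g6 => ?_
    have q2 : -(i * -u2) = i * u2 := by ring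
    exact fr _ _ ((e _ _).2 ⟨i, j, rfl, rfl⟩) (Or.inl (by omega)) (Or.inl (by omega))

lemma core_neg (B : Bs n e1 e2 f1 f2) (n0 : 0 < n) (hn : n % 2 = 1) (ht : 3 ≤ t)
    (tod : t % 2 = 1) (hX : X + X' = t) (hY : Y + Y' = t) (pX : X' % 2 = 0) (pY : Y' % 2 = 0)
    (b1 : X < n) (b2 : Y < n) (b3 : -n < Y) (b4 : Y' < n) (x0 : X' ≤ 0)
    (h1 : In e1 e2 f1 f2 (X - X') t ∨ In e1 e2 f1 f2 (X - X') (-t))
    (h2 : In e1 e2 f1 f2 t (Y - Y') ∨ In e1 e2 f1 f2 t (-(Y - Y')))
    (fr : Fr e1 e2 f1 f2 X X' Y Y') : Fam n t := by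
  rcases h1 with h1 | h1
  · exact core_pos B n0 hn ht tod hX hY pX pY b1 b2 b3 b4 x0 h1 h2 fr
  · refine core_pos B.flip n0 hn ht tod hX hY pX pY b1 b2 b3 b4 x0 (by simpa using h1.flip) ?_
      fr.flip
    rcases h2 with h2 | h2
    · exact Or.inr h2.flip
    · exact Or.inl (by simpa only [neg_neg] using h2.flip)

lemma In.pm (h : In e1 e2 f1 f2 w w' ∨ In e1 e2 f1 f2 w (-w')) :
    In f2 f1 e2 e1 w' w ∨ In f2 f1 e2 e1 w' (-w) := by
  rcases h with h | h
  · exact Or.inl h.swap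
  · exact Or.inr (h.comb h (-1) 0 (by ring) (by ring)).swap

/-- a lattice that avoids the boxes belongs to one of the two families -/
theorem core_fam (B : Bs n e1 e2 f1 f2) (n0 : 0 < n) (hn : n % 2 = 1) (ht : 3 ≤ t)
    (tod : t % 2 = 1) (hX : X + X' = t) (hY : Y + Y' = t) (pX : X' % 2 = 0) (pY : Y' % 2 = 0)
    (b1 : X < n) (b2 : Y < n) (b3 : -n < Y) (b4 : Y' < n) (b5 : -n < X) (b6 : X' < n)
    (h1 : In e1 e2 f1 f2 (X - X') t ∨ In e1 e2 f1 f2 (X - X') (-t))
    (h2 : In e1 e2 f1 f2 t (Y - Y') ∨ In e1 e2 f1 f2 t (-(Y - Y')))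
    (fr : Fr e1 e2 f1 f2 X X' Y Y') : Fam n t := by
  by_cases x0 : X' ≤ 0
  · exact core_neg B n0 hn ht tod hX hY pX pY b1 b2 b3 b4 x0 h1 h2 fr
  by_cases y0 : Y' ≤ 0
  · exact core_neg B.swap n0 hn ht tod hY hX pY pX b2 b1 b5 b6 y0 (In.pm h2) (In.pm h1) fr.swap
  · exact (fr 0 0 ⟨0, 0, by ring, by ring⟩ (Or.inr (by omega)) (Or.inr (by omega))).elim

/-- every member of the two families gives a lattice that avoids the boxes -/
theorem exists_fr (n0 : 0 < n) (ht : 3 ≤ t) (tod : t % 2 = 1) (h : Fam n t) :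
    ∃ e1 e2 f1 f2 X X' Y Y' : ℤ, Bs n e1 e2 f1 f2 ∧ X + X' = t ∧ Y + Y' = t ∧ X' % 2 = 0 ∧
      Y' % 2 = 0 ∧ (In e1 e2 f1 f2 (X - X') t ∨ In e1 e2 f1 f2 (X - X') (-t)) ∧
      (In e1 e2 f1 f2 t (Y - Y') ∨ In e1 e2 f1 f2 t (-(Y - Y'))) ∧ Fr e1 e2 f1 f2 X X' Y Y' := by
  obtain ⟨p, q, k, p0, q0, pe, qo, ⟨a, b, hab⟩, ⟨a', b', hab'⟩, h⟩ := h
  have r1 := par_mul k p
  obtain ⟨m, hm⟩ := even_rep pe
  rcases h with ⟨k0, e⟩ | ⟨k0, tq, e⟩
  · have u1 : 0 ≤ k * p := by positivity
    have u2 : 0 ≤ k * q := by positivity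
    have B : Bs n p (-q) (t + k * p) (t + k * q) := ⟨by linear_combination -e,
      ⟨a - b * k, b, by linear_combination hab⟩, ⟨-a' + b' * k, b', by linear_combination hab'⟩⟩
    have F : ∀ w w', In p (-q) (t + k * p) (t + k * q) w w' → Gap (t + k * p) (-(k * p)) w →
        -(t + k * q) < w' → w' < t + k * q → False := by
      rintro w w' ⟨i, c, a1, a2⟩ g1 g2 g3
      have g4 : w % 2 = 1 ∧ -(t + k * p) < w ∧ w < t + k * p := by unfold Gap at g1; omega
      have d : c * n = p * w' + q * w := by rw [a1, a2, e]; ring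
      have d1 := mul_lt_mul_of_pos_left g2 p0
      have d2 := mul_lt_mul_of_pos_left g3 p0
      have d3 := mul_lt_mul_of_pos_left g4.2.1 q0
      have d4 := mul_lt_mul_of_pos_left g4.2.2 q0
      have d5 := box (c := n) (z := c) (X := 1) n0 (mul_comm _ _) (by linarith) (by linarith)
      obtain rfl : c = 0 := by omega
      have : w = 2 * (i * m) := by rw [a1, hm]; ring
      omega
    by_cases ke : (k * q) % 2 = 0
    · exact ⟨_, _, _, _, t + k * p, -(k * p), t + k * q, -(k * q), B, by ring, by ring, by omega,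
        by omega, Or.inl ⟨k, 1, by ring, by ring⟩, Or.inl ⟨-k, 1, by ring, by ring⟩,
        fun w w' g1 g2 g3 => F w w' g1 g2 (by unfold Gap at g3; omega)
          (by unfold Gap at g3; omega)⟩
    · exact ⟨_, _, _, _, t + k * p, -(k * p), -(k * q), t + k * q, B, by ring, by ring, by omega,
        by omega, Or.inl ⟨k, 1, by ring, by ring⟩, Or.inr ⟨-k, 1, by ring, by ring⟩,
        fun w w' g1 g2 g3 => F w w' g1 g2 (by unfold Gap at g3; omega)
          (by unfold Gap at g3; omega)⟩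
  · have u1 : p ≤ k * p := le_mul_of_one_le_left p0.le k0
    have u2 : q ≤ k * q := le_mul_of_one_le_left q0.le k0
    have B : Bs n p (-q) (t + k * p) (k * q - t) := ⟨by linear_combination -e,
      ⟨a - b * k, b, by linear_combination hab⟩, ⟨-a' - b' * k, -b', by linear_combination hab'⟩⟩
    have F : ∀ w w', In p (-q) (t + k * p) (k * q - t) w w' → Gap (t + k * p) (-(k * p)) w →
        -(k * q) < w' → w' < k * q → False := by
      rintro w w' ⟨i, c, a1, a2⟩ g1 g2 g3
      have g4 : w % 2 = 1 ∧ -(t + k * p) < w ∧ w < t + k * p := by unfold Gap at g1; omega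
      have d : c * n = p * w' + q * w := by rw [a1, a2, e]; ring
      have d1 := mul_lt_mul_of_pos_left g2 p0
      have d2 := mul_lt_mul_of_pos_left g3 p0
      have d3 := mul_lt_mul_of_pos_left g4.2.1 q0
      have d4 := mul_lt_mul_of_pos_left g4.2.2 q0
      have d6 := mul_le_mul_of_nonneg_left tq p0.le
      have d7 := mul_le_mul_of_nonneg_left u2 p0.le
      have d8 : 0 < q * t := by positivity
      have d5 := box (c := n) (z := c) (X := 2) n0 (mul_comm _ _) (by linarith) (by linarith)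
      have c0 : c ≠ 0 := by
        rintro rfl
        have : w = 2 * (i * m) := by rw [a1, hm]; ring
        omega
      rcases (show c = 1 ∨ c = -1 by omega) with rfl | rfl
      · have i1 : i < 0 := neg_of_mul_neg_left (b := p) (by linarith [g4.2.2]) p0.le
        have := mul_le_mul_of_nonneg_right (show i ≤ -1 by omega) q0.le
        linarith
      · have i1 : 0 < i := pos_of_mul_pos_left (b := p) (by linarith [g4.2.1]) p0.le
        have := mul_le_mul_of_nonneg_right (show 1 ≤ i by omega) q0.le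
        linarith
    by_cases ke : (k * q) % 2 = 0
    · exact ⟨_, _, _, _, t + k * p, -(k * p), t - k * q, k * q, B, by ring, by ring, by omega,
        by omega, Or.inr ⟨k, 1, by ring, by ring⟩, Or.inr ⟨-k, 1, by ring, by ring⟩,
        fun w w' g1 g2 g3 => F w w' g1 g2 (by unfold Gap at g3; omega)
          (by unfold Gap at g3; omega)⟩
    · exact ⟨_, _, _, _, t + k * p, -(k * p), k * q, t - k * q, B, by ring, by ring, by omega,
        by omega, Or.inr ⟨k, 1, by ring, by ring⟩, Or.inl ⟨-k, 1, by ring, by ring⟩,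
        fun w w' g1 g2 g3 => F w w' g1 g2 (by unfold Gap at g3; omega)
          (by unfold Gap at g3; omega)⟩

end Pool.Agent.P.MP_c862d8_co
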