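import Pool.Agent.P.MP_c862d8_co.WinB
import Pool.Agent.P.MP_c862d8_co.TwoOdd
import Pool.Agent.P.MP_c862d8_co.TwoPack

/-! The covering criterion for two elements, `h` even and `n` odd. -/

namespace Pool.Agent.P.MP_c862d8_co

lemma cov_of_int_w {n h : ℕ} (A B : ℤ)
    (H : ∀ z : ℤ, ∃ u v : ℤ, u.natAbs + v.natAbs = h ∧ (n : ℤ) ∣ z - (u * A + v * B)) :
    Cov h (A : ZMod n) (B : ZMod n) := by
  intro z
  obtain ⟨z, rfl⟩ := ZMod.intCast_surjective z
  obtain ⟨u, v, h1, h2⟩ := H z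
  refine ⟨u, v, h1, ?_⟩
  have := (ZMod.intCast_eq_intCast_iff_dvd_sub _ _ _).2 h2
  push_cast at this
  exact this

lemma exists_rep_w {n : ℕ} (hn : 0 < n) (z lo : ℤ) : ∃ w : ℤ, lo ≤ w ∧ w < lo + n ∧ (n : ℤ) ∣ z - w := by
  have hn0 : (0 : ℤ) < n := by omega
  refine ⟨lo + (z - lo) % n, by have := Int.emod_nonneg (z - lo) hn0.ne'; omega,
    by have := Int.emod_lt_of_pos (z - lo) hn0; omega, ?_⟩
  have := Int.dvd_self_sub_emod (x := z - lo) (m := n)
  convert this using 1; ring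

lemma cast_ne_w {n : ℕ} (A B : ℤ) (h1 : A < B) (h2 : B - A < n) : (A : ZMod n) ≠ B := by
  rw [Ne, ZMod.intCast_eq_intCast_iff_dvd_sub]
  intro h
  have := not_dvd_of_small h (by omega) (by omega)
  omega

lemma cov_small_w {n h : ℕ} (hn : 2 ≤ n) (H : n ≤ 2 * h + 1) :
    ∃ a b : ZMod n, a ≠ b ∧ Cov h a b := by
  refine ⟨((0 : ℤ) : ZMod n), ((1 : ℤ) : ZMod n), cast_ne_w _ _ (by omega) (by omega),
    cov_of_int_w _ _ fun z => ?_⟩
  obtain ⟨w, h1, h2, h3⟩ := exists_rep_w (n := n) (by omega) z (-h)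
  exact ⟨h - w.natAbs, w, by omega, by simpa using h3⟩

lemma cov_odd_w {n h : ℕ} (hn : 3 ≤ n) (p : n % 2 = 1) (q : h % 2 = 1) (H : n ≤ 3 * h) :
    ∃ a b : ZMod n, a ≠ b ∧ Cov h a b := by
  refine ⟨((1 : ℤ) : ZMod n), ((3 : ℤ) : ZMod n), cast_ne_w _ _ (by omega) (by omega),
    cov_of_int_w _ _ fun z => ?_⟩
  obtain ⟨w, h1, h2, h3, h4⟩ : ∃ w : ℤ, -n ≤ w ∧ w ≤ n ∧ w % 2 = 1 ∧ (n : ℤ) ∣ z - w := by
    obtain ⟨w, h1, h2, h3⟩ := exists_rep_w (n := n) (by omega) z 0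
    by_cases hw : w % 2 = 1
    · exact ⟨w, by omega, by omega, hw, h3⟩
    · exact ⟨w - n, by omega, by omega, by omega, by
        have := h3.add (dvd_refl _); rwa [show z - w + n = z - (w - n) by ring] at this⟩
  have fin : ∀ u v : ℤ, u.natAbs + v.natAbs = h → u * 1 + v * 3 = w →
      ∃ u v : ℤ, u.natAbs + v.natAbs = h ∧ (n : ℤ) ∣ z - (u * 1 + v * 3) :=
    fun u v a b => ⟨u, v, a, by rw [b]; exact h4⟩
  clear h4
  by_cases c1 : h ≤ w
  · exact fin (h - (w - h) / 2) ((w - h) / 2) (by omega) (by omega)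
  by_cases c2 : w ≤ -h
  · exact fin (-(h - (-w - h) / 2)) (-((-w - h) / 2)) (by omega) (by omega)
  by_cases c3 : (w + h) % 4 = 0
  · exact fin (-(h - (w + h) / 4)) ((w + h) / 4) (by omega) (by omega)
  · exact fin (h - (h - w) / 4) (-((h - w) / 4)) (by omega) (by omega)

lemma gap_or {n h C : ℤ} (n0 : 0 < n) (hn : n % 2 = 1) (hC : C % 2 = 0) (w : ℤ) :
    (∃ v : ℤ, v % 2 = 0 ∧ -h ≤ v ∧ v ≤ h ∧ (n ∣ w - (C + v) ∨ n ∣ w - (-C + v))) ∨
      ∃ w0, n ∣ w - w0 ∧ Gap (n - h - C) (C - h) w0 := by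
  have f1 := Int.emod_nonneg w n0.ne'
  have f2 := Int.emod_lt_of_pos w n0
  have f3 := Int.emod_add_mul_ediv w n
  generalize w % n = r at *
  generalize w / n = m at *
  have d0 : n ∣ w - r := ⟨m, by linear_combination -f3⟩
  have d1 : n ∣ w - (r - n) := ⟨m + 1, by linear_combination -f3⟩
  by_cases p : r % 2 = 0
  · by_cases a : r < C - h
    · exact Or.inr ⟨r, d0, Or.inr (by omega)⟩
    by_cases b : C + h < r
    · exact Or.inr ⟨r - n, d1, Or.inl (by omega)⟩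
    · exact Or.inl ⟨r - C, by omega, by omega, by omega, Or.inl (by rwa [add_sub_cancel])⟩
  · by_cases a : n - r < C - h
    · exact Or.inr ⟨r - n, d1, Or.inr (by omega)⟩
    by_cases b : C + h < n - r
    · exact Or.inr ⟨r, d0, Or.inl (by omega)⟩
    · exact Or.inl ⟨r - n + C, by omega, by omega, by omega,
        Or.inr (by rwa [show -C + (r - n + C) = r - n by ring])⟩

lemma gap_not {n h C w v : ℤ} (hn : n % 2 = 1) (hC : C % 2 = 0) (C0 : 0 ≤ C) (C1 : C ≤ n)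
    (g : Gap (n - h - C) (C - h) w) (pv : v % 2 = 0) (v0 : -h ≤ v) (v1 : v ≤ h)
    (d : n ∣ w - (C + v) ∨ n ∣ w - (-C + v)) : False := by
  have key : ∀ a : ℤ, n ∣ a → -(2 * n) < a → a < 2 * n → a = 0 ∨ a = n ∨ a = -n := by
    intro a ha h1 h2
    obtain ⟨k, k1, k2, rfl⟩ := dvd_cases ha 2 (by omega) h1 h2
    rcases (show k = 0 ∨ k = 1 ∨ k = -1 by omega) with rfl | rfl | rfl <;> omega
  unfold Gap at g
  rcases d with d | d
  · have := key _ d (by omega) (by omega)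
    omega
  · have := key _ d (by omega) (by omega)
    omega

lemma even_pm {n : ℤ} (n0 : 0 < n) (hn : n % 2 = 1) (r : ℤ) :
    ∃ C : ℤ, C % 2 = 0 ∧ 0 ≤ C ∧ C < n ∧ (n ∣ C - r ∨ n ∣ C + r) := by
  have f1 := Int.emod_nonneg r n0.ne'
  have f2 := Int.emod_lt_of_pos r n0
  have f3 := Int.emod_add_mul_ediv r n
  generalize r % n = a at *
  generalize r / n = m at *
  by_cases p : a % 2 = 0
  · exact ⟨a, p, f1, f2, Or.inl ⟨-m, by linear_combination f3⟩⟩
  · exact ⟨n - a, by omega, by omega, by omega, Or.inr ⟨m + 1, by linear_combination -f3⟩⟩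

lemma in_iff {n g w w' : ℤ} : In 1 g 0 n w w' ↔ n ∣ w' - g * w :=
  ⟨by rintro ⟨i, j, rfl, rfl⟩; exact ⟨j, by ring⟩,
    fun ⟨j, e⟩ => ⟨w, j, by ring, by linear_combination e⟩⟩

lemma fam_of_covB {n h : ℕ} {g : ℤ} (hn : n % 2 = 1) (hh : h % 2 = 0) (hN : 2 * h + 3 ≤ n)
    (h0 : 0 < h) (hc : IsCoprime (n : ℤ) g) (K : CovB n h 1 g) : Fam n (n - 2 * h) := by
  have n0 : (0 : ℤ) < n := by omega
  obtain ⟨g', ⟨m, hm⟩, -⟩ := exists_inv hc
  obtain ⟨C, pC, C0, C1, eC⟩ := even_pm n0 (by omega) (h * g')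
  obtain ⟨D, pD, D0, D1, eD⟩ := even_pm n0 (by omega) (h * g)
  obtain ⟨N, hN'⟩ : ∃ N : ℤ, (n : ℤ) + 1 = 2 * N := ⟨(n + 1) / 2, by omega⟩
  refine core_fam (e1 := 1) (e2 := g) (f1 := 0) (f2 := n) (X := n - h - C) (X' := C - h)
    (Y := n - h - D) (Y' := D - h) ⟨by ring, isCoprime_one_left, hc.symm⟩ n0 (by omega) (by omega)
    (by omega) (by ring) (by ring) (by omega) (by omega) (by omega) (by omega) (by omega)
    (by omega) (by omega) (by omega) ?_ ?_ ?_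
  · rcases eC with ⟨l, e⟩ | ⟨l, e⟩
    · exact Or.inl (in_iff.2 ⟨1 - g + 2 * g * l + 2 * h * m, by
        linear_combination 2 * g * e + 2 * h * hm⟩)
    · exact Or.inr (in_iff.2 ⟨-1 - g + 2 * g * l - 2 * h * m, by
        linear_combination 2 * g * e - 2 * h * hm⟩)
  · rcases eD with ⟨l, e⟩ | ⟨l, e⟩
    · exact Or.inl (in_iff.2 ⟨1 - g - 2 * l, by linear_combination -2 * e⟩)
    · exact Or.inr (in_iff.2 ⟨-1 - g + 2 * l, by linear_combination 2 * e⟩)
  · intro w w' a g1 g2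
    obtain ⟨j, a⟩ := in_iff.1 a
    obtain ⟨x, y, x0, x1, y0, y1, s, l, hl⟩ := K (N * (w' + h * (1 + g)))
    have e : w' - ((2 * x - h) + (2 * y - h) * g) = n * (2 * l - (w' + h * (1 + g))) := by
      linear_combination 2 * hl + (w' + h * (1 + g)) * hN'
    generalize 2 * l - (w' + h * (1 + g)) = r at e
    have e' : w - ((2 * x - h) * g' + (2 * y - h)) =
        n * (g' * (r - j) - m * (w - (2 * y - h))) := by
      linear_combination g' * e - g' * a - (w - (2 * y - h)) * hm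
    generalize g' * (r - j) - m * (w - (2 * y - h)) = r' at e'
    rcases s with rfl | rfl | rfl | rfl
    · refine gap_not (by omega) pC C0 C1.le g1 (v := 2 * y - h) (by omega) (by omega) (by omega) ?_
      rcases eC with ⟨u, b⟩ | ⟨u, b⟩
      · exact Or.inr ⟨r' + u, by linear_combination e' + b⟩
      · exact Or.inl ⟨r' - u, by linear_combination e' - b⟩
    · refine gap_not (by omega) pC C0 C1.le g1 (v := 2 * y - h) (by omega) (by omega) (by omega) ?_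
      rcases eC with ⟨u, b⟩ | ⟨u, b⟩
      · exact Or.inl ⟨r' - u, by linear_combination e' - b⟩
      · exact Or.inr ⟨r' + u, by linear_combination e' + b⟩
    · refine gap_not (by omega) pD D0 D1.le g2 (v := 2 * x - h) (by omega) (by omega) (by omega) ?_
      rcases eD with ⟨u, b⟩ | ⟨u, b⟩
      · exact Or.inr ⟨r + u, by linear_combination e + b⟩
      · exact Or.inl ⟨r - u, by linear_combination e - b⟩
    · refine gap_not (by omega) pD D0 D1.le g2 (v := 2 * x - h) (by omega) (by omega) (by omega) ?_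
      rcases eD with ⟨u, b⟩ | ⟨u, b⟩
      · exact Or.inl ⟨r - u, by linear_combination e - b⟩
      · exact Or.inr ⟨r + u, by linear_combination e + b⟩

lemma Bs.norm {n e1 e2 f1 f2 : ℤ} (B : Bs n e1 e2 f1 f2) :
    ∃ g : ℤ, IsCoprime n g ∧ ∀ w w', In e1 e2 f1 f2 w w' ↔ n ∣ w' - g * w := by
  obtain ⟨a, b, hab⟩ := B.c1
  obtain ⟨a', b', hab'⟩ := B.c2
  have hd := B.det
  refine ⟨a * e2 + b * f2, ⟨a' * b - b' * a + 2 * (b' * a - a' * b), a' * e1 + b' * f1, ?_⟩,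
    fun w w' => ⟨?_, ?_⟩⟩
  · linear_combination hab' + (a' * e2 + b' * f2) * hab - (b' * a - a' * b) * hd
  · rintro ⟨i, j, rfl, rfl⟩
    exact ⟨j * a - i * b, by
      linear_combination -(i * e2 + j * f2) * hab + (j * a - i * b) * hd⟩
  · rintro ⟨j, e⟩
    exact ⟨w * a - j * f1, w * b + j * e1, by linear_combination -w * hab,
      by linear_combination e - j * hd⟩

lemma covB_of_fam {n h : ℕ} (hn : n % 2 = 1) (hh : h % 2 = 0) (hN : 2 * h + 3 ≤ n)
    (F : Fam n (n - 2 * h)) : ∃ g : ℤ, IsCoprime (n : ℤ) g ∧ CovB n h 1 g := by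
  have n0 : (0 : ℤ) < n := by omega
  obtain ⟨e1, e2, f1, f2, X, X', Y, Y', B, hX, hY, pX, pY, h1, h2, fr⟩ :=
    exists_fr n0 (by omega) (by omega) F
  obtain ⟨g, hc, e⟩ := B.norm
  obtain ⟨g', ⟨m, hm⟩, -⟩ := exists_inv hc
  obtain ⟨N, hN'⟩ : ∃ N : ℤ, (n : ℤ) + 1 = 2 * N := ⟨(n + 1) / 2, by omega⟩
  have half : ∀ a b : ℤ, (n : ℤ) ∣ b → (n : ℤ) ∣ 2 * a - b → (n : ℤ) ∣ a := by
    rintro a b ⟨u, hu⟩ ⟨v, hv⟩
    exact ⟨N * (u + v) - a, by linear_combination N * hu + N * hv + a * hN'⟩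
  obtain ⟨C, rfl⟩ : ∃ C, X' = C - h := ⟨X' + h, by ring⟩
  obtain ⟨D, rfl⟩ : ∃ D, Y' = D - h := ⟨Y' + h, by ring⟩
  obtain rfl : X = n - h - C := by omega
  obtain rfl : Y = n - h - D := by omega
  have eC : (n : ℤ) ∣ g * C - h ∨ (n : ℤ) ∣ g * C + h := by
    rcases h1 with a | a
    · exact Or.inl (half _ _ ((e _ _).1 a) ⟨g - 1, by ring⟩)
    · exact Or.inr (half _ _ ((e _ _).1 a) ⟨g + 1, by ring⟩)
  have eD : (n : ℤ) ∣ D - h * g ∨ (n : ℤ) ∣ D + h * g := by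
    rcases h2 with a | a
    · exact Or.inl (half _ _ ((e _ _).1 a).neg_right ⟨1 - g, by ring⟩)
    · exact Or.inr (half _ _ ((e _ _).1 a) ⟨1 + g, by ring⟩)
  refine ⟨g, hc, fun z => ?_⟩
  have fin : ∀ u v : ℤ, u % 2 = 0 → v % 2 = 0 → -(h : ℤ) ≤ u → u ≤ h → -(h : ℤ) ≤ v → v ≤ h →
      (u = -h ∨ u = h ∨ v = -h ∨ v = h) → (n : ℤ) ∣ 2 * z - h * (1 + g) - (u + v * g) →
      ∃ x y : ℤ, 0 ≤ x ∧ x ≤ h ∧ 0 ≤ y ∧ y ≤ h ∧ (x = 0 ∨ x = h ∨ y = 0 ∨ y = h) ∧
        (n : ℤ) ∣ z - (x * 1 + y * g) := by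
    intro u v pu pv u0 u1 v0 v1 s d
    obtain ⟨x, hx⟩ : ∃ x, u = 2 * x - h := ⟨(u + h) / 2, by omega⟩
    obtain ⟨y, hy⟩ : ∃ y, v = 2 * y - h := ⟨(v + h) / 2, by omega⟩
    exact ⟨x, y, by omega, by omega, by omega, by omega, by omega,
      half _ _ d ⟨0, by rw [hx, hy]; ring⟩⟩
  generalize 2 * z - h * (1 + g) = E at fin
  rcases gap_or (h := h) (C := D) n0 (by omega) (by omega) E with ⟨u, p, u0, u1, d⟩ | ⟨w', d', g2⟩
  · rcases d with ⟨l, d⟩ | ⟨l, d⟩ <;> rcases eD with ⟨r, b⟩ | ⟨r, b⟩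
    · exact fin u h p (by omega) u0 u1 (by omega) le_rfl (by omega)
        ⟨l + r, by linear_combination d + b⟩
    · exact fin u (-h) p (by omega) u0 u1 le_rfl (by omega) (by omega)
        ⟨l + r, by linear_combination d + b⟩
    · exact fin u (-h) p (by omega) u0 u1 le_rfl (by omega) (by omega)
        ⟨l - r, by linear_combination d - b⟩
    · exact fin u h p (by omega) u0 u1 (by omega) le_rfl (by omega)
        ⟨l - r, by linear_combination d - b⟩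
  rcases gap_or (h := h) (C := C) n0 (by omega) (by omega) (g' * E) with
    ⟨v, p, v0, v1, d⟩ | ⟨w, d, g1⟩
  · rcases d with ⟨l, d⟩ | ⟨l, d⟩ <;> rcases eC with ⟨r, b⟩ | ⟨r, b⟩
    · exact fin h v (by omega) p (by omega) le_rfl v0 v1 (by omega)
        ⟨g * l + r - m * E, by linear_combination g * d + b - E * hm⟩
    · exact fin (-h) v (by omega) p le_rfl (by omega) v0 v1 (by omega)
        ⟨g * l + r - m * E, by linear_combination g * d + b - E * hm⟩
    · exact fin (-h) v (by omega) p le_rfl (by omega) v0 v1 (by omega)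
        ⟨g * l - r - m * E, by linear_combination g * d - b - E * hm⟩
    · exact fin h v (by omega) p (by omega) le_rfl v0 v1 (by omega)
        ⟨g * l - r - m * E, by linear_combination g * d - b - E * hm⟩
  · obtain ⟨l, d⟩ := d
    obtain ⟨l', d'⟩ := d'
    exact (fr w w' ((e _ _).2 ⟨g * l - l' - m * E, by
      linear_combination g * d - d' - E * hm⟩) g1 g2).elim

/-- the covering criterion -/
theorem cov_iff_fam {n h : ℕ} (hn : n % 2 = 1) (hh : h % 2 = 0) (hN : 2 * h + 3 ≤ n)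
    (h0 : 0 < h) : (∃ a b : ZMod n, a ≠ b ∧ Cov h a b) ↔ Fam n (n - 2 * h) := by
  constructor
  · rintro ⟨a, b, -, H⟩
    obtain ⟨A, rfl⟩ := ZMod.intCast_surjective a
    obtain ⟨B, rfl⟩ := ZMod.intCast_surjective b
    have K := covB_of_cov A B H
    have c1 := coprime_of_covB (by omega) K (Or.inl hn)
    have c2 := coprime_of_covB (by omega) K.symm (Or.inl hn)
    obtain ⟨s', h1, h2⟩ := exists_inv c1
    exact fam_of_covB hn hh hN h0 (c2.mul_right h2) (K.scale h1)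
  · intro F
    obtain ⟨g, hc, K⟩ := covB_of_fam hn hh hN F
    obtain ⟨N, hN'⟩ : ∃ N : ℤ, (n : ℤ) + 1 = 2 * N := ⟨(n + 1) / 2, by omega⟩
    refine ⟨((N * (1 + g) : ℤ) : ZMod n), ((N * (1 - g) : ℤ) : ZMod n), ?_,
      cov_of_int_w _ _ fun z => ?_⟩
    · rw [Ne, ZMod.intCast_eq_intCast_iff_dvd_sub]
      rintro ⟨l, hl⟩
      obtain ⟨a, b, hab⟩ := hc
      have : (n : ℤ) ∣ 1 := ⟨a - b * (l + g), by linear_combination -hab - b * hl + b * g * hN'⟩
      have := Int.le_of_dvd one_pos this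
      omega
    · obtain ⟨x, y, x0, x1, y0, y1, s, l, hl⟩ := K (z + h * (N * (1 + g)))
      exact ⟨x + y - h, x - y, by omega, l - (x + y * g), by
        linear_combination hl + (x + y * g) * hN'⟩

lemma fam_nat {n t : ℕ} (ht : 3 ≤ t) : Fam n t ↔ ∃ p q k : ℕ, p % 2 = 0 ∧ q % 2 = 1 ∧
    Nat.Coprime (p * q) t ∧ (n = 2 * k * p * q + (p + q) * t ∨
      (1 ≤ k ∧ t ≤ q ∧ n + p * t = 2 * k * p * q + q * t)) := by
  constructor
  · rintro ⟨p, q, k, p0, q0, pe, qo, c1, c2, H⟩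
    lift p to ℕ using p0.le
    lift q to ℕ using q0.le
    lift k to ℕ using (by omega)
    refine ⟨p, q, k, by omega, by omega,
      Nat.Coprime.mul_left (Nat.isCoprime_iff_coprime.1 c1) (Nat.isCoprime_iff_coprime.1 c2), ?_⟩
    rcases H with ⟨-, e⟩ | ⟨k0, tq, e⟩
    · exact Or.inl (by exact_mod_cast e)
    · refine Or.inr ⟨by omega, by omega, ?_⟩
      zify
      linear_combination e
  · rintro ⟨p, q, k, pe, qo, c, H⟩
    have c1 := Nat.isCoprime_iff_coprime.2 (Nat.Coprime.coprime_mul_right c)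
    have c2 := Nat.isCoprime_iff_coprime.2 (Nat.Coprime.coprime_mul_left c)
    refine ⟨p, q, k, cop_pos c1 (by omega) (by omega), by omega, by omega, by omega, c1, c2, ?_⟩
    rcases H with e | ⟨k0, tq, e⟩
    · exact Or.inl ⟨by omega, by exact_mod_cast e⟩
    · refine Or.inr ⟨by omega, by omega, ?_⟩
      zify at e
      linear_combination e

lemma not_fam {n t : ℤ} (ht : 3 ≤ t) (tod : t % 2 = 1) (h4 : (n - t) % 4 = 0) (h5 : n < 5 * t) :
    ¬ Fam n t := by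
  rintro ⟨p, q, k, p0, q0, pe, qo, -, -, ⟨k0, e⟩ | ⟨k0, tq, e⟩⟩
  · have a : 0 ≤ 2 * k * p * q := by positivity
    have b : p + q < 5 := lt_of_mul_lt_mul_right (a := t) (by linarith) (by omega)
    obtain rfl : p = 2 := by omega
    obtain rfl : q = 1 := by omega
    omega
  · have a : q ≤ k * q := le_mul_of_one_le_left q0.le k0
    have b : 2 * t ≤ p * (2 * (k * q) - t) := mul_le_mul (by omega) (by omega) (by omega) p0.le
    have d : 3 * t ≤ q * t := mul_le_mul_of_nonneg_right (by omega) (by omega)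
    linarith

lemma fam_four {n t : ℤ} (tod : t % 2 = 1) (h8 : (n - 5 * t) % 8 = 0) (h5 : 5 * t ≤ n) :
    Fam n t := by
  refine ⟨4, 1, (n - 5 * t) / 8, by omega, by omega, by omega, by omega, ?_, isCoprime_one_left,
    Or.inl ⟨by omega, by omega⟩⟩
  by_cases a : t % 4 = 1
  · exact ⟨-(t / 4), 1, by omega⟩
  · exact ⟨t / 4 + 1, -1, by omega⟩

theorem two_complete (n h : ℕ) (hn : 2 ≤ n) (hh : 2 ≤ h) :
    nu n 2 h < min n (c h 2) ↔
      (n % 2 = 0 ∧ h % 2 = 0 ∧ 2 * h + 2 ≤ n ∧ n ≤ h ^ 2 + 2 * h) ∨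
      (n % 2 = 0 ∧ h % 2 = 1 ∧ 2 * h + 2 ≤ n ∧ n ≤ h ^ 2 + 3 * h) ∨
      (n % 2 = 1 ∧ h % 2 = 1 ∧ 3 * h < n ∧ n ≤ h ^ 2 + 2 * h) ∨
      (n % 2 = 1 ∧ h % 2 = 0 ∧ 2 * h + 3 ≤ n ∧ 5 * h < 2 * n ∧ n ≤ h ^ 2 + 2 * h) ∨
      (n % 2 = 1 ∧ h % 4 = 0 ∧ 2 * h + 3 ≤ n ∧ 2 * n ≤ 5 * h ∧
        ¬ ∃ t p q k : ℕ, n = 2 * h + t ∧ p % 2 = 0 ∧ q % 2 = 1 ∧ Nat.Coprime (p * q) t ∧
          (n = 2 * k * p * q + (p + q) * t ∨
            (1 ≤ k ∧ t ≤ q ∧ n + p * t = 2 * k * p * q + q * t))) := by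
  have hsq : 2 * h ≤ h ^ 2 := by nlinarith
  rcases le_total n (4 * h) with H | H
  swap
  · rw [packing hh H]
    generalize h ^ 2 = s at *
    constructor
    · intro K
      rw [← or_assoc, ← or_assoc, ← or_assoc]
      exact Or.inl (by omega)
    · rintro (K | K | K | K | ⟨K1, K2, K3, K4, -⟩) <;> omega
  rw [nu_lt_iff_cov hn hh H]
  by_cases hw : h % 2 = 0 ∧ n % 2 = 1 ∧ 2 * h + 3 ≤ n
  · obtain ⟨w1, w2, w3⟩ := hw
    obtain ⟨t, rfl⟩ : ∃ t, n = 2 * h + t := ⟨n - 2 * h, by omega⟩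
    have e := cov_iff_fam w2 w1 w3 (by omega)
    rw [show ((2 * h + t : ℕ) : ℤ) - 2 * h = t by omega] at e
    have e' := fam_nat (n := 2 * h + t) (t := t) (by omega)
    constructor
    · intro K
      have K' : ¬ Fam ((2 * h + t : ℕ) : ℤ) t := fun F =>
        (e.2 F).elim fun a ⟨b, hab, hc⟩ => K a b hab hc
      by_cases w4 : 5 * h < 2 * (2 * h + t)
      · exact Or.inr (Or.inr (Or.inr (Or.inl ⟨w2, w1, w3, w4, by omega⟩)))
      refine Or.inr (Or.inr (Or.inr (Or.inr ⟨w2, ?_, w3, by omega, ?_⟩)))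
      · by_contra a
        exact K' (fam_four (by omega) (by omega) (by omega))
      · rintro ⟨t', p, q, k, a, F⟩
        obtain rfl : t' = t := by omega
        exact K' (e'.2 ⟨p, q, k, F⟩)
    · rintro (K | K | K | K | K) a b hab hc
      · omega
      · omega
      · omega
      · exact not_fam (by omega) (by omega) (by omega) (by omega) (e.1 ⟨a, b, hab, hc⟩)
      · obtain ⟨p, q, k, F⟩ := e'.1 (e.1 ⟨a, b, hab, hc⟩)
        exact K.2.2.2.2 ⟨t, p, q, k, rfl, F⟩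
  constructor
  · intro K
    have k1 : 2 * h + 2 ≤ n := by
      by_contra hc
      obtain ⟨a, b, hab, hI⟩ := cov_small_w (n := n) (h := h) hn (by omega)
      exact K a b hab hI
    have k2 : n % 2 = 1 → h % 2 = 1 → 3 * h < n := by
      intro p q
      by_contra hc
      obtain ⟨a, b, hab, hI⟩ := cov_odd_w (n := n) (h := h) (by omega) p q (by omega)
      exact K a b hab hI
    generalize h ^ 2 = s at *
    rw [← or_assoc, ← or_assoc, ← or_assoc]
    exact Or.inl (by omega)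
  · rintro (K | K | K | K | K) a b -
    · exact not_cov_even K.1 K.2.2.1 a b
    · exact not_cov_even K.1 K.2.2.1 a b
    · exact not_cov_odd K.1 K.2.1 hh K.2.2.1 H a b
    · exact (hw ⟨K.2.1, K.1, K.2.2.1⟩).elim
    · exact (hw ⟨by omega, K.1, K.2.2.1⟩).elim

end Pool.Agent.P.MP_c862d8_co
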